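import Pool.Agent.Full.Jordan.Extend

/-!
# Caratheodory's theorem, the extension and its injectivity
-/

set_option autoImplicit false

open Set Filter Topology Metric

namespace Full.Jordan

variable {D : Set ℂ} {φ ψ F : ℂ → ℂ}

lemma lin_chord (ζ₁ ζ₂ : ℂ) :
    lin (Complex.I * (ζ₁ - ζ₂)) ζ₂ = lin (Complex.I * (ζ₁ - ζ₂)) ζ₁ := by
  simp only [lin, map_mul, Complex.conj_I, map_sub, Complex.mul_re, Complex.mul_im, Complex.sub_re,
    Complex.sub_im, Complex.neg_re, Complex.neg_im, Complex.I_re, Complex.I_im, Complex.conj_re,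
    Complex.conj_im]
  ring

/-- the extension is injective on the circle -/
theorem RMap.inj_circle (h : RMap D φ ψ) (hD : IsOpen D) (hb : Bornology.IsBounded D)
    (hP : ∀ w, IsPreconnected (frontier D \ {w})) (hF : ContinuousOn F (closedBall 0 1))
    (hE : EqOn F φ (ball 0 1)) (hS : ∀ ζ : ℂ, ‖ζ‖ = 1 → F ζ ∈ frontier D) {ζ₁ ζ₂ : ℂ}
    (h1 : ‖ζ₁‖ = 1) (h2 : ‖ζ₂‖ = 1) (he : F ζ₁ = F ζ₂) : ζ₁ = ζ₂ := by
  by_contra hne
  have hfD : ∀ w ∈ frontier D, w ∉ D := fun w hw hwD =>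
    (disjoint_frontier_iff_isOpen.2 hD).le_bot ⟨hw, hwD⟩
  have hball : ∀ z ∈ ball (0:ℂ) 1, F z ∈ D := fun z hz => by rw [hE hz]; exact h.mφ hz
  set w := F ζ₁ with hw
  have hwf : w ∈ frontier D := hS _ h1
  set ν := Complex.I * (ζ₁ - ζ₂) with hν
  set c := lin ν ζ₁ with hc
  have hc2 : lin ν ζ₂ = c := lin_chord ζ₁ ζ₂
  have hν0 : ν ≠ 0 := mul_ne_zero Complex.I_ne_zero (sub_ne_zero.2 hne)
  have hν1 : 0 < ‖ν‖ ^ 2 := by
    have := norm_pos_iff.2 hν0
    positivity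
  -- the middle of the chord
  set m : ℂ := (1/2 : ℝ) • ζ₁ + (1/2 : ℝ) • ζ₂ with hm
  have hmb : m ∈ ball (0:ℂ) 1 := by
    have := (strictConvex_closedBall ℝ (0:ℂ) 1) (mem_closedBall_zero_iff.2 h1.le)
      (mem_closedBall_zero_iff.2 h2.le) hne (a := 1/2) (b := 1/2) (by norm_num) (by norm_num)
      (by norm_num)
    rwa [interior_closedBall (0:ℂ) one_ne_zero] at this
  have hmc : lin ν m = c := by
    rw [hm, lin_add, lin_smul, lin_smul, hc2, ← hc]; ring
  obtain ⟨t, ht, htb⟩ : ∃ t : ℝ, 0 < t ∧ m + t • ν ∈ ball (0:ℂ) 1 ∧ m - t • ν ∈ ball (0:ℂ) 1 := by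
    have e1 : ∀ᶠ t : ℝ in 𝓝 0, m + t • ν ∈ ball (0:ℂ) 1 := by
      have : Tendsto (fun t : ℝ => m + t • ν) (𝓝 0) (𝓝 (m + (0:ℝ) • ν)) :=
        (Continuous.tendsto (by fun_prop) 0)
      rw [zero_smul, add_zero] at this
      exact this (isOpen_ball.mem_nhds hmb)
    have e2 : ∀ᶠ t : ℝ in 𝓝 0, m - t • ν ∈ ball (0:ℂ) 1 := by
      have : Tendsto (fun t : ℝ => m - t • ν) (𝓝 0) (𝓝 (m - (0:ℝ) • ν)) :=
        (Continuous.tendsto (by fun_prop) 0)
      rw [zero_smul, sub_zero] at this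
      exact this (isOpen_ball.mem_nhds hmb)
    obtain ⟨t, ⟨ht1, ht2⟩, ht3⟩ := (((e1.and e2).filter_mono nhdsWithin_le_nhds).and
      (self_mem_nhdsWithin : Ioi (0:ℝ) ∈ 𝓝[>] 0)).exists
    exact ⟨t, ht3, ht1, ht2⟩
  have hsp : m + t • ν ∈ half ν c := by
    refine ⟨htb.1, ?_⟩
    rw [mem_ofPred_eq, lin_add, lin_smul, lin_self, hmc]
    nlinarith
  have hsm' : lin ν (m - t • ν) < c := by
    rw [sub_eq_add_neg, ← neg_smul, lin_add, lin_smul, lin_self, hmc]
    nlinarith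
  have hsm : m - t • ν ∈ half (-ν) (-c) := by
    refine ⟨htb.2, ?_⟩
    rw [mem_ofPred_eq, lin_neg]
    linarith
  -- the chord
  set L : Set ℂ := closedBall 0 1 ∩ {z | lin ν z = c} with hL
  have hLc : IsCompact L :=
    (isCompact_closedBall _ _).inter_right (isClosed_eq (continuous_lin ν) continuous_const)
  have hΓc : IsCompact (F '' L) := hLc.image_of_continuousOn (hF.mono inter_subset_left)
  have hcase : ∀ z ∈ closedBall (0:ℂ) 1, z ∈ ball (0:ℂ) 1 ∨ ‖z‖ = 1 := by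
    intro z hz
    rw [mem_closedBall_zero_iff] at hz
    rw [mem_ball_zero_iff]
    exact lt_or_eq_of_le hz
  have hΓJ : ∀ u ∈ F '' L, u ∈ frontier D → u = w := by
    rintro _ ⟨z, hz, rfl⟩ hzf
    rcases hcase z hz.1 with hz1 | hz1
    · exact absurd (hball z hz1) (hfD _ hzf)
    · rcases chord_end hne h1 h2 hz1 hz.2 with rfl | rfl
      · rfl
      · exact he.symm
  have homit : ∀ z ∈ ball (0:ℂ) 1, F z ≠ w := fun z hz hzw => hfD w hwf (hzw ▸ hball z hz)
  have hFd : DifferentiableOn ℂ F (ball 0 1) := h.dφ.congr hE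
  -- good boundary points on both sides
  have hside : ∀ (ν' : ℂ) (c' : ℝ) (z₀ : ℂ), z₀ ∈ half ν' c' → (∀ z, c' < lin ν' z → lin ν z ≠ c) →
      ∃ C : Set ℂ, IsPreconnected C ∧ (∀ u ∈ C, u ∉ F '' L) ∧ F z₀ ∈ C ∧
        ∃ u ∈ C, u ∈ frontier D \ {w} := by
    intro ν' c' z₀ hz₀ hout
    obtain ⟨ξ₀, a1, a2⟩ := half_circle hz₀
    obtain ⟨ξ, b1, b2, b3⟩ := not_const_arc hF hFd homit
      (isOpen_lt continuous_const (continuous_lin ν') : IsOpen {z | c' < lin ν' z}) a1 a2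
    refine ⟨F '' (insert ξ (half ν' c')), ?_, ?_, ?_, ?_⟩
    · refine (half_insert hz₀ b2 b1).image _ (hF.mono ?_)
      refine insert_subset (mem_closedBall_zero_iff.2 b2.le) ?_
      exact inter_subset_left.trans ball_subset_closedBall
    · rintro _ ⟨z, hz, rfl⟩ hzΓ
      rcases hz with rfl | hz
      · exact b3 (hΓJ _ hzΓ (hS _ b2))
      · obtain ⟨z', hz', hzz⟩ := hzΓ
        rcases hcase z' hz'.1 with c1 | c1
        · rw [hE c1, hE hz.1] at hzz
          have := h.inj c1 hz.1 hzz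
          subst this
          exact hout z' hz.2 hz'.2
        · have := hS _ c1
          rw [hzz] at this
          exact hfD _ this (hball z hz.1)
    · exact ⟨z₀, mem_insert_of_mem _ hz₀, rfl⟩
    · exact ⟨F ξ, ⟨ξ, mem_insert _ _, rfl⟩, hS _ b2, b3⟩
  obtain ⟨C₁, c11, c12, c13, u₁, c14, c15⟩ := hside ν c _ hsp (fun z hz => ne_of_gt hz)
  obtain ⟨C₂, c21, c22, c23, u₂, c24, c25⟩ := hside (-ν) (-c) _ hsm (fun z hz => by
    rw [lin_neg] at hz
    exact ne_of_lt (by linarith))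
  have hlogΓ : HasLog (F '' L) (F (m + t • ν)) (F (m - t • ν)) := by
    refine HasLog.of_preconnected hΓc.isClosed
      (C := C₁ ∪ (frontier D \ {w}) ∪ C₂) ?_ ?_ ?_ ?_
    · refine IsPreconnected.union u₂ (Or.inr c25) c24 ?_ c21
      exact IsPreconnected.union u₁ c14 c15 c11 (hP w)
    · rintro u ((hu | hu) | hu)
      · exact c12 u hu
      · intro huΓ
        exact hu.2 (hΓJ u huΓ hu.1)
      · exact c22 u hu
    · exact Or.inl (Or.inl c13)
    · exact Or.inr c23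
  have hUo : IsOpen (φ '' half ν c) := h.isOpen_image hD (isOpen_half ν c) inter_subset_left
  have hUF : φ '' half ν c ⊆ F '' (closedBall 0 1 ∩ {z | c ≤ lin ν z}) := by
    rintro _ ⟨z, hz, rfl⟩
    exact ⟨z, ⟨ball_subset_closedBall hz.1, show c ≤ lin ν z from le_of_lt hz.2⟩, hE hz.1⟩
  have hUc : closure (φ '' half ν c) ⊆ F '' (closedBall 0 1 ∩ {z | c ≤ lin ν z}) := by
    refine closure_minimal hUF (IsCompact.isClosed ?_)
    refine IsCompact.image_of_continuousOn ?_ (hF.mono inter_subset_left)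
    exact (isCompact_closedBall _ _).inter_right (isClosed_le continuous_const (continuous_lin ν))
  refine sep (U := φ '' half ν c) (K₁ := frontier D) (K₂ := F '' L) (p := F (m + t • ν))
    (q := F (m - t • ν)) ?_ ?_ ?_ isClosed_frontier hΓc.isClosed ?_ ?_ ?_ hlogΓ
  · refine hb.subset ?_
    rintro _ ⟨z, hz, rfl⟩
    exact h.mφ hz.1
  · exact ⟨_, hsp, (hE hsp.1).symm⟩
  · intro hcl
    obtain ⟨z, hz, hzz⟩ := hUc hcl
    rcases hcase z hz.1 with c1 | c1
    · rw [hE c1, hE htb.2] at hzz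
      have := h.inj c1 htb.2 hzz
      subst this
      have := hz.2
      rw [mem_ofPred_eq] at this
      linarith
    · have := hS _ c1
      rw [hzz] at this
      exact hfD _ this (hball _ htb.2)
  · intro u hu
    obtain ⟨z, hz, rfl⟩ := hUc hu.1
    rcases hcase z hz.1 with c1 | c1
    · rcases lt_or_eq_of_le (show c ≤ lin ν z from hz.2) with c2 | c2
      · exfalso
        refine (disjoint_frontier_iff_isOpen.2 hUo).le_bot ⟨hu, ?_⟩
        exact ⟨z, ⟨c1, c2⟩, (hE c1).symm⟩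
      · exact Or.inr ⟨z, ⟨hz.1, c2.symm⟩, rfl⟩
    · exact Or.inl (hS _ c1)
  · refine Set.Subsingleton.isPreconnected ?_
    rintro u ⟨hu1, hu2⟩ v ⟨hv1, hv2⟩
    rw [hΓJ u hu2 hu1, hΓJ v hv2 hv1]
  · exact HasLog.of_preconnected isClosed_frontier h.preconnected
      (fun w hw hwf => hfD w hwf hw) (hball _ htb.1) (hball _ htb.2)

/-- **Caratheodory's theorem** -/
theorem RMap.extend (h : RMap D φ ψ) (hD : IsOpen D) (hb : Bornology.IsBounded D)
    (hJ : LC (frontier D)) (hP : ∀ w, IsPreconnected (frontier D \ {w})) :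
    ∃ F : ℂ → ℂ, ContinuousOn F (closedBall 0 1) ∧ InjOn F (closedBall 0 1) ∧
      EqOn F φ (ball 0 1) ∧ F '' closedBall 0 1 = closure D ∧ F '' sphere 0 1 = frontier D := by
  have hlim := fun ζ hζ => h.exists_limit hD hb hJ (ζ := ζ) hζ
  have hcl : closure (ball (0:ℂ) 1) = closedBall 0 1 := closure_ball (0:ℂ) one_ne_zero
  have hfD : ∀ w ∈ frontier D, w ∉ D := fun w hw hwD =>
    (disjoint_frontier_iff_isOpen.2 hD).le_bot ⟨hw, hwD⟩
  set F : ℂ → ℂ := extendFrom (ball 0 1) φ with hFdef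
  have hF : ContinuousOn F (closedBall 0 1) :=
    continuousOn_extendFrom (by rw [hcl]) hlim
  have hE : EqOn F φ (ball 0 1) := fun z hz => extendFrom_extends h.dφ.continuousOn z hz
  have hball : ∀ z ∈ ball (0:ℂ) 1, F z ∈ D := fun z hz => by rw [hE hz]; exact h.mφ hz
  have hFb : F '' ball 0 1 = D := by
    rw [← h.image]
    exact image_congr hE
  have hcase : ∀ z ∈ closedBall (0:ℂ) 1, z ∈ ball (0:ℂ) 1 ∨ ‖z‖ = 1 := by
    intro z hz
    rw [mem_closedBall_zero_iff] at hz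
    rw [mem_ball_zero_iff]
    exact lt_or_eq_of_le hz
  have hclosed : F '' closedBall 0 1 = closure D := by
    apply subset_antisymm
    · rw [← hFb, ← hcl]
      exact ContinuousOn.image_closure (by rw [hcl]; exact hF)
    · refine closure_minimal ?_
        ((isCompact_closedBall (0:ℂ) 1).image_of_continuousOn hF).isClosed
      rw [← hFb]
      exact image_mono ball_subset_closedBall
  have hS : ∀ ζ : ℂ, ‖ζ‖ = 1 → F ζ ∈ frontier D := by
    intro ζ hζ
    have hζc : ζ ∈ closedBall (0:ℂ) 1 := mem_closedBall_zero_iff.2 hζ.le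
    have h1 : F ζ ∈ closure D := by
      rw [← hclosed]
      exact ⟨ζ, hζc, rfl⟩
    refine ⟨h1, fun hint => ?_⟩
    have h2 : F ζ ∈ D := interior_subset hint
    have hne : (𝓝[ball (0:ℂ) 1] ζ).NeBot := by
      rw [← mem_closure_iff_nhdsWithin_neBot, hcl]
      exact hζc
    have h3 : Tendsto F (𝓝[ball (0:ℂ) 1] ζ) (𝓝 (F ζ)) := (hF ζ hζc).mono_left
      (nhdsWithin_mono _ ball_subset_closedBall)
    have h4 : Tendsto (fun z => ψ (F z)) (𝓝[ball (0:ℂ) 1] ζ) (𝓝 (ψ (F ζ))) :=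
      ((h.dψ.continuousOn.continuousAt (hD.mem_nhds h2)).tendsto).comp h3
    have h5 : Tendsto (fun z => ψ (F z)) (𝓝[ball (0:ℂ) 1] ζ) (𝓝 ζ) := by
      refine (tendsto_id.mono_left nhdsWithin_le_nhds).congr' ?_
      filter_upwards [self_mem_nhdsWithin] with z hz
      rw [hE hz, h.left z hz]
      rfl
    have h6 := tendsto_nhds_unique h4 h5
    have h7 := h.mψ h2
    rw [h6, mem_ball_zero_iff, hζ] at h7
    exact lt_irrefl _ h7
  refine ⟨F, hF, ?_, hE, hclosed, ?_⟩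
  · intro z hz z' hz' he
    rcases hcase z hz with h1 | h1 <;> rcases hcase z' hz' with h2 | h2
    · rw [hE h1, hE h2] at he
      exact h.inj h1 h2 he
    · exact absurd (hball z h1) (hfD _ (by rw [he]; exact hS z' h2))
    · exact absurd (hball z' h2) (hfD _ (by rw [← he]; exact hS z h1))
    · exact h.inj_circle hD hb hP hF hE hS h1 h2 he
  · apply subset_antisymm
    · rintro _ ⟨ζ, hζ, rfl⟩
      exact hS ζ (mem_sphere_zero_iff_norm.1 hζ)
    · intro w hw
      obtain ⟨z, hz, rfl⟩ : w ∈ F '' closedBall 0 1 := by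
        rw [hclosed]; exact frontier_subset_closure hw
      rcases hcase z hz with h1 | h1
      · exact absurd (hball z h1) (hfD _ hw)
      · exact ⟨z, mem_sphere_zero_iff_norm.2 h1, rfl⟩

end Full.Jordan
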