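import Mathlib

/-!
# The complement of a domain with connected frontier is connected
-/

set_option autoImplicit false

namespace Full.Jordan

open Set Filter Topology

/-- a segment from a point outside of `D` to a point of `D` meets the frontier, and the piece before
the first meeting point is outside of `D` -/
lemma exists_seg {D : Set ℂ} (hD : IsOpen D) {x c : ℂ} (hx : x ∉ D) (hc : c ∈ D) :
    ∃ S : Set ℂ, IsPreconnected S ∧ S ⊆ Dᶜ ∧ x ∈ S ∧ (S ∩ frontier D).Nonempty := by
  set γ : ℝ → ℂ := fun t => x + t * (c - x) with hγ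
  have hγc : Continuous γ := by rw [hγ]; fun_prop
  have h1 : γ 0 = x := by simp [hγ]
  have h2 : γ 1 = c := by simp [hγ]
  set T : Set ℝ := {t | t ∈ Icc (0 : ℝ) 1 ∧ γ t ∈ closure D} with hT
  have hTc : IsCompact T := by
    have : T = Icc (0 : ℝ) 1 ∩ γ ⁻¹' closure D := rfl
    rw [this]
    exact isCompact_Icc.inter_right (isClosed_closure.preimage hγc)
  have hTn : T.Nonempty := ⟨1, ⟨zero_le_one, le_rfl⟩, by
    show γ 1 ∈ closure D
    rw [h2]; exact subset_closure hc⟩
  obtain ⟨t0, ht0, hmin⟩ := hTc.exists_isLeast hTn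
  have hout : ∀ t, 0 ≤ t → t < t0 → γ t ∉ closure D := by
    intro t h3 h4 h5
    have : t0 ≤ t := hmin ⟨⟨h3, h4.le.trans ht0.1.2⟩, h5⟩
    exact absurd h4 (not_lt.2 this)
  have ht0D : γ t0 ∉ D := by
    intro h3
    rcases eq_or_lt_of_le ht0.1.1 with h4 | h4
    · rw [← h4, h1] at h3
      exact hx h3
    · have h5 : γ ⁻¹' D ∈ 𝓝 t0 := hγc.continuousAt.preimage_mem_nhds (hD.mem_nhds h3)
      obtain ⟨ε, hε, hb⟩ := Metric.mem_nhds_iff.1 h5
      have h6 : max 0 (t0 - ε / 2) ∈ Metric.ball t0 ε := by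
        rw [Metric.mem_ball, Real.dist_eq, abs_lt]
        constructor
        · have := le_max_right 0 (t0 - ε / 2)
          linarith
        · have : max 0 (t0 - ε / 2) < t0 := max_lt h4 (by linarith)
          linarith
      exact hout _ (le_max_left _ _) (max_lt h4 (by linarith)) (subset_closure (hb h6))
  refine ⟨γ '' Icc 0 t0, isPreconnected_Icc.image γ hγc.continuousOn, ?_, ?_, ?_⟩
  · rintro _ ⟨t, ht, rfl⟩ h3
    rcases eq_or_lt_of_le ht.2 with h4 | h4
    · rw [h4] at h3
      exact ht0D h3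
    · exact hout t ht.1 h4 (subset_closure h3)
  · exact ⟨0, ⟨le_rfl, ht0.1.1⟩, h1⟩
  · refine ⟨γ t0, ⟨t0, ⟨ht0.1.1, le_rfl⟩, rfl⟩, ht0.2, ?_⟩
    rw [hD.interior_eq]
    exact ht0D

/-- the complement of an open set with connected frontier is connected -/
theorem isPreconnected_compl {D : Set ℂ} (hD : IsOpen D) (hf : IsPreconnected (frontier D)) :
    IsPreconnected Dᶜ := by
  rcases D.eq_empty_or_nonempty with rfl | ⟨c, hc⟩
  · rw [compl_empty]
    exact isPreconnected_univ
  rcases (frontier D).eq_empty_or_nonempty with h0 | ⟨p, hp⟩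
  · have h1 : Dᶜ = ∅ := by
      rw [Set.eq_empty_iff_forall_notMem]
      intro x hx
      obtain ⟨S, -, -, -, ⟨y, hy⟩⟩ := exists_seg hD hx hc
      rw [h0] at hy
      exact hy.2
    rw [h1]
    exact isPreconnected_empty
  have hfD : frontier D ⊆ Dᶜ := fun x hx h => hx.2 (by rwa [hD.interior_eq])
  refine isPreconnected_of_forall p fun x hx => ?_
  obtain ⟨S, hS1, hS2, hS3, ⟨y, hy⟩⟩ := exists_seg hD hx hc
  exact ⟨S ∪ frontier D, union_subset hS2 hfD, Or.inr hp, Or.inl hS3,
    hS1.union y hy.1 hy.2 hf⟩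

/-- the complement of a domain whose frontier is a closed curve is connected -/
theorem isPreconnected_compl_of_curve {D : Set ℂ} (hD : IsOpen D) {γ : Circle → ℂ}
    (hγ : Continuous γ) (hf : frontier D = range γ) : IsPreconnected Dᶜ := by
  refine isPreconnected_compl hD ?_
  have h1 : Function.Surjective (Circle.exp : ℝ → Circle) := by
    intro z
    obtain ⟨t, ht⟩ := Circle.surjOn_exp_neg_pi_pi (mem_univ z)
    exact ⟨t, ht.2⟩
  have h2 : range γ = range (γ ∘ Circle.exp) := (h1.range_comp γ).symm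
  rw [hf, h2]
  exact isPreconnected_range (hγ.comp Circle.exp.continuous)

end Full.Jordan
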