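import Pool.Agent.Full.Jordan.Extend

/-!
# Jordan curves are locally connected and have no cut point
-/

set_option autoImplicit false

open Set Filter Topology Metric

namespace Full.Jordan

lemma punctured {γ : Circle → ℂ} (hγ : Continuous γ) (hi : Function.Injective γ) (w : ℂ) :
    IsPreconnected (range γ \ {w}) := by
  by_cases hw : w ∈ range γ
  · obtain ⟨u, rfl⟩ := hw
    have h1 : range γ \ {γ u} = γ '' {u}ᶜ := by
      ext y
      constructor
      · rintro ⟨⟨v, rfl⟩, hv⟩
        exact ⟨v, fun h => hv (by rw [mem_singleton_iff.1 h]; rfl), rfl⟩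
      · rintro ⟨v, hv, rfl⟩
        exact ⟨⟨v, rfl⟩, fun h => hv (hi h)⟩
    rw [h1]
    exact (Circle.isPathConnected_compl_singleton u).isConnected.isPreconnected.image _
      hγ.continuousOn
  · rw [sdiff_singleton_eq_self hw]
    exact isPreconnected_range hγ

lemma dist_mul_left (u v v' : Circle) : dist (u * v) (u * v') = dist v v' := by
  have h : ∀ a b : Circle, dist a b = ‖(a : ℂ) - b‖ := fun a b => dist_eq_norm (a : ℂ) b
  rw [h, h, Circle.coe_mul, Circle.coe_mul, ← mul_sub, norm_mul, Circle.norm_coe, one_mul]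

lemma lc_curve {γ : Circle → ℂ} (hγ : Continuous γ) (hi : Function.Injective γ) :
    LC (range γ) := by
  intro ε hε
  -- modulus of continuity
  obtain ⟨η, hη, hη2⟩ := Metric.uniformContinuous_iff.1
    (CompactSpace.uniformContinuous_of_continuous hγ) ε hε
  obtain ⟨t₀, ht₀, ht₁⟩ : ∃ t₀ > 0, ∀ t : ℝ, |t| ≤ t₀ → dist (Circle.exp t) 1 < η := by
    have h1 : Tendsto (fun t : ℝ => dist (Circle.exp t) 1) (𝓝 0) (𝓝 0) := by
      have : Continuous (fun t : ℝ => dist (Circle.exp t) 1) := by fun_prop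
      have h2 := this.tendsto 0
      rwa [Circle.exp_zero, dist_self] at h2
    obtain ⟨s, hs, hs2⟩ := Metric.eventually_nhds_iff.1 (h1.eventually (gt_mem_nhds hη))
    refine ⟨s / 2, half_pos hs, fun t ht => hs2 ?_⟩
    rw [Real.dist_eq, sub_zero]
    linarith
  obtain ⟨r, hr, hr2⟩ : ∃ r > 0, ∀ v : Circle, dist v 1 < r → |Complex.arg v| ≤ t₀ := by
    have h1 : ContinuousAt (fun v : Circle => |Complex.arg v|) 1 := by
      have h2 : ContinuousAt Complex.arg ((1 : Circle) : ℂ) :=
        Complex.continuousAt_arg (by simp)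
      exact (h2.comp (f := fun v : Circle => (v : ℂ)) continuous_subtype_val.continuousAt).abs
    have h2 : ∀ᶠ v : Circle in 𝓝 1, |Complex.arg v| < t₀ := by
      have h3 : Tendsto (fun v : Circle => |Complex.arg v|) (𝓝 1) (𝓝 |Complex.arg (1 : Circle)|) := h1
      rw [Circle.coe_one, Complex.arg_one, abs_zero] at h3
      exact h3.eventually (gt_mem_nhds ht₀)
    obtain ⟨s, hs, hs2⟩ := Metric.eventually_nhds_iff.1 h2
    exact ⟨s, hs, fun v hv => (hs2 hv).le⟩
  have hcp : IsCompact {p : Circle × Circle | r ≤ dist p.1 p.2} :=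
    (isClosed_le continuous_const (by fun_prop)).isCompact
  obtain ⟨a, ha, ha2⟩ := hcp.exists_forall_le' (f := fun p => dist (γ p.1) (γ p.2)) (a := 0)
    (by fun_prop) (by
      rintro ⟨u, v⟩ huv
      refine dist_pos.2 fun h => ?_
      have h1 : u = v := hi h
      simp only [mem_ofPred_eq] at huv
      rw [h1, dist_self] at huv
      linarith)
  refine ⟨a / 2, half_pos ha, ?_⟩
  rintro _ ⟨u, rfl⟩
  have hc : Continuous (fun t : ℝ => γ (u * Circle.exp t)) := by fun_prop
  refine ⟨(fun t : ℝ => γ (u * Circle.exp t)) '' Icc (-t₀) t₀, ?_, ?_, ?_, ?_⟩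
  · exact (isCompact_Icc.image hc).isClosed
  · exact isPreconnected_Icc.image _ hc.continuousOn
  · rintro _ ⟨⟨v, rfl⟩, hv⟩
    have h1 : dist v u < r := by
      by_contra hcon
      push Not at hcon
      have := ha2 (v, u) hcon
      rw [mem_closedBall] at hv
      simp only at this
      linarith
    have h2 : dist (u⁻¹ * v) 1 < r := by
      rwa [← dist_mul_left u, mul_one, mul_inv_cancel_left]
    have h3 := hr2 _ h2
    refine ⟨Complex.arg (u⁻¹ * v : Circle), abs_le.1 h3, ?_⟩
    simp only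
    rw [Circle.exp_arg, mul_inv_cancel_left]
  · rintro _ ⟨t, ht, rfl⟩
    refine ⟨⟨_, rfl⟩, ?_⟩
    rw [mem_closedBall]
    refine (hη2 ?_).le
    have := dist_mul_left u (Circle.exp t) 1
    rw [mul_one] at this
    rw [this]
    exact ht₁ t (abs_le.2 ht)

end Full.Jordan
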