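import Pool.Agent.Full.Jordan.Normal

/-!
# The Riemann mapping theorem for bounded domains with connected complement
-/

set_option autoImplicit false

open Set Filter Topology Complex Metric
open scoped ComplexConjugate

namespace Full.Jor

/-- Moebius transformation of the unit disc with `w ↦ 0` -/
noncomputable def mob (w z : ℂ) : ℂ := (z - w) / (1 - conj w * z)

lemma mob_den {w z : ℂ} (hw : ‖w‖ < 1) (hz : ‖z‖ < 1) : 1 - conj w * z ≠ 0 := by
  intro h
  have h1 : conj w * z = 1 := by linear_combination -h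
  have h2 : ‖conj w * z‖ < 1 := by
    rw [norm_mul, RCLike.norm_conj]
    nlinarith [norm_nonneg w, norm_nonneg z]
  rw [h1, norm_one] at h2
  exact lt_irrefl _ h2

lemma mob_norm {w z : ℂ} (hw : ‖w‖ < 1) (hz : ‖z‖ < 1) : ‖mob w z‖ < 1 := by
  unfold mob
  rw [norm_div, div_lt_one (norm_pos_iff.2 (mob_den hw hz))]
  have h1 : ‖1 - conj w * z‖ ^ 2 - ‖z - w‖ ^ 2 = (1 - ‖w‖ ^ 2) * (1 - ‖z‖ ^ 2) := by
    simp only [Complex.sq_norm, normSq_apply, sub_re, sub_im, mul_re, mul_im, one_re, one_im, conj_re, conj_im]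
    ring
  have h2 : 0 < (1 - ‖w‖ ^ 2) * (1 - ‖z‖ ^ 2) := by
    apply mul_pos <;> nlinarith [norm_nonneg w, norm_nonneg z]
  have h3 : ‖z - w‖ ^ 2 < ‖1 - conj w * z‖ ^ 2 := by linarith
  exact lt_of_pow_lt_pow_left₀ 2 (norm_nonneg _) h3

lemma mob_inj {w z z' : ℂ} (hw : ‖w‖ < 1) (hz : ‖z‖ < 1) (hz' : ‖z'‖ < 1) (h : mob w z = mob w z') :
    z = z' := by
  unfold mob at h
  rw [div_eq_div_iff (mob_den hw hz) (mob_den hw hz')] at h
  have h1 : (z - z') * (1 - conj w * w) = 0 := by linear_combination h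
  rcases mul_eq_zero.1 h1 with h2 | h2
  · exact sub_eq_zero.1 h2
  · exact absurd h2 (mob_den hw hw)

lemma mob_deriv {w z : ℂ} (hw : ‖w‖ < 1) (hz : ‖z‖ < 1) :
    HasDerivAt (mob w) ((1 - conj w * w) / (1 - conj w * z) ^ 2) z := by
  have h1 : HasDerivAt (fun z : ℂ => z - w) 1 z := (hasDerivAt_id z).sub_const w
  have h2 : HasDerivAt (fun z : ℂ => 1 - conj w * z) (-(conj w * 1)) z :=
    ((hasDerivAt_id z).const_mul (conj w)).const_sub 1
  have h3 := h1.div h2 (mob_den hw hz)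
  have h4 : (1 * (1 - conj w * z) - (z - w) * -(conj w * 1)) / (1 - conj w * z) ^ 2 =
      (1 - conj w * w) / (1 - conj w * z) ^ 2 := by
    congr 1
    ring
  rw [h4] at h3
  exact h3

/-- the competitors in the extremal problem -/
def Fam (D : Set ℂ) (z0 : ℂ) : Set (ℂ → ℂ) :=
  {f | DifferentiableOn ℂ f D ∧ InjOn f D ∧ MapsTo f D (ball 0 1) ∧ f z0 = 0}

/-- Koebe's trick: a competitor which is not onto can be improved -/
lemma koebe {D : Set ℂ} (hD : IsOpen D)
    (hroot : ∀ f : ℂ → ℂ, ContinuousOn f D → (∀ z ∈ D, f z ≠ 0) → HasRoot D f) {z0 : ℂ} (hz0 : z0 ∈ D)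
    {F : ℂ → ℂ} (hF : F ∈ Fam D z0) (hd : deriv F z0 ≠ 0) {w : ℂ} (hw : ‖w‖ < 1) (hwF : w ∉ F '' D) :
    ∃ G ∈ Fam D z0, ‖deriv F z0‖ < ‖deriv G z0‖ := by
  obtain ⟨h1, h2, h3, h4⟩ := hF
  have hFn : ∀ z ∈ D, ‖F z‖ < 1 := fun z hz => mem_ball_zero_iff.1 (h3 hz)
  have hw0 : w ≠ 0 := by
    rintro rfl; exact hwF ⟨z0, hz0, h4⟩
  set g : ℂ → ℂ := fun z => mob w (F z) with hg
  have hgd : DifferentiableOn ℂ g D := fun z hz =>
    ((mob_deriv hw (hFn z hz)).differentiableAt.comp z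
      (h1.differentiableAt (hD.mem_nhds hz))).differentiableWithinAt
  have hg0 : ∀ z ∈ D, g z ≠ 0 := by
    intro z hz h
    rw [hg] at h
    simp only [mob, div_eq_zero_iff, sub_eq_zero] at h
    rcases h with h | h
    · exact hwF ⟨z, hz, h⟩
    · exact mob_den hw (hFn z hz) (sub_eq_zero.2 h)
  obtain ⟨s, hs1, hs2⟩ := hroot g hgd.continuousOn hg0
  obtain ⟨hs3, hs4⟩ := differentiableOn_root hD hgd hs1 hs2 hg0
  have hsn : ∀ z ∈ D, ‖s z‖ < 1 := by
    intro z hz
    have h5 := mob_norm hw (hFn z hz)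
    have h6 : ‖s z‖ ^ 2 < 1 := by
      rw [← norm_pow, hs2 z hz]; exact h5
    nlinarith [norm_nonneg (s z)]
  set b : ℂ := s z0 with hb
  have hbn : ‖b‖ < 1 := hsn z0 hz0
  have hb2 : b ^ 2 = -w := by
    rw [hb, hs2 z0 hz0, hg]
    simp only [mob, h4]
    simp
  have hb0 : b ≠ 0 := by
    intro h
    rw [h] at hb2
    apply hw0
    linear_combination hb2
  have hbw : ‖b‖ ^ 2 = ‖w‖ := by rw [← norm_pow, hb2, norm_neg]
  refine ⟨fun z => mob b (s z), ⟨?_, ?_, ?_, ?_⟩, ?_⟩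
  · exact fun z hz => ((mob_deriv hbn (hsn z hz)).differentiableAt.comp z
      (hs3.differentiableAt (hD.mem_nhds hz))).differentiableWithinAt
  · intro z hz z' hz' h
    have h5 : s z = s z' := mob_inj hbn (hsn z hz) (hsn z' hz') h
    have h6 : g z = g z' := by rw [← hs2 z hz, ← hs2 z' hz', h5]
    exact h2 hz hz' (mob_inj hw (hFn z hz) (hFn z' hz') h6)
  · intro z hz
    exact mem_ball_zero_iff.2 (mob_norm hbn (hsn z hz))
  · simp only [mob, ← hb, sub_self, zero_div]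
  · -- the derivative
    have hdg : deriv g z0 = (1 - conj w * w) * deriv F z0 := by
      have h5 : HasDerivAt g ((1 - conj w * w) / (1 - conj w * F z0) ^ 2 * deriv F z0) z0 :=
        (mob_deriv hw (hFn z0 hz0)).comp z0 (h1.differentiableAt (hD.mem_nhds hz0)).hasDerivAt
      rw [h5.deriv, h4, mul_zero, sub_zero, one_pow, div_one]
    have hds : deriv s z0 = (1 - conj w * w) * deriv F z0 / (2 * b) := by
      rw [hs4 z0 hz0, hdg]
    have hdG : deriv (fun z => mob b (s z)) z0 = (1 - conj b * b)⁻¹ * deriv s z0 := by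
      have h5 : HasDerivAt (fun z => mob b (s z))
          ((1 - conj b * b) / (1 - conj b * s z0) ^ 2 * deriv s z0) z0 :=
        (mob_deriv hbn (hsn z0 hz0)).comp z0 (hs3.differentiableAt (hD.mem_nhds hz0)).hasDerivAt
      rw [h5.deriv, ← hb]
      have h6 := mob_den hbn hbn
      congr 1
      field_simp
    have hcw : conj w * w = ((‖w‖ ^ 2 : ℝ) : ℂ) := by
      rw [mul_comm, mul_conj, normSq_eq_norm_sq]
    have hcb : conj b * b = ((‖b‖ ^ 2 : ℝ) : ℂ) := by
      rw [mul_comm, mul_conj, normSq_eq_norm_sq]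
    rw [hdG, hds, hcw, hcb, hbw]
    set x : ℝ := ‖b‖ with hx
    have hx0 : 0 < x := norm_pos_iff.2 hb0
    have hx1 : x < 1 := hbn
    have e1 : ‖w‖ = x ^ 2 := hbw.symm
    rw [e1]
    have e2 : ‖(1 - ((x ^ 2 : ℝ) : ℂ))⁻¹‖ = (1 - x ^ 2)⁻¹ := by
      have : (1 - ((x ^ 2 : ℝ) : ℂ)) = ((1 - x ^ 2 : ℝ) : ℂ) := by push_cast; ring
      rw [this, norm_inv, norm_real, Real.norm_eq_abs, abs_of_pos (by nlinarith)]
    have e3 : ‖(1 - (((x ^ 2) ^ 2 : ℝ) : ℂ))‖ = 1 - x ^ 4 := by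
      have : (1 - (((x ^ 2) ^ 2 : ℝ) : ℂ)) = ((1 - x ^ 4 : ℝ) : ℂ) := by push_cast; ring
      rw [this, norm_real, Real.norm_eq_abs, abs_of_pos]
      nlinarith [mul_pos hx0 hx0]
    rw [norm_mul, e2, norm_div, norm_mul, e3, norm_mul, ← hx]
    have e4 : ‖(2 : ℂ)‖ = 2 := by simp
    rw [e4]
    set y : ℝ := ‖deriv F z0‖ with hy
    have hy0 : 0 < y := norm_pos_iff.2 hd
    have e5 : (1 - x ^ 2)⁻¹ * ((1 - x ^ 4) * y / (2 * x)) = y * ((1 + x ^ 2) / (2 * x)) := by
      have : 1 - x ^ 2 ≠ 0 := by nlinarith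
      field_simp
      ring
    rw [e5]
    have e6 : 1 < (1 + x ^ 2) / (2 * x) := by
      rw [lt_div_iff₀ (by positivity)]
      nlinarith [mul_pos (sub_pos.2 hx1) (sub_pos.2 hx1)]
    nlinarith

/-- **Riemann mapping theorem**, bounded domains with connected complement -/
theorem riemann {D : Set ℂ} (hD : IsOpen D) (hDc : IsConnected D) (hb : Bornology.IsBounded D)
    (hc : IsPreconnected Dᶜ) {z0 : ℂ} (hz0 : z0 ∈ D) :
    ∃ F : ℂ → ℂ, DifferentiableOn ℂ F D ∧ InjOn F D ∧ F '' D = ball 0 1 ∧ F z0 = 0 := by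
  have hroot : ∀ f : ℂ → ℂ, ContinuousOn f D → (∀ z ∈ D, f z ≠ 0) → HasRoot D f :=
    fun f hf h0 => root_domain hD hDc hb hc hf h0
  obtain ⟨r, hr, hr2⟩ := Metric.isOpen_iff.1 hD z0 hz0
  -- a competitor
  obtain ⟨R, hR⟩ := hb.subset_closedBall (0 : ℂ)
  have hR0 : 0 ≤ R := (norm_nonneg z0).trans (mem_closedBall_zero_iff.1 (hR hz0))
  have hM0 : (0 : ℝ) < 2 * R + 1 := by linarith
  have hMC : ((2 * R + 1 : ℝ) : ℂ) ≠ 0 := ofReal_ne_zero.2 hM0.ne'
  have hf0 : (fun z => (z - z0) / ((2 * R + 1 : ℝ) : ℂ)) ∈ Fam D z0 := by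
    refine ⟨?_, ?_, ?_, ?_⟩
    · exact ((differentiable_id.sub_const z0).div_const _).differentiableOn
    · intro a _ b _ h
      simp only at h
      rw [div_left_inj' hMC, sub_left_inj] at h
      exact h
    · intro z hz
      rw [mem_ball_zero_iff, norm_div, norm_real, Real.norm_eq_abs, abs_of_pos hM0, div_lt_one hM0]
      have h1 := mem_closedBall_zero_iff.1 (hR hz)
      have h2 := mem_closedBall_zero_iff.1 (hR hz0)
      have h3 := norm_sub_le z z0
      linarith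
    · simp
  have hd0 : deriv (fun z => (z - z0) / ((2 * R + 1 : ℝ) : ℂ)) z0 ≠ 0 := by
    have h1 : HasDerivAt (fun z => (z - z0) / ((2 * R + 1 : ℝ) : ℂ)) (1 / ((2 * R + 1 : ℝ) : ℂ)) z0 :=
      ((hasDerivAt_id z0).sub_const z0).div_const _
    rw [h1.deriv]
    exact div_ne_zero one_ne_zero hMC
  -- boundedness of the derivatives
  set S : Set ℝ := (fun f => ‖deriv f z0‖) '' Fam D z0 with hS
  have hbound : ∀ f ∈ Fam D z0, ‖deriv f z0‖ ≤ 1 / r := by
    intro f hf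
    refine norm_deriv_le_div_of_mapsTo_ball (hf.1.mono hr2) ?_ hr
    intro z hz
    rw [hf.2.2.2]
    exact ball_subset_closedBall (hf.2.2.1 (hr2 hz))
  have hSb : BddAbove S := ⟨1 / r, by rintro _ ⟨f, hf, rfl⟩; exact hbound f hf⟩
  have hSn : S.Nonempty := ⟨_, mem_image_of_mem _ hf0⟩
  obtain ⟨u, -, hu2, hu3⟩ := exists_seq_tendsto_sSup hSn hSb
  choose f hf hfu using hu3
  -- ultrafilter limit
  set U : Ultrafilter ℕ := Ultrafilter.of atTop with hU
  have hUle : (U : Filter ℕ) ≤ atTop := Ultrafilter.of_le _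
  have hlim' : ∀ z, ∃ w : ℂ, z ∈ D → w ∈ closedBall (0 : ℂ) 1 ∧ Tendsto (fun n => f n z) U (𝓝 w) := by
    intro z
    by_cases hz : z ∈ D
    · have h1 : closedBall (0 : ℂ) 1 ∈ U.map (fun n => f n z) := by
        rw [Ultrafilter.mem_map]
        exact Filter.univ_mem' fun n => ball_subset_closedBall ((hf n).2.2.1 hz)
      obtain ⟨w, hw1, hw2⟩ := (isCompact_closedBall (0 : ℂ) 1).ultrafilter_le_nhds' _ h1
      exact ⟨w, fun _ => ⟨hw1, hw2⟩⟩
    · exact ⟨0, fun h => absurd h hz⟩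
  choose F hF using hlim'
  have hloc : TendstoLocallyUniformlyOn f F U D :=
    locUnif_of_pointwise hD (fun n => (hf n).1)
      (fun n z hz => ball_subset_closedBall ((hf n).2.2.1 hz)) (fun z hz => (hF z hz).2)
  have hFd : DifferentiableOn ℂ F D :=
    hloc.differentiableOn (Eventually.of_forall fun n => (hf n).1) hD
  have hder : Tendsto (fun n => deriv (f n) z0) U (𝓝 (deriv F z0)) :=
    (hloc.deriv (Eventually.of_forall fun n => (hf n).1) hD).tendsto_at hz0
  have hsup : ‖deriv F z0‖ = sSup S := by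
    refine tendsto_nhds_unique hder.norm ?_
    have h1 : (fun n => ‖deriv (f n) z0‖) = u := funext fun n => hfu n
    rw [h1]
    exact hu2.mono_left hUle
  have hdF : deriv F z0 ≠ 0 := by
    rw [← norm_pos_iff, hsup]
    exact lt_of_lt_of_le (norm_pos_iff.2 hd0) (le_csSup hSb (mem_image_of_mem _ hf0))
  have hinj : InjOn F D := hurwitz hD hDc.isPreconnected (fun n => (hf n).1) (fun n => (hf n).2.1)
    hloc hFd hz0 hdF
  have hF0 : F z0 = 0 := by
    refine tendsto_nhds_unique (hF z0 hz0).2 ?_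
    have h1 : (fun n => f n z0) = fun _ => (0 : ℂ) := funext fun n => (hf n).2.2.2
    rw [h1]
    exact tendsto_const_nhds
  have hAn : AnalyticOnNhd ℂ F D := hFd.analyticOnNhd hD
  have hopen : IsOpen (F '' D) := by
    rcases hAn.is_constant_or_isOpen hDc.isPreconnected with ⟨w, hw⟩ | h
    · exfalso
      apply hdF
      have h3 : F =ᶠ[𝓝 z0] fun _ => w := by
        filter_upwards [hD.mem_nhds hz0] with z hz
        exact hw z hz
      rw [h3.deriv_eq, deriv_const]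
    · exact h D subset_rfl hD
  have hmaps : F '' D ⊆ ball 0 1 := by
    have h1 : F '' D ⊆ closedBall 0 1 := by
      rintro _ ⟨z, hz, rfl⟩; exact (hF z hz).1
    have h2 : F '' D ⊆ interior (closedBall 0 1) := interior_maximal h1 hopen
    rwa [interior_closedBall (0 : ℂ) one_ne_zero] at h2
  have hFam : F ∈ Fam D z0 := ⟨hFd, hinj, fun z hz => hmaps (mem_image_of_mem F hz), hF0⟩
  refine ⟨F, hFd, hinj, Subset.antisymm hmaps ?_, hF0⟩
  intro w hw
  by_contra hwF
  obtain ⟨G, hG, hlt⟩ := koebe hD hroot hz0 hFam hdF (mem_ball_zero_iff.1 hw) hwF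
  rw [hsup] at hlt
  exact absurd (le_csSup hSb (mem_image_of_mem _ hG)) (not_le.2 hlt)

/-- the inverse of the Riemann map -/
theorem riemann_inverse {D : Set ℂ} (hD : IsOpen D) (hDc : IsConnected D) (hb : Bornology.IsBounded D)
    (hc : IsPreconnected Dᶜ) :
    ∃ φ : ℂ → ℂ, DifferentiableOn ℂ φ (ball 0 1) ∧ InjOn φ (ball 0 1) ∧ φ '' ball 0 1 = D := by
  obtain ⟨z0, hz0⟩ := hDc.nonempty
  obtain ⟨F, hF1, hF2, hF3, hF4⟩ := riemann hD hDc hb hc hz0
  have hinv : ∀ z ∈ D, Function.invFunOn F D (F z) = z := fun z hz => hF2.leftInvOn_invFunOn hz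
  have hnt : D.Nontrivial := by
    obtain ⟨r, hr, hr2⟩ := Metric.isOpen_iff.1 hD z0 hz0
    refine ⟨z0, hz0, z0 + r / 2, hr2 ?_, ?_⟩
    · rw [mem_ball, dist_eq_norm, add_sub_cancel_left, norm_div, norm_real, Real.norm_eq_abs,
        abs_of_pos hr]
      norm_num
      exact hr
    · intro h
      have h7 : (r : ℂ) / 2 = 0 := by linear_combination -h
      have h8 : (r : ℂ) = 0 := by linear_combination 2 * h7
      exact hr.ne' (ofReal_eq_zero.1 h8)
  have h1 := differentiableOn_inverse hD hDc.isPreconnected hF1 hF2 hnt hinv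
  rw [hF3] at h1
  refine ⟨Function.invFunOn F D, h1.2, ?_, ?_⟩
  · intro a ha b hb h
    rw [← hF3] at ha hb
    obtain ⟨x, hx, rfl⟩ := ha
    obtain ⟨y, hy, rfl⟩ := hb
    rw [hinv x hx, hinv y hy] at h
    rw [h]
  · ext z
    constructor
    · rintro ⟨w, hw, rfl⟩
      rw [← hF3] at hw
      obtain ⟨x, hx, rfl⟩ := hw
      rw [hinv x hx]
      exact hx
    · intro hz
      refine ⟨F z, ?_, hinv z hz⟩
      rw [← hF3]
      exact mem_image_of_mem F hz

end Full.Jor
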