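import Pool.Agent.Full.Stmt
import Pool.Agent.Full.Jordan.Carath
import Pool.Agent.Full.Jordan.Curve
import Pool.Agent.Full.Jordan.Compl
import Pool.Agent.Full.Jordan.Riemann

/-!
# Closed Jordan domains are closed discs
-/

set_option autoImplicit false

open Set Filter Topology Metric

namespace Full.Jordan

/-- Riemann and Caratheodory: the closure of a domain bounded by a Jordan curve is the homeomorphic
image of the closed unit disc, by a map which is holomorphic in the open disc -/
theorem exists_disc {D : Set ℂ} (hD : IsOpen D) (hb : Bornology.IsBounded D) (hc : IsConnected D)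
    (hγ : ∃ γ : Circle → ℂ, Continuous γ ∧ Function.Injective γ ∧ frontier D = range γ) :
    ∃ F : ℂ → ℂ, ContinuousOn F (closedBall 0 1) ∧ InjOn F (closedBall 0 1) ∧
      DifferentiableOn ℂ F (ball 0 1) ∧ F '' ball 0 1 = D ∧ F '' closedBall 0 1 = closure D ∧
      F '' sphere 0 1 = frontier D := by
  obtain ⟨γ, h1, h2, h3⟩ := hγ
  have hcompl : IsPreconnected Dᶜ := isPreconnected_compl_of_curve hD h1 h3
  obtain ⟨φ, hφ1, hφ2, hφ3⟩ := Jor.riemann_inverse hD hc hb hcompl
  have hnt : (ball (0:ℂ) 1).Nontrivial := by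
    refine ⟨0, mem_ball_self one_pos, 1/2, ?_, by norm_num⟩
    rw [mem_ball_zero_iff]
    norm_num
  have hinv : ∀ z ∈ ball (0:ℂ) 1, Function.invFunOn φ (ball 0 1) (φ z) = z :=
    fun z hz => hφ2.leftInvOn_invFunOn hz
  have hd := Jor.differentiableOn_inverse isOpen_ball (convex_ball (0:ℂ) 1).isPreconnected hφ1 hφ2
    hnt hinv
  have hR : RMap D φ (Function.invFunOn φ (ball 0 1)) := by
    refine ⟨hφ1, hφ3 ▸ hd.2, ?_, ?_, hinv, ?_⟩
    · intro z hz
      rw [← hφ3]
      exact mem_image_of_mem _ hz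
    · intro w hw
      rw [← hφ3] at hw
      obtain ⟨z, hz, rfl⟩ := hw
      rw [hinv z hz]
      exact hz
    · intro w hw
      rw [← hφ3] at hw
      obtain ⟨z, hz, rfl⟩ := hw
      rw [hinv z hz]
  have hJ : LC (frontier D) := by rw [h3]; exact lc_curve h1 h2
  have hP : ∀ w, IsPreconnected (frontier D \ {w}) := by
    intro w; rw [h3]; exact punctured h1 h2 w
  obtain ⟨F, a1, a2, a3, a4, a5⟩ := hR.extend hD hb hJ hP
  exact ⟨F, a1, a2, hφ1.congr a3, by rw [image_congr a3, hφ3], a4, a5⟩

end Full.Jordan
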