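import Mathlib

/-!
# Two disjoint arcs of the circle, and homeomorphisms of the circle with prescribed arcs
-/

set_option autoImplicit false

open Set Filter Topology Metric

namespace Full.Jordan

lemma exists_Icc {S : Set Circle} (hS : IsClosed S) (hSp : IsPreconnected S) (hSn : S.Nontrivial)
    {G : Circle → ℝ} (hG : ContinuousOn G S) (hinv : ∀ v ∈ S, Circle.exp (G v) = v) :
    ∃ a b : ℝ, a < b ∧ G '' S = Icc a b ∧ S = Circle.exp '' Icc a b := by
  have h1 := eq_Icc_of_connected_compact ⟨hSn.nonempty.image G, hSp.image G hG⟩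
    (hS.isCompact.image_of_continuousOn hG)
  refine ⟨_, _, ?_, h1, ?_⟩
  · obtain ⟨u, hu, v, hv, huv⟩ := hSn
    have hu' : G u ∈ Icc (sInf (G '' S)) (sSup (G '' S)) := h1 ▸ mem_image_of_mem G hu
    have hv' : G v ∈ Icc (sInf (G '' S)) (sSup (G '' S)) := h1 ▸ mem_image_of_mem G hv
    by_contra hlt
    push Not at hlt
    apply huv
    rw [← hinv u hu, ← hinv v hv]
    congr 1
    linarith [hu'.1, hu'.2, hv'.1, hv'.2]
  · rw [← h1, image_image]
    ext v
    constructor
    · intro hv; exact ⟨v, hv, hinv v hv⟩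
    · rintro ⟨u, hu, rfl⟩
      simp only
      rw [hinv u hu]; exact hu

/-- two disjoint arcs of the circle in cyclic order -/
theorem exists_arcs {A B : Set Circle} (hA : IsClosed A) (hAp : IsPreconnected A)
    (hAn : A.Nontrivial) (hB : IsClosed B) (hBp : IsPreconnected B) (hBn : B.Nontrivial)
    (hd : Disjoint A B) : ∃ b₁ b₂ a₁ a₂ : ℝ, b₁ < b₂ ∧ b₂ < a₁ ∧ a₁ < a₂ ∧
      a₂ < b₁ + 2 * Real.pi ∧ A = Circle.exp '' Icc a₁ a₂ ∧ B = Circle.exp '' Icc b₁ b₂ := by
  obtain ⟨p, hpA, hpB⟩ : ∃ p, p ∉ A ∧ p ∉ B := by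
    by_contra hcon
    push Not at hcon
    obtain ⟨v, -, hv⟩ := isPreconnected_closed_iff.1 (isPreconnected_univ (α := Circle)) A B hA hB
      (fun v _ => by
        by_cases h : v ∈ A
        · exact Or.inl h
        · exact Or.inr (hcon v h))
      (by simpa using hAn.nonempty) (by simpa using hBn.nonempty)
    exact hd.le_bot hv
  set θ := Complex.arg ((-p : Circle) : ℂ) with hθ
  have hexpθ : Circle.exp θ = -p := Circle.exp_arg _
  set G : Circle → ℝ := fun v => Complex.arg ((v / -p : Circle) : ℂ) + θ with hG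
  have hinv : ∀ v, Circle.exp (G v) = v := by
    intro v
    rw [hG]
    simp only
    rw [Circle.exp_add, Circle.exp_arg, hexpθ, div_mul_cancel]
  have hne : ∀ v, v ≠ p → ((v / -p : Circle) : ℂ) ∈ Complex.slitPlane := by
    intro v hv
    by_contra hcon
    rw [Complex.mem_slitPlane_iff_arg] at hcon
    push Not at hcon
    have h1 : Complex.arg ((v / -p : Circle) : ℂ) = Real.pi := by
      by_contra h
      exact Circle.coe_ne_zero _ (hcon h)
    have h2 := hinv v
    simp only [hG] at h2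
    rw [h1, Circle.exp_add, hexpθ] at h2
    have h3 : Circle.exp Real.pi = -1 := by
      apply Circle.ext
      rw [Circle.coe_exp, Complex.exp_pi_mul_I]
      simp
    rw [h3] at h2
    apply hv
    rw [← h2]
    simp
  have hcont : ∀ v, v ≠ p → ContinuousAt G v := by
    intro v hv
    have h1 : ContinuousAt Complex.arg ((v / -p : Circle) : ℂ) :=
      Complex.continuousAt_arg (hne v hv)
    have h2 : ContinuousAt (fun v : Circle => ((v / -p : Circle) : ℂ)) v := by
      have : Continuous (fun v : Circle => ((v / -p : Circle) : ℂ)) :=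
        continuous_subtype_val.comp (continuous_id.div' continuous_const)
      exact this.continuousAt
    exact (ContinuousAt.comp (f := fun v : Circle => ((v / -p : Circle) : ℂ)) h1 h2).add
      continuousAt_const
  have hrange : ∀ v, v ≠ p → θ - Real.pi < G v ∧ G v < θ + Real.pi := by
    intro v hv
    have h1 := Complex.neg_pi_lt_arg ((v / -p : Circle) : ℂ)
    have h2 := Complex.arg_le_pi ((v / -p : Circle) : ℂ)
    have h3 := (Complex.mem_slitPlane_iff_arg.1 (hne v hv)).1
    have h4 := lt_of_le_of_ne h2 h3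
    constructor
    · simp only [hG]; linarith
    · simp only [hG]; linarith
  have hneA : ∀ v ∈ A, v ≠ p := fun v hv h => hpA (h ▸ hv)
  have hneB : ∀ v ∈ B, v ≠ p := fun v hv h => hpB (h ▸ hv)
  obtain ⟨a₁, a₂, ha, hGA, hA'⟩ := exists_Icc hA hAp hAn
    (fun v hv => (hcont v (hneA v hv)).continuousWithinAt) (fun v _ => hinv v)
  obtain ⟨b₁, b₂, hb, hGB, hB'⟩ := exists_Icc hB hBp hBn
    (fun v hv => (hcont v (hneB v hv)).continuousWithinAt) (fun v _ => hinv v)
  have hrA : ∀ t ∈ Icc a₁ a₂, θ - Real.pi < t ∧ t < θ + Real.pi := by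
    intro t ht
    rw [← hGA] at ht
    obtain ⟨v, hv, rfl⟩ := ht
    exact hrange v (hneA v hv)
  have hrB : ∀ t ∈ Icc b₁ b₂, θ - Real.pi < t ∧ t < θ + Real.pi := by
    intro t ht
    rw [← hGB] at ht
    obtain ⟨v, hv, rfl⟩ := ht
    exact hrange v (hneB v hv)
  have hdis : ∀ t, t ∈ Icc a₁ a₂ → t ∉ Icc b₁ b₂ := by
    intro t h1 h2
    have m1 : Circle.exp t ∈ A := by rw [hA']; exact mem_image_of_mem _ h1
    have m2 : Circle.exp t ∈ B := by rw [hB']; exact mem_image_of_mem _ h2
    exact hd.le_bot ⟨m1, m2⟩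
  have A1 := hrA a₁ (left_mem_Icc.2 ha.le)
  have A2 := hrA a₂ (right_mem_Icc.2 ha.le)
  have B1 := hrB b₁ (left_mem_Icc.2 hb.le)
  have B2 := hrB b₂ (right_mem_Icc.2 hb.le)
  rcases lt_or_ge b₂ a₁ with h | h
  · exact ⟨b₁, b₂, a₁, a₂, hb, h, ha, by linarith, hA', hB'⟩
  · have h' : a₂ < b₁ := by
      by_contra hcon
      push Not at hcon
      exact hdis (max a₁ b₁) ⟨le_max_left _ _, max_le ha.le hcon⟩ ⟨le_max_right _ _, max_le h hb.le⟩
    refine ⟨b₁, b₂, a₁ + 2 * Real.pi, a₂ + 2 * Real.pi, hb, by linarith, by linarith, by linarith,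
      ?_, hB'⟩
    rw [hA', ← image_add_const_Icc, image_image]
    simp only [Circle.exp_add_two_pi]

/-- ramps -/
noncomputable def ramp (c w t : ℝ) : ℝ := max 0 (min (t - c) w)

lemma ramp_lo {c w t : ℝ} (h : t ≤ c) : ramp c w t = 0 := by
  unfold ramp
  exact max_eq_left ((min_le_left _ _).trans (by linarith))

lemma ramp_hi {c w t : ℝ} (hw : 0 ≤ w) (h : c + w ≤ t) : ramp c w t = w := by
  unfold ramp
  rw [min_eq_right (by linarith), max_eq_right hw]

lemma ramp_mid {c w t : ℝ} (h1 : c ≤ t) (h2 : t ≤ c + w) : ramp c w t = t - c := by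
  unfold ramp
  rw [min_eq_left (by linarith), max_eq_right (by linarith)]

lemma ramp_mono (c w : ℝ) : Monotone (ramp c w) := by
  intro t t' h
  unfold ramp
  exact max_le_max le_rfl (min_le_min (by linarith) le_rfl)

lemma continuous_ramp (c w : ℝ) : Continuous (ramp c w) := by unfold ramp; fun_prop

lemma ramp_sum {c w t : ℝ} (h1 : c ≤ t) (h2 : t ≤ c + 4 * w) (hw : 0 ≤ w) :
    ramp c w t + ramp (c + w) w t + ramp (c + 2 * w) w t + ramp (c + 3 * w) w t = t - c := by
  rcases le_total t (c + w) with h3 | h3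
  · rw [ramp_mid h1 h3, ramp_lo h3, ramp_lo (by linarith), ramp_lo (by linarith)]; ring
  rcases le_total t (c + 2 * w) with h4 | h4
  · rw [ramp_hi hw h3, ramp_mid h3 (by linarith), ramp_lo h4, ramp_lo (by linarith)]; ring
  rcases le_total t (c + 3 * w) with h5 | h5
  · rw [ramp_hi hw h3, ramp_hi hw (by linarith), ramp_mid h4 (by linarith), ramp_lo h5]; ring
  · rw [ramp_hi hw h3, ramp_hi hw (by linarith), ramp_hi hw (by linarith),
      ramp_mid h5 (by linarith)]; ring

/-- an increasing map with prescribed values at five equidistant points -/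
theorem exists_tau {c w y₀ y₁ y₂ y₃ y₄ : ℝ} (hw : 0 < w) (h0 : y₀ < y₁) (h1 : y₁ < y₂)
    (h2 : y₂ < y₃) (h3 : y₃ < y₄) : ∃ τ : ℝ → ℝ, Continuous τ ∧
      StrictMonoOn τ (Icc c (c + 4 * w)) ∧ τ c = y₀ ∧ τ (c + w) = y₁ ∧ τ (c + 2 * w) = y₂ ∧
      τ (c + 3 * w) = y₃ ∧ τ (c + 4 * w) = y₄ := by
  set s₀ := (y₁ - y₀) / w with hs₀
  set s₁ := (y₂ - y₁) / w with hs₁
  set s₂ := (y₃ - y₂) / w with hs₂
  set s₃ := (y₄ - y₃) / w with hs₃
  have e0 : s₀ * w = y₁ - y₀ := div_mul_cancel₀ _ hw.ne'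
  have e1 : s₁ * w = y₂ - y₁ := div_mul_cancel₀ _ hw.ne'
  have e2 : s₂ * w = y₃ - y₂ := div_mul_cancel₀ _ hw.ne'
  have e3 : s₃ * w = y₄ - y₃ := div_mul_cancel₀ _ hw.ne'
  have p0 : 0 < s₀ := div_pos (by linarith) hw
  have p1 : 0 < s₁ := div_pos (by linarith) hw
  have p2 : 0 < s₂ := div_pos (by linarith) hw
  have p3 : 0 < s₃ := div_pos (by linarith) hw
  obtain ⟨s, hs, q0, q1, q2, q3⟩ : ∃ s : ℝ, 0 < s ∧ s ≤ s₀ ∧ s ≤ s₁ ∧ s ≤ s₂ ∧ s ≤ s₃ :=
    ⟨min (min s₀ s₁) (min s₂ s₃), lt_min (lt_min p0 p1) (lt_min p2 p3),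
      (min_le_left _ _).trans (min_le_left _ _), (min_le_left _ _).trans (min_le_right _ _),
      (min_le_right _ _).trans (min_le_left _ _), (min_le_right _ _).trans (min_le_right _ _)⟩
  refine ⟨fun t => y₀ + s₀ * ramp c w t + s₁ * ramp (c + w) w t + s₂ * ramp (c + 2 * w) w t +
    s₃ * ramp (c + 3 * w) w t, ?_, ?_, ?_, ?_, ?_, ?_, ?_⟩
  · have := continuous_ramp
    fun_prop
  · intro t ht t' ht' htt
    have r := ramp_sum ht.1 ht.2 hw.le
    have r' := ramp_sum ht'.1 ht'.2 hw.le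
    have m0 := ramp_mono c w htt.le
    have m1 := ramp_mono (c + w) w htt.le
    have m2 := ramp_mono (c + 2 * w) w htt.le
    have m3 := ramp_mono (c + 3 * w) w htt.le
    have k0 := mul_nonneg (sub_nonneg.2 q0) (sub_nonneg.2 m0)
    have k1 := mul_nonneg (sub_nonneg.2 q1) (sub_nonneg.2 m1)
    have k2 := mul_nonneg (sub_nonneg.2 q2) (sub_nonneg.2 m2)
    have k3 := mul_nonneg (sub_nonneg.2 q3) (sub_nonneg.2 m3)
    have k := mul_pos hs (sub_pos.2 htt)
    have k' : s * (t' - t) = s * ((ramp c w t' - ramp c w t) + (ramp (c + w) w t' - ramp (c + w) w t)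
      + (ramp (c + 2 * w) w t' - ramp (c + 2 * w) w t)
      + (ramp (c + 3 * w) w t' - ramp (c + 3 * w) w t)) := by
      congr 1; linarith
    simp only
    nlinarith
  · simp only
    rw [ramp_lo le_rfl, ramp_lo (by linarith), ramp_lo (by linarith), ramp_lo (by linarith)]
    ring
  · simp only
    rw [ramp_hi hw.le le_rfl, ramp_lo le_rfl, ramp_lo (by linarith), ramp_lo (by linarith)]
    linarith
  · simp only
    rw [ramp_hi hw.le (by linarith), ramp_hi hw.le (by linarith), ramp_lo le_rfl,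
      ramp_lo (by linarith)]
    linarith
  · simp only
    rw [ramp_hi hw.le (by linarith), ramp_hi hw.le (by linarith), ramp_hi hw.le (by linarith),
      ramp_lo le_rfl]
    linarith
  · simp only
    rw [ramp_hi hw.le (by linarith), ramp_hi hw.le (by linarith), ramp_hi hw.le (by linarith),
      ramp_hi hw.le (by linarith)]
    linarith

lemma exp_surj_Icc (c : ℝ) : Circle.exp '' Icc c (c + 2 * Real.pi) = univ := by
  refine eq_univ_of_forall fun v => ?_
  obtain ⟨t, ht, h⟩ := Circle.periodic_exp.exists_mem_Ico Real.two_pi_pos (Complex.arg v) c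
  exact ⟨t, Ico_subset_Icc_self ht, by rw [← h, Circle.exp_arg]⟩

/-- circle homeomorphisms from increasing maps -/
theorem exists_circle {c d : ℝ} {τ : ℝ → ℝ} (hc : Continuous τ)
    (hm : StrictMonoOn τ (Icc c (c + 2 * Real.pi))) (h0 : τ c = d)
    (h1 : τ (c + 2 * Real.pi) = d + 2 * Real.pi) :
    ∃ h : Circle → Circle, Continuous h ∧ Function.Injective h ∧ Function.Surjective h ∧
      ∀ x y, c ≤ x → x ≤ y → y ≤ c + 2 * Real.pi →
        h '' (Circle.exp '' Icc x y) = Circle.exp '' Icc (τ x) (τ y) := by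
  have hrep : ∀ v : Circle, ∃ t ∈ Ico c (c + 2 * Real.pi), Circle.exp t = v := by
    intro v
    obtain ⟨t, ht, h⟩ := Circle.periodic_exp.exists_mem_Ico Real.two_pi_pos (Complex.arg v) c
    exact ⟨t, ht, by rw [← h, Circle.exp_arg]⟩
  choose rep hrep1 hrep2 using hrep
  set h : Circle → Circle := fun v => Circle.exp (τ (rep v)) with hh
  have hpi := Real.two_pi_pos
  have hinj := Circle.exp_injOn_Ico (a := c) (b := c + 2 * Real.pi) (by linarith)
  have hexp : ∀ t ∈ Icc c (c + 2 * Real.pi), h (Circle.exp t) = Circle.exp (τ t) := by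
    intro t ht
    rcases eq_or_lt_of_le ht.2 with h2 | h2
    · have h3 : rep (Circle.exp t) = c := by
        apply hinj (hrep1 _) ⟨le_rfl, by linarith⟩
        rw [hrep2, h2, Circle.exp_add_two_pi]
      rw [hh]
      simp only
      rw [h3, h0, h2, h1, Circle.exp_add_two_pi]
    · have h3 : rep (Circle.exp t) = t := hinj (hrep1 _) ⟨ht.1, h2⟩ (hrep2 _)
      rw [hh]
      simp only
      rw [h3]
  have himg : ∀ x y, c ≤ x → x ≤ y → y ≤ c + 2 * Real.pi →
        h '' (Circle.exp '' Icc x y) = Circle.exp '' Icc (τ x) (τ y) := by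
    intro x y hx hxy hy
    have hsub : Icc x y ⊆ Icc c (c + 2 * Real.pi) := Icc_subset_Icc hx hy
    have h2 : τ '' Icc x y = Icc (τ x) (τ y) := by
      apply subset_antisymm
      · rintro _ ⟨t, ht, rfl⟩
        exact ⟨hm.monotoneOn (hsub (left_mem_Icc.2 hxy)) (hsub ht) ht.1,
          hm.monotoneOn (hsub ht) (hsub (right_mem_Icc.2 hxy)) ht.2⟩
      · exact intermediate_value_Icc hxy hc.continuousOn
    rw [← h2, image_image, image_image]
    exact image_congr fun t ht => hexp t (hsub ht)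
  refine ⟨h, ?_, ?_, ?_, himg⟩
  · have hq : IsQuotientMap (fun t : Icc c (c + 2 * Real.pi) => Circle.exp t) := by
      apply IsQuotientMap.of_surjective_continuous
      · intro v
        have : v ∈ Circle.exp '' Icc c (c + 2 * Real.pi) := by rw [exp_surj_Icc]; trivial
        obtain ⟨t, ht, rfl⟩ := this
        exact ⟨⟨t, ht⟩, rfl⟩
      · fun_prop
    rw [hq.continuous_iff]
    have : (h ∘ fun t : Icc c (c + 2 * Real.pi) => Circle.exp t) =
        fun t : Icc c (c + 2 * Real.pi) => Circle.exp (τ t) := by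
      ext t
      rw [Function.comp_apply, hexp t t.2]
    rw [this]
    fun_prop
  · intro u v huv
    have hu := hrep1 u
    have hv := hrep1 v
    have hlim : ∀ t ∈ Ico c (c + 2 * Real.pi), τ t ∈ Ico d (d + 2 * Real.pi) := by
      intro t ht
      constructor
      · rw [← h0]
        exact hm.monotoneOn ⟨le_rfl, by linarith⟩ (Ico_subset_Icc_self ht) ht.1
      · rw [← h1]
        exact hm (Ico_subset_Icc_self ht) ⟨by linarith, le_rfl⟩ ht.2
    have h2 := Circle.exp_injOn_Ico (a := d) (b := d + 2 * Real.pi) (by linarith)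
      (hlim _ hu) (hlim _ hv) huv
    have h3 := hm.injOn (Ico_subset_Icc_self hu) (Ico_subset_Icc_self hv) h2
    rw [← hrep2 u, ← hrep2 v, h3]
  · intro v
    have h2 := himg c (c + 2 * Real.pi) le_rfl (by linarith) le_rfl
    rw [exp_surj_Icc, h0, h1, exp_surj_Icc] at h2
    have : v ∈ h '' univ := by rw [h2]; trivial
    obtain ⟨u, -, hu⟩ := this
    exact ⟨u, hu⟩

end Full.Jordan
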