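import Pool.Agent.Full.Stmt
import Pool.Agent.Full.Jordan.Arcs

/-!
# The closed square and the closed disc, with prescribed arcs
-/

set_option autoImplicit false

open Set Filter Topology Metric

namespace Full.Jordan

/-- the directions of the right side -/
lemma right_arc : Circle.exp '' Icc (-(Real.pi / 4)) (-(Real.pi / 4) + Real.pi / 2) =
    {v : Circle | |(v : ℂ).im| ≤ (v : ℂ).re} := by
  have hpi := Real.pi_pos
  have key : ∀ t : ℝ, 0 ≤ t → t ≤ Real.pi → (|Real.sin t| ≤ Real.cos t ↔ t ≤ Real.pi / 4) := by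
    intro t h0 h1
    have hs : 0 ≤ Real.sin t := Real.sin_nonneg_of_nonneg_of_le_pi h0 h1
    rw [abs_of_nonneg hs]
    constructor
    · intro h
      by_contra hcon
      push Not at hcon
      rcases le_total t (Real.pi / 2) with h2 | h2
      · have a1 := Real.sin_lt_sin_of_lt_of_le_pi_div_two (by linarith) h2 hcon
        have a2 := Real.cos_lt_cos_of_nonneg_of_le_pi (by linarith) h1 hcon
        rw [Real.sin_pi_div_four] at a1
        rw [Real.cos_pi_div_four] at a2
        linarith
      · have a2 := Real.cos_nonpos_of_pi_div_two_le_of_le h2 (by linarith)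
        rcases eq_or_lt_of_le h1 with h3 | h3
        · rw [h3, Real.cos_pi, Real.sin_pi] at h
          linarith
        · have a1 := Real.sin_pos_of_pos_of_lt_pi (by linarith) h3
          linarith
    · intro h
      have a1 := Real.sin_le_sin_of_le_of_le_pi_div_two (by linarith) (by linarith) h
      have a2 := Real.cos_le_cos_of_nonneg_of_le_pi h0 (by linarith) h
      rw [Real.sin_pi_div_four] at a1
      rw [Real.cos_pi_div_four] at a2
      linarith
  have key2 : ∀ t : ℝ, -Real.pi ≤ t → t ≤ Real.pi →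
      (|Real.sin t| ≤ Real.cos t ↔ |t| ≤ Real.pi / 4) := by
    intro t h0 h1
    rcases le_total 0 t with h | h
    · rw [key t h h1, abs_of_nonneg h]
    · have := key (-t) (by linarith) (by linarith)
      rwa [Real.sin_neg, abs_neg, Real.cos_neg, ← abs_of_nonpos h] at this
  ext v
  constructor
  · rintro ⟨t, ht, rfl⟩
    rw [mem_ofPred_eq, Circle.coe_exp, Complex.exp_ofReal_mul_I_re, Complex.exp_ofReal_mul_I_im]
    have h1 := ht.1
    have h2 := ht.2
    exact (key2 t (by linarith) (by linarith)).2 (abs_le.2 ⟨h1, by linarith⟩)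
  · intro hv
    have e := Circle.exp_arg v
    have e' : Complex.exp ((Complex.arg v : ℝ) * Complex.I) = v := by
      rw [← Circle.coe_exp, e]
    rw [mem_ofPred_eq, ← e', Complex.exp_ofReal_mul_I_re, Complex.exp_ofReal_mul_I_im] at hv
    have := (key2 _ (Complex.neg_pi_lt_arg _).le (Complex.arg_le_pi _)).1 hv
    rw [abs_le] at this
    exact ⟨Complex.arg v, ⟨this.1, by linarith [this.2]⟩, e⟩

/-- the directions of the left side -/
lemma left_arc : Circle.exp '' Icc (-(Real.pi / 4) + 2 * (Real.pi / 2))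
    (-(Real.pi / 4) + 3 * (Real.pi / 2)) = {v : Circle | |(v : ℂ).im| ≤ -(v : ℂ).re} := by
  have h1 : Icc (-(Real.pi / 4) + 2 * (Real.pi / 2)) (-(Real.pi / 4) + 3 * (Real.pi / 2)) =
      (fun t => t + Real.pi) '' Icc (-(Real.pi / 4)) (-(Real.pi / 4) + Real.pi / 2) := by
    rw [image_add_const_Icc]
    congr 1 <;> ring
  have h2 : ∀ t : ℝ, Circle.exp (t + Real.pi) = -Circle.exp t := by
    intro t
    apply Circle.ext
    rw [Circle.coe_exp, Circle.coe_neg, Circle.coe_exp]
    push_cast
    rw [add_mul, Complex.exp_add, Complex.exp_pi_mul_I]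
    ring
  rw [h1, image_image]
  ext v
  have h3 := Set.ext_iff.1 right_arc (-v)
  constructor
  · rintro ⟨t, ht, rfl⟩
    have := (Set.ext_iff.1 right_arc (Circle.exp t)).1 ⟨t, ht, rfl⟩
    rw [mem_ofPred_eq] at this ⊢
    simp only [h2, Circle.coe_neg, Complex.neg_im, Complex.neg_re, abs_neg, neg_neg]
    exact this
  · intro hv
    have h4 : -v ∈ {v : Circle | |(v : ℂ).im| ≤ (v : ℂ).re} := by
      rw [mem_ofPred_eq] at hv ⊢
      rwa [Circle.coe_neg, Complex.neg_im, Complex.neg_re, abs_neg]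
    obtain ⟨t, ht, e⟩ := h3.2 h4
    refine ⟨t, ht, ?_⟩
    simp only [h2, e, neg_neg]

/-- the sup norm -/
noncomputable def supn (w : ℂ) : ℝ := max |w.re| |w.im|

/-- the direction -/
noncomputable def dir (w : ℂ) : Circle := Circle.exp (Complex.arg w)

lemma norm_mul_dir (w : ℂ) : ((‖w‖ : ℝ) : ℂ) * dir w = w := by
  rw [dir, Circle.coe_exp]
  exact Complex.norm_mul_exp_arg_mul_I w

lemma dir_smul {r : ℝ} (hr : 0 < r) (v : Circle) : dir (r * v) = v := by
  rw [dir, Complex.arg_real_mul _ hr, Circle.exp_arg]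

lemma supn_nonneg (w : ℂ) : 0 ≤ supn w := le_max_of_le_left (abs_nonneg _)

lemma supn_smul {r : ℝ} (hr : 0 ≤ r) (w : ℂ) : supn (r * w) = r * supn w := by
  unfold supn
  rw [Complex.re_ofReal_mul, Complex.im_ofReal_mul, abs_mul, abs_mul, abs_of_nonneg hr,
    mul_max_of_nonneg _ _ hr]

lemma supn_pos {w : ℂ} (hw : w ≠ 0) : 0 < supn w := by
  refine lt_of_le_of_ne (supn_nonneg w) fun h => hw ?_
  have h1 : |w.re| ≤ supn w := le_max_left _ _
  have h2 : |w.im| ≤ supn w := le_max_right _ _
  rw [← h] at h1 h2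
  exact Complex.ext (abs_nonpos_iff.1 h1) (abs_nonpos_iff.1 h2)

lemma supn_eq (w : ℂ) : supn w = ‖w‖ * supn (dir w) := by
  conv_lhs => rw [← norm_mul_dir w]
  exact supn_smul (norm_nonneg w) _

lemma supn_dir_pos (w : ℂ) : 0 < supn (dir w) := supn_pos (Circle.coe_ne_zero _)

lemma continuous_supn : Continuous supn := by
  unfold supn
  fun_prop

lemma coe_dir {w : ℂ} (hw : w ≠ 0) : (dir w : ℂ) = w / (‖w‖ : ℝ) := by
  rw [eq_div_iff (by exact_mod_cast norm_ne_zero_iff.2 hw), mul_comm]
  exact norm_mul_dir w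

lemma continuousAt_dir {w : ℂ} (hw : w ≠ 0) : ContinuousAt dir w := by
  have hind : IsInducing (fun v : Circle => (v : ℂ)) := IsInducing.subtypeVal
  rw [hind.continuousAt_iff]
  have h1 : ContinuousAt (fun w : ℂ => w / ((‖w‖ : ℝ) : ℂ)) w :=
    continuousAt_id.div (by fun_prop) (by exact_mod_cast norm_ne_zero_iff.2 hw)
  refine h1.congr ?_
  filter_upwards [isOpen_ne.mem_nhds hw] with z hz
  exact (coe_dir hz).symm

/-- the radial map of the plane which maps the square `supn w ≤ 1 / 2` onto the unit disc -/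
noncomputable def disc (h : Circle → Circle) (w : ℂ) : ℂ := ((2 * supn w : ℝ) : ℂ) * h (dir w)

lemma norm_disc (h : Circle → Circle) (w : ℂ) : ‖disc h w‖ = 2 * supn w := by
  rw [disc, norm_mul, Circle.norm_coe, mul_one, Complex.norm_real, Real.norm_eq_abs, abs_of_nonneg]
  have := supn_nonneg w
  positivity

lemma disc_zero (h : Circle → Circle) : disc h 0 = 0 := by
  rw [← norm_eq_zero, norm_disc]
  simp [supn]

lemma continuous_disc {h : Circle → Circle} (hc : Continuous h) : Continuous (disc h) := by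
  rw [continuous_iff_continuousAt]
  intro w
  rcases eq_or_ne w 0 with rfl | hw
  · rw [ContinuousAt, disc_zero, tendsto_zero_iff_norm_tendsto_zero]
    simp only [norm_disc]
    have h1 : Tendsto (fun w => 2 * supn w) (𝓝 0) (𝓝 (2 * supn 0)) :=
      (continuous_const.mul continuous_supn).tendsto 0
    have h2 : 2 * supn 0 = 0 := by simp [supn]
    rwa [h2] at h1
  · have h1 : ContinuousAt (fun w => ((h (dir w) : Circle) : ℂ)) w :=
      continuous_subtype_val.continuousAt.comp (hc.continuousAt.comp (continuousAt_dir hw))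
    have h2 : ContinuousAt (fun w => ((2 * supn w : ℝ) : ℂ)) w :=
      (Complex.continuous_ofReal.comp (continuous_const.mul continuous_supn)).continuousAt
    exact h2.mul h1

lemma injective_disc {h : Circle → Circle} (hi : Function.Injective h) :
    Function.Injective (disc h) := by
  intro w w' e
  have h1 : supn w = supn w' := by
    have := congrArg norm e
    rw [norm_disc, norm_disc] at this
    linarith
  rcases eq_or_ne w 0 with rfl | hw
  · by_contra hne
    have := supn_pos (Ne.symm hne)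
    rw [← h1] at this
    simp [supn] at this
  · have h2 : 0 < supn w := supn_pos hw
    have h3 : h (dir w) = h (dir w') := by
      apply Circle.ext
      rw [disc, disc, h1] at e
      refine mul_left_cancel₀ ?_ e
      rw [← h1]
      exact_mod_cast (by positivity : (2 * supn w) ≠ 0)
    have h4 := hi h3
    have h5 : ‖w‖ = ‖w'‖ := by
      have e1 := supn_eq w
      have e2 := supn_eq w'
      rw [← h4, ← h1, e1] at e2
      exact mul_right_cancel₀ (supn_dir_pos w).ne' e2
    rw [← norm_mul_dir w, ← norm_mul_dir w', h4, h5]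

/-- the point of the direction `v` with sup norm `ρ / 2` -/
noncomputable def pt (ρ : ℝ) (v : Circle) : ℂ := ((ρ / (2 * supn v) : ℝ) : ℂ) * v

lemma supn_pt {ρ : ℝ} (hρ : 0 ≤ ρ) (v : Circle) : supn (pt ρ v) = ρ / 2 := by
  have h1 : 0 < supn v := supn_pos (Circle.coe_ne_zero _)
  rw [pt, supn_smul (by positivity)]
  field_simp

lemma disc_pt {ρ : ℝ} (hρ : 0 < ρ) (h : Circle → Circle) (v : Circle) :
    disc h (pt ρ v) = (ρ : ℂ) * h v := by
  have h1 : 0 < supn v := supn_pos (Circle.coe_ne_zero _)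
  rw [disc, supn_pt hρ.le, pt, dir_smul (by positivity)]
  congr 2
  ring

lemma disc_surj {h : Circle → Circle} (hs : Function.Surjective h) (u : ℂ) :
    ∃ w, disc h w = u := by
  rcases eq_or_ne u 0 with rfl | hu
  · exact ⟨0, disc_zero h⟩
  · obtain ⟨v, hv⟩ := hs (dir u)
    exact ⟨pt ‖u‖ v, by rw [disc_pt (norm_pos_iff.2 hu), hv, norm_mul_dir]⟩

/-- the centre of the square -/
noncomputable def cen : ℂ := ⟨1 / 2, 1 / 2⟩

lemma mem_sq_iff (z : ℂ) : z ∈ sq ↔ 2 * supn (z - cen) ≤ 1 := by
  have h : (2 * supn (z - cen) ≤ 1) ↔ supn (z - cen) ≤ 1 / 2 := by constructor <;> intro h <;> linarith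
  rw [h, supn, max_le_iff, abs_le, abs_le]
  simp only [sq, cen, mem_ofPred_eq, Complex.sub_re, Complex.sub_im]
  constructor
  · rintro ⟨h1, h2, h3, h4⟩
    refine ⟨⟨?_, ?_⟩, ?_, ?_⟩ <;> linarith
  · rintro ⟨⟨h1, h2⟩, h3, h4⟩
    refine ⟨?_, ?_, ?_, ?_⟩ <;> linarith

lemma mem_sqo_iff (z : ℂ) : z ∈ sqo ↔ 2 * supn (z - cen) < 1 := by
  have h : (2 * supn (z - cen) < 1) ↔ supn (z - cen) < 1 / 2 := by constructor <;> intro h <;> linarith
  rw [h, supn, max_lt_iff, abs_lt, abs_lt]
  simp only [sqo, cen, mem_ofPred_eq, Complex.sub_re, Complex.sub_im]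
  constructor
  · rintro ⟨h1, h2, h3, h4⟩
    refine ⟨⟨?_, ?_⟩, ?_, ?_⟩ <;> linarith
  · rintro ⟨⟨h1, h2⟩, h3, h4⟩
    refine ⟨?_, ?_, ?_, ?_⟩ <;> linarith

lemma side_dir {w : ℂ} (h1 : 2 * supn w ≤ 1) (h2 : w.re = 1 / 2) :
    2 * supn w = 1 ∧ |((dir w : Circle) : ℂ).im| ≤ ((dir w : Circle) : ℂ).re := by
  have h3 : |w.re| ≤ supn w := le_max_left _ _
  have h4 : |w.im| ≤ supn w := le_max_right _ _
  rw [h2, abs_of_pos (by norm_num)] at h3
  refine ⟨by linarith, ?_⟩
  have hw : w ≠ 0 := by
    rintro rfl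
    norm_num at h2
  have h5 := norm_pos_iff.2 hw
  have e := norm_mul_dir w
  have e1 : ‖w‖ * ((dir w : Circle) : ℂ).re = w.re := by
    rw [← Complex.re_ofReal_mul, e]
  have e2 : ‖w‖ * ((dir w : Circle) : ℂ).im = w.im := by
    rw [← Complex.im_ofReal_mul, e]
  have h6 : ‖w‖ * |((dir w : Circle) : ℂ).im| ≤ ‖w‖ * ((dir w : Circle) : ℂ).re := by
    rw [e1, ← abs_of_pos h5, ← abs_mul, e2, h2]
    linarith
  exact le_of_mul_le_mul_left h6 h5

lemma side_dir' {w : ℂ} (h1 : 2 * supn w ≤ 1) (h2 : w.re = -(1 / 2)) :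
    2 * supn w = 1 ∧ |((dir w : Circle) : ℂ).im| ≤ -((dir w : Circle) : ℂ).re := by
  have h3 : |w.re| ≤ supn w := le_max_left _ _
  have h4 : |w.im| ≤ supn w := le_max_right _ _
  rw [h2, abs_neg, abs_of_pos (by norm_num)] at h3
  refine ⟨by linarith, ?_⟩
  have hw : w ≠ 0 := by
    rintro rfl
    norm_num at h2
  have h5 := norm_pos_iff.2 hw
  have e := norm_mul_dir w
  have e1 : ‖w‖ * ((dir w : Circle) : ℂ).re = w.re := by
    rw [← Complex.re_ofReal_mul, e]
  have e2 : ‖w‖ * ((dir w : Circle) : ℂ).im = w.im := by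
    rw [← Complex.im_ofReal_mul, e]
  have h6 : ‖w‖ * |((dir w : Circle) : ℂ).im| ≤ ‖w‖ * -((dir w : Circle) : ℂ).re := by
    rw [mul_neg, e1, ← abs_of_pos h5, ← abs_mul, e2, h2]
    linarith
  exact le_of_mul_le_mul_left h6 h5

/-- **The square and the disc**: two disjoint arcs of the circle are the images of the left and of the
right side under a homeomorphism of the closed square onto the closed disc -/
theorem exists_square {A B : Set Circle} (hA : IsClosed A) (hAp : IsPreconnected A)
    (hAn : A.Nontrivial) (hB : IsClosed B) (hBp : IsPreconnected B) (hBn : B.Nontrivial)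
    (hd : Disjoint A B) : ∃ G : ℂ → ℂ, Continuous G ∧ Function.Injective G ∧
      G '' sq = closedBall 0 1 ∧ G '' sqo = ball 0 1 ∧ G '' sqL = (fun v : Circle => (v : ℂ)) '' A ∧
      G '' sqR = (fun v : Circle => (v : ℂ)) '' B := by
  obtain ⟨b₁, b₂, a₁, a₂, hb, hba, ha, hab, rfl, rfl⟩ := exists_arcs hA hAp hAn hB hBp hBn hd
  have hpi := Real.pi_pos
  set c : ℝ := -(Real.pi / 4) with hc
  have hc4 : c + 4 * (Real.pi / 2) = c + 2 * Real.pi := by ring
  obtain ⟨τ, t1, t2, t3, t4, t5, t6, t7⟩ := exists_tau (c := c) (w := Real.pi / 2) (by positivity)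
    hb hba ha hab
  rw [hc4] at t2 t7
  obtain ⟨h, h1, h2, h3, h4⟩ := exists_circle t1 t2 t3 t7
  have hR := h4 c (c + Real.pi / 2) le_rfl (by linarith) (by linarith)
  have hL := h4 (c + 2 * (Real.pi / 2)) (c + 3 * (Real.pi / 2)) (by linarith) (by linarith)
    (by linarith)
  rw [t3, t4, hc, right_arc] at hR
  rw [t5, t6, hc, left_arc] at hL
  refine ⟨fun z => disc h (z - cen), (continuous_disc h1).comp (continuous_id.sub continuous_const),
    fun z z' e => sub_left_injective (injective_disc h2 e), ?_, ?_, ?_, ?_⟩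
  · ext u
    constructor
    · rintro ⟨z, hz, rfl⟩
      rw [mem_closedBall_zero_iff, norm_disc]
      exact (mem_sq_iff z).1 hz
    · intro hu
      obtain ⟨w, rfl⟩ := disc_surj h3 u
      rw [mem_closedBall_zero_iff, norm_disc] at hu
      refine ⟨w + cen, (mem_sq_iff _).2 (by rwa [add_sub_cancel_right]), ?_⟩
      simp only [add_sub_cancel_right]
  · ext u
    constructor
    · rintro ⟨z, hz, rfl⟩
      rw [mem_ball_zero_iff, norm_disc]
      exact (mem_sqo_iff z).1 hz
    · intro hu
      obtain ⟨w, rfl⟩ := disc_surj h3 u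
      rw [mem_ball_zero_iff, norm_disc] at hu
      refine ⟨w + cen, (mem_sqo_iff _).2 (by rwa [add_sub_cancel_right]), ?_⟩
      simp only [add_sub_cancel_right]
  · rw [← hL, image_image]
    ext u
    constructor
    · rintro ⟨z, ⟨hz, hz0⟩, rfl⟩
      obtain ⟨k1, k2⟩ := side_dir' ((mem_sq_iff z).1 hz) (by
        rw [Complex.sub_re, hz0, cen]; norm_num)
      refine ⟨dir (z - cen), k2, ?_⟩
      simp only [disc]
      rw [k1]
      simp
    · rintro ⟨v, hv, rfl⟩
      rw [mem_ofPred_eq] at hv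
      have hv1 : supn v = -(v : ℂ).re := by
        have h0 : 0 ≤ -(v : ℂ).re := (abs_nonneg _).trans hv
        rw [supn, abs_of_nonpos (by linarith)]
        exact max_eq_left hv
      have hv0 : 0 < supn v := supn_pos (Circle.coe_ne_zero _)
      have hw : 2 * supn (pt 1 v) = 1 := by rw [supn_pt zero_le_one]; norm_num
      have hre : (pt 1 v).re = -(1 / 2) := by
        rw [pt, Complex.re_ofReal_mul]
        have : (v : ℂ).re = -supn v := by rw [hv1, neg_neg]
        rw [this]
        field_simp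
      refine ⟨pt 1 v + cen, ⟨(mem_sq_iff _).2 (by rw [add_sub_cancel_right]; exact hw.le), ?_⟩, ?_⟩
      · rw [Complex.add_re, hre, cen]; norm_num
      · simp only [add_sub_cancel_right]
        rw [disc_pt one_pos]
        simp
  · rw [← hR, image_image]
    ext u
    constructor
    · rintro ⟨z, ⟨hz, hz0⟩, rfl⟩
      obtain ⟨k1, k2⟩ := side_dir ((mem_sq_iff z).1 hz) (by
        rw [Complex.sub_re, hz0, cen]; norm_num)
      refine ⟨dir (z - cen), k2, ?_⟩
      simp only [disc]
      rw [k1]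
      simp
    · rintro ⟨v, hv, rfl⟩
      rw [mem_ofPred_eq] at hv
      have hv1 : supn v = (v : ℂ).re := by
        have h0 : 0 ≤ (v : ℂ).re := (abs_nonneg _).trans hv
        rw [supn, abs_of_nonneg h0]
        exact max_eq_left hv
      have hv0 : 0 < supn v := supn_pos (Circle.coe_ne_zero _)
      have hw : 2 * supn (pt 1 v) = 1 := by rw [supn_pt zero_le_one]; norm_num
      have hre : (pt 1 v).re = 1 / 2 := by
        rw [pt, Complex.re_ofReal_mul, ← hv1]
        field_simp
      refine ⟨pt 1 v + cen, ⟨(mem_sq_iff _).2 (by rw [add_sub_cancel_right]; exact hw.le), ?_⟩, ?_⟩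
      · rw [Complex.add_re, hre, cen]; norm_num
      · simp only [add_sub_cancel_right]
        rw [disc_pt one_pos]
        simp

end Full.Jordan
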