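import Pool.Agent.Full.Jordan.Main
import Pool.Agent.Full.Jordan.Disc
import Pool.Agent.Full.Jordan.Square

/-!
# Every Jordan domain with two disjoint boundary arcs is a topological quadrilateral
-/

set_option autoImplicit false

open Set Filter Topology Metric

namespace Full

namespace Jordan

/-- arcs of the image of the circle, pulled back to the circle -/
lemma pull_arc {F : ℂ → ℂ} (hF : ContinuousOn F (closedBall 0 1)) (hi : InjOn F (closedBall 0 1))
    {A : Set ℂ} (hA : IsClosed A) (hAp : IsPreconnected A) (hAn : A.Nontrivial)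
    (hAs : A ⊆ F '' sphere 0 1) :
    IsClosed {v : Circle | F v ∈ A} ∧ IsPreconnected {v : Circle | F v ∈ A} ∧
      {v : Circle | F v ∈ A}.Nontrivial ∧
      (fun v : Circle => F v) '' {v : Circle | F v ∈ A} = A := by
  have hm : ∀ v : Circle, (v : ℂ) ∈ closedBall (0:ℂ) 1 := fun v =>
    mem_closedBall_zero_iff.2 (Circle.norm_coe v).le
  have hc : Continuous (fun v : Circle => F v) :=
    hF.comp_continuous (continuous_subtype_val : Continuous (fun v : Circle => (v : ℂ))) hm
  have hinj : Function.Injective (fun v : Circle => F v) := fun v v' e =>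
    Circle.ext (hi (hm v) (hm v') e)
  have himg : (fun v : Circle => F v) '' {v : Circle | F v ∈ A} = A := by
    ext w
    constructor
    · rintro ⟨v, hv, rfl⟩; exact hv
    · intro hw
      obtain ⟨z, hz, rfl⟩ := hAs hw
      exact ⟨⟨z, hz⟩, hw, rfl⟩
  have hemb : IsClosedEmbedding (fun v : Circle => F v) := hc.isClosedEmbedding hinj
  refine ⟨hA.preimage hc, ?_, ?_, himg⟩
  · rw [← hemb.isInducing.isPreconnected_image, himg]
    exact hAp
  · rw [← himg] at hAn
    obtain ⟨_, ⟨u, hu, rfl⟩, _, ⟨v, hv, rfl⟩, huv⟩ := hAn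
    exact ⟨u, hu, v, hv, fun e => huv (by rw [e])⟩

end Jordan

open Jordan

/-- **every Jordan domain with two disjoint boundary arcs is a topological quadrilateral** -/
theorem existsQuad : ExistsQuad := by
  intro D A B h
  obtain ⟨F, f1, f2, f3, f4, f5, f6⟩ := exists_disc h.isOpen h.bdd h.conn h.curve
  obtain ⟨a1, a2, a3, a4⟩ := pull_arc f1 f2 h.closedA h.connA h.ntA (by rw [f6]; exact h.subA)
  obtain ⟨b1, b2, b3, b4⟩ := pull_arc f1 f2 h.closedB h.connB h.ntB (by rw [f6]; exact h.subB)
  obtain ⟨G, g1, g2, g3, g4, g5, g6⟩ := exists_square a1 a2 a3 b1 b2 b3 (by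
    rw [Set.disjoint_left]
    intro v hv hv'
    exact Set.disjoint_left.1 h.disj hv hv')
  refine ⟨F ∘ G, ⟨?_, ?_, ?_⟩, ?_, ?_, ?_, ?_⟩
  · refine f1.comp g1.continuousOn ?_
    rw [← g3]
    exact mapsTo_image G sq
  · refine f2.comp g2.injOn ?_
    rw [← g3]
    exact mapsTo_image G sq
  · rw [image_comp, g4, f4]
    exact h.isOpen
  · rw [image_comp, g4, f4]
  · rw [image_comp, g3, f5]
  · rw [image_comp, g5, image_image]
    exact a4
  · rw [image_comp, g6, image_image]
    exact b4

/-- the statement for topological quadrilaterals implies the statement for Jordan domains and arcs -/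
theorem q1J_of_q1 (h : Q1) : Q1J := Q1J_of_Q1 existsQuad h

end Full
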