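import Pool.Agent.Full.Stmt

/-!
# The literal form of Q1: Jordan domains with two disjoint boundary arcs

`Q1J`: for every Jordan domain `D` and disjoint boundary arcs `A`, `B` (`IsJordan D A B`) the
probability that critical bond percolation on `ε ℤ²` contains an open path in the closed domain which
joins `A` to `B` has a limit as `ε → 0`, and the limit is the same for `f(D)`, `f(A)`, `f(B)`, for every
`f` continuous and injective on the closed domain and holomorphic in the domain.

`Q1J_of_Q1`: `Q1` (topological quadrilaterals) implies `Q1J`, given that every Jordan domain with two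
arcs is a topological quadrilateral (`ExistsQuad`).
-/

set_option autoImplicit false

open Set Filter Topology H47Perc

namespace Full

/-- the domain `D` is crossed from `A` to `B`: some point of `A` and some point of `B` are joined by a
continuous path which stays in the closed domain and in the union of the open edges of mesh `ε` -/
def CrossedJ (ε : ℝ) (D A B : Set ℂ) (ω : Finset (Sym2 (ℤ × ℤ))) : Prop :=
  ∃ a ∈ A, ∃ b ∈ B, JoinedIn (openSet ε ω ∩ closure D) a b

/-- the probability that the domain `D` is crossed from `A` to `B`, for critical bond percolation on the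
lattice of mesh `ε`, tends to `L` as `ε → 0` -/
def TendsJ (D A B : Set ℂ) (L : ℝ) : Prop :=
  ∀ δ : ℝ, 0 < δ → ∃ ε₀ : ℝ, 0 < ε₀ ∧ ∀ ε : ℝ, 0 < ε → ε < ε₀ → ∀ S : Finset (ℤ × ℤ),
    (∀ z : ℤ × ℤ, Metric.infDist (pos ε z) (closure D) ≤ ε → z ∈ S) →
      |perc half S (CrossedJ ε D A B) - L| < δ

/-- **Q1 for Jordan domains.** -/
def Q1J : Prop :=
  ∀ D A B : Set ℂ, IsJordan D A B → ∃ L : ℝ, TendsJ D A B L ∧
    ∀ f : ℂ → ℂ, ContinuousOn f (closure D) → InjOn f (closure D) → DifferentiableOn ℂ f D →
      TendsJ (f '' D) (f '' A) (f '' B) L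

/-- every Jordan domain with two disjoint boundary arcs is a topological quadrilateral -/
def ExistsQuad : Prop :=
  ∀ D A B : Set ℂ, IsJordan D A B →
    ∃ q : ℂ → ℂ, IsQuad q ∧ q '' sqo = D ∧ q '' sq = closure D ∧ q '' sqL = A ∧ q '' sqR = B

lemma IsJordan.isCompact_closure {D A B : Set ℂ} (h : IsJordan D A B) : IsCompact (closure D) :=
  h.bdd.isCompact_closure

/-- images of the closure under maps continuous on the (compact) closure -/
lemma image_closure_eq {D : Set ℂ} (hD : Bornology.IsBounded D) {f : ℂ → ℂ}
    (hf : ContinuousOn f (closure D)) : f '' closure D = closure (f '' D) := by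
  apply Subset.antisymm
  · exact hf.image_closure
  · exact closure_minimal (image_mono subset_closure) (hD.isCompact_closure.image_of_continuousOn hf).isClosed

lemma tendsJ_iff {q : ℂ → ℂ} {D A B : Set ℂ} (h1 : q '' sq = closure D)
    (h2 : q '' sqL = A) (h3 : q '' sqR = B) {L : ℝ} : Tends q L ↔ TendsJ D A B L := by
  have hc : ∀ ε : ℝ, Crossed ε q = CrossedJ ε D A B := by
    intro ε; funext ω
    simp only [Crossed, CrossedJ, h1, h2, h3]
  simp only [Tends, TendsJ, hc, h1]

theorem Q1J_of_Q1 (hq : ExistsQuad) (h : Q1) : Q1J := by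
  intro D A B hD
  obtain ⟨q, hquad, ho, hc, hL, hR⟩ := hq D A B hD
  obtain ⟨L, hL1, hL2⟩ := h q hquad
  refine ⟨L, (tendsJ_iff hc hL hR).1 hL1, fun f hf hi hd => ?_⟩
  have h1 := hL2 f (by rw [hc]; exact hf) (by rw [hc]; exact hi) (by rw [ho]; exact hd)
  refine (tendsJ_iff ?_ ?_ ?_).1 h1
  · rw [image_comp, hc]
    exact image_closure_eq hD.bdd hf
  · rw [image_comp, hL]
  · rw [image_comp, hR]

/-- the image of a Jordan domain with two arcs under a map as in `Q1J` is a Jordan domain with two arcs -/
theorem IsJordan.map {D A B : Set ℂ} (h : IsJordan D A B) {f : ℂ → ℂ} (hf : ContinuousOn f (closure D))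
    (hi : InjOn f (closure D)) (hd : DifferentiableOn ℂ f D) : IsJordan (f '' D) (f '' A) (f '' B) := by
  have hDc : D ⊆ closure D := subset_closure
  have hfrc : frontier D ⊆ closure D := frontier_subset_closure
  have hAc : A ⊆ closure D := h.subA.trans hfrc
  have hBc : B ⊆ closure D := h.subB.trans hfrc
  have hcl := image_closure_eq h.bdd hf
  have hopen : IsOpen (f '' D) := by
    rcases (hd.analyticOnNhd h.isOpen).is_constant_or_isOpen h.conn.isPreconnected with ⟨w, hw⟩ | hop
    · exfalso
      obtain ⟨z, hz⟩ := h.conn.nonempty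
      obtain ⟨r, hr, hball⟩ := Metric.isOpen_iff.1 h.isOpen z hz
      have hz' : z + (r / 2 : ℝ) ∈ D := by
        apply hball
        rw [Metric.mem_ball, dist_eq_norm, add_sub_cancel_left, Complex.norm_real, Real.norm_eq_abs,
          abs_of_pos (by linarith)]
        linarith
      have := hi (hDc hz) (hDc hz') ((hw z hz).trans (hw _ hz').symm)
      have h2 : ((r / 2 : ℝ) : ℂ) = 0 := by linear_combination -this
      rw [Complex.ofReal_eq_zero] at h2
      linarith
    · exact hop D subset_rfl h.isOpen
  have hfr : frontier (f '' D) = f '' frontier D := by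
    rw [hopen.frontier_eq, h.isOpen.frontier_eq, ← hcl, hi.image_sdiff_subset hDc]
  refine ⟨hopen, ?_, ?_, ?_, ?_, ?_, ?_, ?_, ?_, ?_, ?_, ?_, ?_⟩
  · exact (h.isCompact_closure.image_of_continuousOn hf).isBounded.subset (image_mono hDc)
  · exact h.conn.image f (hf.mono hDc)
  · obtain ⟨γ, hγ, hγi, hγr⟩ := h.curve
    have hmem : ∀ c, γ c ∈ closure D := fun c => hfrc (by rw [hγr]; exact mem_range_self c)
    refine ⟨fun c => f (γ c), hf.comp_continuous hγ hmem, ?_, ?_⟩
    · intro c c' hcc
      exact hγi (hi (hmem c) (hmem c') hcc)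
    · rw [hfr, hγr, ← range_comp]; rfl
  · exact ((h.isCompact_closure.of_isClosed_subset h.closedA hAc).image_of_continuousOn (hf.mono hAc)).isClosed
  · exact h.connA.image f (hf.mono hAc)
  · rw [hfr]; exact image_mono h.subA
  · exact h.ntA.image_of_injOn (hi.mono hAc)
  · exact ((h.isCompact_closure.of_isClosed_subset h.closedB hBc).image_of_continuousOn (hf.mono hBc)).isClosed
  · exact h.connB.image f (hf.mono hBc)
  · rw [hfr]; exact image_mono h.subB
  · exact h.ntB.image_of_injOn (hi.mono hBc)
  · rw [Set.disjoint_left]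
    rintro _ ⟨a, ha, rfl⟩ ⟨b, hb, hab⟩
    have := hi (hBc hb) (hAc ha) hab
    rw [this] at hb
    exact Set.disjoint_left.1 h.disj ha hb

end Full
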