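import Pool.Agent.Full.Jordan.Root

/-!
# Limits of bounded holomorphic functions, Hurwitz's theorem, inverse functions
-/

set_option autoImplicit false

open Set Filter Topology Complex Metric

namespace Full.Jor

/-- pointwise limits of functions bounded by one are locally uniform -/
theorem locUnif_of_pointwise {ι : Type*} {l : Filter ι} [l.NeBot] {D : Set ℂ} (hD : IsOpen D)
    {f : ι → ℂ → ℂ} {F : ℂ → ℂ} (hf : ∀ i, DifferentiableOn ℂ (f i) D)
    (hm : ∀ i, MapsTo (f i) D (closedBall 0 1)) (hlim : ∀ z ∈ D, Tendsto (fun i => f i z) l (𝓝 (F z))) :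
    TendstoLocallyUniformlyOn f F l D := by
  rw [Metric.tendstoLocallyUniformlyOn_iff]
  intro ε hε z hz
  obtain ⟨r, hr, hr2⟩ := Metric.isOpen_iff.1 hD z hz
  -- equicontinuity
  have hlip : ∀ i, ∀ w ∈ ball z r, dist (f i w) (f i z) ≤ 2 / r * dist w z := by
    intro i w hw
    refine dist_le_div_mul_dist_of_mapsTo_ball ((hf i).mono hr2) ?_ hw
    intro y hy
    have h1 := hm i (hr2 hy)
    have h2 := hm i hz
    rw [mem_closedBall_zero_iff] at h1 h2
    rw [mem_closedBall, dist_eq_norm]
    calc ‖f i y - f i z‖ ≤ ‖f i y‖ + ‖f i z‖ := norm_sub_le _ _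
      _ ≤ 2 := by linarith
  have hlipF : ∀ w ∈ ball z r, dist (F w) (F z) ≤ 2 / r * dist w z := by
    intro w hw
    exact le_of_tendsto ((hlim w (hr2 hw)).dist (hlim z hz)) (Eventually.of_forall fun i => hlip i w hw)
  set ρ : ℝ := min r (ε * r / 6) with hρ
  have hρ0 : 0 < ρ := lt_min hr (by positivity)
  refine ⟨ball z ρ, mem_nhdsWithin_of_mem_nhds (ball_mem_nhds z hρ0), ?_⟩
  have h1 : ∀ᶠ i in l, dist (f i z) (F z) < ε / 3 := (Metric.tendsto_nhds.1 (hlim z hz)) _ (by positivity)
  filter_upwards [h1] with i hi w hw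
  have hwr : w ∈ ball z r := ball_subset_ball (min_le_left _ _) hw
  have h2 : 2 / r * dist w z < ε / 3 := by
    have h3 : dist w z < ε * r / 6 := lt_of_lt_of_le (mem_ball.1 hw) (min_le_right _ _)
    have h4 : 2 / r * (ε * r / 6) = ε / 3 := by field_simp; ring
    rw [← h4]
    exact mul_lt_mul_of_pos_left h3 (by positivity)
  calc dist (F w) (f i w) ≤ dist (F w) (F z) + dist (F z) (f i z) + dist (f i z) (f i w) :=
        dist_triangle4 _ _ _ _
    _ < ε := by
        have h5 := hlip i w hwr
        have h6 := hlipF w hwr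
        rw [dist_comm (F z) (f i z), dist_comm (f i z) (f i w)]
        linarith

/-- **Hurwitz**: a non constant locally uniform limit of injective holomorphic functions is injective -/
theorem hurwitz {ι : Type*} {l : Filter ι} [l.NeBot] {D : Set ℂ} (hD : IsOpen D) (hc : IsPreconnected D)
    {f : ι → ℂ → ℂ} {F : ℂ → ℂ} (hf : ∀ i, DifferentiableOn ℂ (f i) D) (hinj : ∀ i, InjOn (f i) D)
    (hlim : TendstoLocallyUniformlyOn f F l D) (hF : DifferentiableOn ℂ F D) {z0 : ℂ} (hz0 : z0 ∈ D)
    (hne : deriv F z0 ≠ 0) : InjOn F D := by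
  intro a ha b hb hab
  by_contra hne'
  have hA : AnalyticOnNhd ℂ F D := hF.analyticOnNhd hD
  have hAc : AnalyticOnNhd ℂ (fun _ : ℂ => F b) D := analyticOnNhd_const
  -- zeros are isolated
  have h1 : ∀ᶠ z in 𝓝[≠] b, F z ≠ F b := by
    rcases (hA b hb).eventually_eq_or_eventually_ne (hAc b hb) with h | h
    · exfalso
      have h2 : EqOn F (fun _ => F b) D := hA.eqOn_of_preconnected_of_eventuallyEq hAc hc hb h
      apply hne
      have h3 : F =ᶠ[𝓝 z0] fun _ => F b := by
        filter_upwards [hD.mem_nhds hz0] with z hz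
        exact h2 hz
      rw [h3.deriv_eq, deriv_const]
    · exact h
  rw [eventually_nhdsWithin_iff, Metric.eventually_nhds_iff_ball] at h1
  obtain ⟨r1, hr1, h1⟩ := h1
  obtain ⟨r2, hr2, h2⟩ := Metric.isOpen_iff.1 hD b hb
  have hab0 : 0 < dist a b := dist_pos.2 hne'
  set r : ℝ := min (min r1 r2) (dist a b) / 2 with hr
  have hr0 : 0 < r := by
    have : 0 < min (min r1 r2) (dist a b) := lt_min (lt_min hr1 hr2) hab0
    linarith
  have hrr1 : r < r1 := by
    have h3 : min (min r1 r2) (dist a b) ≤ r1 := (min_le_left _ _).trans (min_le_left _ _)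
    linarith
  have hrr2 : r < r2 := by
    have h3 : min (min r1 r2) (dist a b) ≤ r2 := (min_le_left _ _).trans (min_le_right _ _)
    linarith
  have hra : r < dist a b := by
    have h3 : min (min r1 r2) (dist a b) ≤ dist a b := min_le_right _ _
    linarith
  have hBD : closedBall b r ⊆ D := (closedBall_subset_ball hrr2).trans h2
  have haB : a ∉ closedBall b r := fun h => absurd (mem_closedBall.1 h) (not_le.2 hra)
  have hsph : IsCompact (sphere b r) := isCompact_sphere b r
  have hsphD : sphere b r ⊆ D := sphere_subset_closedBall.trans hBD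
  -- lower bound on the sphere
  obtain ⟨m, hm, hm2⟩ : ∃ m : ℝ, 0 < m ∧ ∀ z ∈ sphere b r, m ≤ ‖F z - F b‖ := by
    have hne2 : (sphere b r).Nonempty := NormedSpace.sphere_nonempty.2 hr0.le
    have hcont : ContinuousOn (fun z => ‖F z - F b‖) (sphere b r) :=
      ((hF.continuousOn.mono hsphD).sub continuousOn_const).norm
    obtain ⟨z, hz, hz2⟩ := hsph.exists_isMinOn hne2 hcont
    refine ⟨‖F z - F b‖, ?_, fun w hw => hz2 hw⟩
    rw [norm_pos_iff, sub_ne_zero]
    have h3 : z ≠ b := by
      rintro rfl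
      rw [mem_sphere, dist_self] at hz
      exact hr0.ne hz
    refine h1 z ?_ h3
    rw [mem_ball, mem_sphere.1 hz]
    exact hrr1
  have hunif := (tendstoLocallyUniformlyOn_iff_forall_isCompact hD).1 hlim _ hsphD hsph
  rw [Metric.tendstoUniformlyOn_iff] at hunif
  have e1 := hunif (m / 4) (by positivity)
  have e2 : ∀ᶠ i in l, dist (f i a) (F a) < m / 4 :=
    Metric.tendsto_nhds.1 (hlim.tendsto_at ha) _ (by positivity)
  have e3 : ∀ᶠ i in l, dist (f i b) (F b) < m / 4 :=
    Metric.tendsto_nhds.1 (hlim.tendsto_at hb) _ (by positivity)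
  obtain ⟨i, g1, g2, g3⟩ := (e1.and (e2.and e3)).exists
  -- the function `1 / (f i z - f i a)` violates the maximum principle
  have hnz : ∀ z ∈ closedBall b r, f i z - f i a ≠ 0 := by
    intro z hz h
    rw [sub_eq_zero] at h
    exact haB (hinj i (hBD hz) ha h ▸ hz)
  have hd : DiffContOnCl ℂ (fun z => (f i z - f i a)⁻¹) (ball b r) := by
    have h3 : DifferentiableOn ℂ (fun z => (f i z - f i a)⁻¹) (closedBall b r) :=
      (((hf i).mono hBD).sub_const _).inv hnz
    refine ⟨h3.mono ball_subset_closedBall, ?_⟩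
    rw [closure_ball b hr0.ne']
    exact h3.continuousOn
  have hbound : ∀ z ∈ frontier (ball b r), ‖(f i z - f i a)⁻¹‖ ≤ (m / 2)⁻¹ := by
    intro z hz
    rw [frontier_ball b hr0.ne'] at hz
    rw [norm_inv]
    apply inv_anti₀ (by positivity)
    have h3 := hm2 z hz
    have h4 := g1 z hz
    rw [dist_eq_norm] at h4 g2
    have h5 : F z - F b = (f i z - f i a) + (F z - f i z) + (f i a - F a) := by rw [hab]; ring
    have h6 : ‖F z - F b‖ ≤ ‖f i z - f i a‖ + ‖F z - f i z‖ + ‖f i a - F a‖ := by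
      rw [h5]; exact norm_add₃_le
    linarith
  have h7 := norm_le_of_forall_mem_frontier_norm_le isBounded_ball hd hbound
    (subset_closure (mem_ball_self hr0))
  rw [norm_inv] at h7
  have h8 : f i b - f i a ≠ 0 := hnz b (mem_closedBall_self hr0.le)
  have h9 : m / 2 ≤ ‖f i b - f i a‖ := by
    have h10 : 0 < ‖f i b - f i a‖ := norm_pos_iff.2 h8
    rwa [inv_le_inv₀ h10 (by positivity)] at h7
  have h11 : f i b - f i a = (f i b - F b) + (F a - f i a) := by rw [hab]; ring
  have h12 : ‖f i b - f i a‖ ≤ ‖f i b - F b‖ + ‖F a - f i a‖ := by rw [h11]; exact norm_add_le _ _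
  rw [dist_eq_norm] at g2 g3
  rw [norm_sub_rev] at g2
  linarith

/-- a continuous square root of a nonvanishing holomorphic function is holomorphic -/
theorem differentiableOn_root {D : Set ℂ} (hD : IsOpen D) {g s : ℂ → ℂ} (hg : DifferentiableOn ℂ g D)
    (hs : ContinuousOn s D) (h : ∀ z ∈ D, s z ^ 2 = g z) (h0 : ∀ z ∈ D, g z ≠ 0) :
    DifferentiableOn ℂ s D ∧ ∀ z ∈ D, deriv s z = deriv g z / (2 * s z) := by
  have key : ∀ z ∈ D, HasDerivAt s (deriv g z / (2 * s z)) z := by
    intro z hz
    have hsz : s z ≠ 0 := fun h1 => h0 z hz (by rw [← h z hz, h1]; norm_num)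
    have h1 : HasDerivAt g (deriv g z) z := (hg.differentiableAt (hD.mem_nhds hz)).hasDerivAt
    rw [hasDerivAt_iff_tendsto_slope] at h1 ⊢
    have hc : Tendsto s (𝓝[≠] z) (𝓝 (s z)) :=
      (hs.continuousAt (hD.mem_nhds hz)).tendsto.mono_left nhdsWithin_le_nhds
    have h2 : Tendsto (fun w => s w + s z) (𝓝[≠] z) (𝓝 (2 * s z)) := by
      have := hc.add_const (s z)
      rwa [← two_mul] at this
    have h3 : Tendsto (fun w => slope g z w / (s w + s z)) (𝓝[≠] z) (𝓝 (deriv g z / (2 * s z))) :=
      h1.div h2 (mul_ne_zero two_ne_zero hsz)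
    refine h3.congr' ?_
    have h4 : ∀ᶠ w in 𝓝[≠] z, s w + s z ≠ 0 := h2.eventually_ne (mul_ne_zero two_ne_zero hsz)
    filter_upwards [h4, mem_nhdsWithin_of_mem_nhds (hD.mem_nhds hz), self_mem_nhdsWithin]
      with w hw hwD hwz
    have h5 : w - z ≠ 0 := sub_ne_zero.2 hwz
    rw [slope_def_field, slope_def_field, ← h w hwD, ← h z hz]
    field_simp
    ring
  exact ⟨fun z hz => (key z hz).differentiableAt.differentiableWithinAt, fun z hz => (key z hz).deriv⟩

/-- the inverse of an injective holomorphic function is holomorphic -/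
theorem differentiableOn_inverse {D : Set ℂ} (hD : IsOpen D) (hc : IsPreconnected D) {F G : ℂ → ℂ}
    (hF : DifferentiableOn ℂ F D) (hinj : InjOn F D) (hnt : D.Nontrivial)
    (hG : ∀ z ∈ D, G (F z) = z) : IsOpen (F '' D) ∧ DifferentiableOn ℂ G (F '' D) := by
  have hA : AnalyticOnNhd ℂ F D := hF.analyticOnNhd hD
  have hopen : ∀ s ⊆ D, IsOpen s → IsOpen (F '' s) := by
    rcases hA.is_constant_or_isOpen hc with ⟨w, hw⟩ | h
    · exfalso
      obtain ⟨a, ha, b, hb, hab⟩ := hnt
      exact hab (hinj ha hb ((hw a ha).trans (hw b hb).symm))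
    · exact h
  have hcont : ∀ w ∈ F '' D, ContinuousAt G w := by
    rintro w ⟨z, hz, rfl⟩
    rw [ContinuousAt, hG z hz, _root_.tendsto_nhds]
    intro s hs hzs
    have h1 : IsOpen (F '' (s ∩ D)) := hopen _ inter_subset_right (hs.inter hD)
    refine mem_of_superset (h1.mem_nhds ⟨z, ⟨hzs, hz⟩, rfl⟩) ?_
    rintro _ ⟨y, hy, rfl⟩
    show G (F y) ∈ s
    rw [hG y hy.2]
    exact hy.1
  have hO := hopen D subset_rfl hD
  refine ⟨hO, ?_⟩
  -- differentiability at the points with nonzero derivative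
  have hd : ∀ z ∈ D, deriv F z ≠ 0 → DifferentiableAt ℂ G (F z) := by
    intro z hz hne
    have h1 : HasDerivAt F (deriv F z) (G (F z)) := by
      rw [hG z hz]; exact (hF.differentiableAt (hD.mem_nhds hz)).hasDerivAt
    refine (HasDerivAt.of_local_left_inverse (hcont _ (mem_image_of_mem F hz)) h1 hne ?_).differentiableAt
    filter_upwards [hO.mem_nhds (mem_image_of_mem F hz)] with y hy
    obtain ⟨x, hx, rfl⟩ := hy
    rw [hG x hx]
  rintro w ⟨z, hz, rfl⟩
  by_cases hne : deriv F z = 0
  · -- removable singularity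
    have hA' : AnalyticOnNhd ℂ (deriv F) D := hA.deriv
    have h1 : ∀ᶠ y in 𝓝[≠] z, deriv F y ≠ 0 := by
      rcases (hA' z hz).eventually_eq_zero_or_eventually_ne_zero with h | h
      · exfalso
        obtain ⟨r, hr, hr2⟩ := Metric.eventually_nhds_iff_ball.1 (h.and (hD.mem_nhds hz))
        have hconst : ∀ y ∈ ball z r, F y = F z := by
          intro y hy
          refine (convex_ball z r).is_const_of_fderivWithin_eq_zero (𝕜 := ℂ) (f := F)
            (hF.mono fun x hx => (hr2 x hx).2) ?_ hy (mem_ball_self hr)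
          intro x hx
          rw [fderivWithin_of_isOpen isOpen_ball hx]
          ext
          simp [(hr2 x hx).1]
        have h5 : z + r / 2 ∈ ball z r := by
          rw [mem_ball, dist_eq_norm, add_sub_cancel_left, norm_div, norm_real, Real.norm_eq_abs,
            abs_of_pos hr]
          norm_num
          exact hr
        have h6 := hinj (hr2 _ h5).2 hz (hconst _ h5)
        have h7 : (r : ℂ) / 2 = 0 := by linear_combination h6
        have h8 : (r : ℂ) = 0 := by linear_combination 2 * h7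
        exact hr.ne' (ofReal_eq_zero.1 h8)
      · exact h
    rw [eventually_nhdsWithin_iff, Metric.eventually_nhds_iff_ball] at h1
    obtain ⟨r, hr, h1⟩ := h1
    have h2 : IsOpen (F '' (ball z r ∩ D)) := hopen _ inter_subset_right (isOpen_ball.inter hD)
    have h3 : F z ∈ F '' (ball z r ∩ D) := mem_image_of_mem F ⟨mem_ball_self hr, hz⟩
    have h4 : DifferentiableOn ℂ G (F '' (ball z r ∩ D)) := by
      refine (differentiableOn_compl_singleton_and_continuousAt_iff (h2.mem_nhds h3)).1
        ⟨?_, hcont _ (mem_image_of_mem F hz)⟩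
      rintro y ⟨⟨x, hx, rfl⟩, hy⟩
      have h5 : x ≠ z := by
        rintro rfl; exact hy rfl
      exact (hd x hx.2 (h1 x hx.1 h5)).differentiableWithinAt
    exact (h4.differentiableAt (h2.mem_nhds h3)).differentiableWithinAt
  · exact (hd z hz hne).differentiableWithinAt

end Full.Jor
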