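import Mathlib

/-!
# Closed mod 2 cochains on a finite set of cells with connected complement are exact
-/

set_option autoImplicit false

open Finset

namespace Full.Jor

/-- the curl of the edge function `(h, v)` (horizontal and vertical edges, indexed by the lower left
vertex) around the cell with lower left corner `t` -/
def curl (h v : ℤ × ℤ → ZMod 2) (t : ℤ × ℤ) : ZMod 2 :=
  h t + v (t.1 + 1, t.2) + h (t.1, t.2 + 1) + v t

lemma two_zmod (a : ZMod 2) : a + a = 0 := CharTwo.add_self_eq_zero a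

/-- primitive of a function on `ℤ` with values in `ZMod 2` -/
lemma exists_prim (a : ℤ → ZMod 2) : ∃ A : ℤ → ZMod 2, A 0 = 0 ∧ ∀ n, A (n + 1) = A n + a n := by
  refine ⟨fun n => ∑ k ∈ Ico 0 n, a k + ∑ k ∈ Ico n 0, a k, by simp, fun n => ?_⟩
  rcases lt_or_ge n 0 with hn | hn
  · have h1 : Ico 0 (n + 1) = ∅ := Ico_eq_empty (by omega)
    have h2 : Ico 0 n = ∅ := Ico_eq_empty (by omega)
    have h3 : Ico n 0 = insert n (Ico (n + 1) 0) := by ext x; simp; omega
    have h4 : n ∉ Ico (n + 1) 0 := by simp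
    simp only [h1, h2, h3, sum_insert h4, sum_empty, zero_add]
    have := two_zmod (a n)
    linear_combination -this
  · have h1 : Ico (n + 1) 0 = ∅ := Ico_eq_empty (by omega)
    have h2 : Ico n 0 = ∅ := Ico_eq_empty (by omega)
    have h3 : Ico 0 (n + 1) = insert n (Ico 0 n) := by ext x; simp; omega
    have h4 : n ∉ Ico 0 n := by simp
    simp only [h1, h2, h3, sum_insert h4, sum_empty, add_zero]
    ring

/-- closed cochains of the plane are exact -/
lemma exact_plane {h v : ℤ × ℤ → ZMod 2} (hc : ∀ t, curl h v t = 0) :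
    ∃ c : ℤ × ℤ → ZMod 2, (∀ t, c (t.1 + 1, t.2) = c t + h t) ∧ (∀ t, c (t.1, t.2 + 1) = c t + v t) := by
  obtain ⟨H, hH0, hH⟩ := exists_prim (fun i => h (i, 0))
  choose V hV0 hV using fun i => exists_prim (fun j => v (i, j))
  refine ⟨fun t => H t.1 + V t.1 t.2, ?_, ?_⟩
  · rintro ⟨i, j⟩
    have key : ∀ j : ℤ, H (i + 1) + V (i + 1) j + (H i + V i j) + h (i, j) = 0 := by
      have step : ∀ j : ℤ, (H (i + 1) + V (i + 1) (j + 1) + (H i + V i (j + 1)) + h (i, j + 1)) +
          (H (i + 1) + V (i + 1) j + (H i + V i j) + h (i, j)) = 0 := by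
        intro j
        have h1 := hc (i, j)
        simp only [curl] at h1
        have h2 := hV (i + 1) j
        have h3 := hV i j
        have e1 := two_zmod (H (i + 1))
        have e2 := two_zmod (V (i + 1) j)
        have e3 := two_zmod (H i)
        have e4 := two_zmod (V i j)
        rw [h2, h3]
        linear_combination h1 + e1 + e2 + e3 + e4
      intro j
      induction j using Int.induction_on with
      | zero =>
        rw [hV0, hV0]
        have h1 := hH i
        have e1 := two_zmod (H i)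
        have e2 := two_zmod (h (i, 0))
        rw [h1]
        linear_combination e1 + e2
      | succ j ih =>
        have := step j
        rw [ih] at this
        simpa using this
      | pred j ih =>
        have := step (-j - 1)
        rw [sub_add_cancel, ih] at this
        simpa using this
    have h1 := key j
    have e1 := two_zmod (H i)
    have e2 := two_zmod (V i j)
    have e3 := two_zmod (h (i, j))
    show H (i + 1) + V (i + 1) j = H i + V i j + h (i, j)
    linear_combination h1 - e1 - e2 - e3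
  · rintro ⟨i, j⟩
    show H i + V i (j + 1) = H i + V i j + v (i, j)
    rw [hV]; ring

/-- neighbouring cells -/
def Nb (s t : ℤ × ℤ) : Prop :=
  (t.1 = s.1 + 1 ∧ t.2 = s.2) ∨ (s.1 = t.1 + 1 ∧ t.2 = s.2) ∨
  (t.1 = s.1 ∧ t.2 = s.2 + 1) ∨ (t.1 = s.1 ∧ s.2 = t.2 + 1)

/-- the horizontal edge starting at `p` does not belong to a cell of `T` -/
def OffH (T : Finset (ℤ × ℤ)) (p : ℤ × ℤ) : Prop := p ∉ T ∧ (p.1, p.2 - 1) ∉ T

/-- the vertical edge starting at `p` does not belong to a cell of `T` -/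
def OffV (T : Finset (ℤ × ℤ)) (p : ℤ × ℤ) : Prop := p ∉ T ∧ (p.1 - 1, p.2) ∉ T

/-- a cell outside `T` carries a cochain off the edges of `T` whose curl is concentrated there -/
def Src (T : Finset (ℤ × ℤ)) (t : ℤ × ℤ) : Prop :=
  ∃ h v : ℤ × ℤ → ZMod 2, (∀ p, ¬ OffH T p → h p = 0) ∧ (∀ p, ¬ OffV T p → v p = 0) ∧
    ∀ s, curl h v s = if s = t then 1 else 0

lemma src_far {T : Finset (ℤ × ℤ)} {t : ℤ × ℤ} (ht : ∀ s ∈ T, s.1 < t.1) : Src T t := by
  classical
  refine ⟨fun _ => 0, fun p => if p.2 = t.2 ∧ t.1 < p.1 then 1 else 0, fun _ _ => rfl, ?_, ?_⟩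
  · intro p hp
    show (if p.2 = t.2 ∧ t.1 < p.1 then (1 : ZMod 2) else 0) = 0
    rw [if_neg]
    rintro ⟨h1, h2⟩
    apply hp
    constructor
    · intro h3; have := ht _ h3; omega
    · intro h3; have := ht _ h3; simp at this; omega
  · intro s
    simp only [curl, zero_add, add_zero]
    by_cases h : s = t
    · subst h; simp
    · rw [if_neg h]
      by_cases h2 : s.2 = t.2
      · by_cases h3 : t.1 < s.1
        · rw [if_pos ⟨h2, by omega⟩, if_pos ⟨h2, h3⟩]; decide
        · rw [if_neg, if_neg]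
          · decide
          · rintro ⟨-, h5⟩; exact h3 h5
          · rintro ⟨-, h5⟩
            apply h
            have h6 : s.1 = t.1 := by omega
            exact Prod.ext h6 h2
      · rw [if_neg (fun h5 => h2 h5.1), if_neg (fun h5 => h2 h5.1)]; decide

lemma curl_flipV (h v : ℤ × ℤ → ZMod 2) (p q : ℤ × ℤ) :
    curl h (fun x => v x + if x = p then 1 else 0) q =
      curl h v q + (if q = p then 1 else 0) + (if q = (p.1 - 1, p.2) then 1 else 0) := by
  have h5 : (q.1 + 1, q.2) = p ↔ q = (p.1 - 1, p.2) := by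
    rw [Prod.ext_iff, Prod.ext_iff]
    show q.1 + 1 = p.1 ∧ q.2 = p.2 ↔ q.1 = p.1 - 1 ∧ q.2 = p.2
    omega
  simp only [curl, h5]
  ring

lemma curl_flipH (h v : ℤ × ℤ → ZMod 2) (p q : ℤ × ℤ) :
    curl (fun x => h x + if x = p then 1 else 0) v q =
      curl h v q + (if q = p then 1 else 0) + (if q = (p.1, p.2 - 1) then 1 else 0) := by
  have h5 : (q.1, q.2 + 1) = p ↔ q = (p.1, p.2 - 1) := by
    rw [Prod.ext_iff, Prod.ext_iff]
    show q.1 = p.1 ∧ q.2 + 1 = p.2 ↔ q.1 = p.1 ∧ q.2 = p.2 - 1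
    omega
  simp only [curl, h5]
  ring

lemma Src.flipV {T : Finset (ℤ × ℤ)} {s p : ℤ × ℤ} (h : Src T s) (hp : OffV T p) {t : ℤ × ℤ}
    (hst : (s = p ∧ t = (p.1 - 1, p.2)) ∨ (t = p ∧ s = (p.1 - 1, p.2))) : Src T t := by
  classical
  obtain ⟨h, v, h1, h2, h3⟩ := h
  have e1 : (1 : ZMod 2) + 1 = 0 := by decide
  have hne : (p.1 - 1, p.2) ≠ p := by
    intro h
    have := congrArg Prod.fst h
    simp at this
  refine ⟨h, fun x => v x + if x = p then 1 else 0, h1, ?_, ?_⟩
  · intro q hq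
    show v q + (if q = p then 1 else 0) = 0
    rw [h2 q hq, if_neg, zero_add]
    rintro rfl
    exact hq hp
  · intro q
    rw [curl_flipV, h3]
    rcases hst with ⟨rfl, rfl⟩ | ⟨rfl, rfl⟩
    · by_cases h6 : q = s
      · subst h6
        simp [e1, Ne.symm hne]
      · simp [h6]
    · by_cases h6 : q = (t.1 - 1, t.2)
      · subst h6
        simp [e1, hne]
      · simp [h6]

lemma Src.flipH {T : Finset (ℤ × ℤ)} {s p : ℤ × ℤ} (h : Src T s) (hp : OffH T p) {t : ℤ × ℤ}
    (hst : (s = p ∧ t = (p.1, p.2 - 1)) ∨ (t = p ∧ s = (p.1, p.2 - 1))) : Src T t := by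
  classical
  obtain ⟨h, v, h1, h2, h3⟩ := h
  have e1 : (1 : ZMod 2) + 1 = 0 := by decide
  have hne : (p.1, p.2 - 1) ≠ p := by
    intro h
    have := congrArg Prod.snd h
    simp at this
  refine ⟨fun x => h x + if x = p then 1 else 0, v, ?_, h2, ?_⟩
  · intro q hq
    show h q + (if q = p then 1 else 0) = 0
    rw [h1 q hq, if_neg, zero_add]
    rintro rfl
    exact hq hp
  · intro q
    rw [curl_flipH, h3]
    rcases hst with ⟨rfl, rfl⟩ | ⟨rfl, rfl⟩
    · by_cases h6 : q = s
      · subst h6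
        simp [e1, Ne.symm hne]
      · simp [h6]
    · by_cases h6 : q = (t.1, t.2 - 1)
      · subst h6
        simp [e1, hne]
      · simp [h6]

lemma Src.step {T : Finset (ℤ × ℤ)} {s t : ℤ × ℤ} (h : Src T s) (hs : s ∉ T) (ht : t ∉ T)
    (hst : Nb s t) : Src T t := by
  rcases hst with ⟨a, b⟩ | ⟨a, b⟩ | ⟨a, b⟩ | ⟨a, b⟩
  · have e : s = (t.1 - 1, t.2) := Prod.ext (by simp; omega) b.symm
    exact h.flipV (p := t) ⟨ht, by rw [← e]; exact hs⟩ (Or.inr ⟨rfl, e⟩)
  · have e : t = (s.1 - 1, s.2) := Prod.ext (by simp; omega) b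
    exact h.flipV (p := s) ⟨hs, by rw [← e]; exact ht⟩ (Or.inl ⟨rfl, e⟩)
  · have e : s = (t.1, t.2 - 1) := Prod.ext a.symm (by simp; omega)
    exact h.flipH (p := t) ⟨ht, by rw [← e]; exact hs⟩ (Or.inr ⟨rfl, e⟩)
  · have e : t = (s.1, s.2 - 1) := Prod.ext a (by simp; omega)
    exact h.flipH (p := s) ⟨hs, by rw [← e]; exact ht⟩ (Or.inl ⟨rfl, e⟩)

/-- the complement of `T` is connected: every cell outside `T` can be joined by cells outside `T` to a
cell to the right of `T` -/
def Out (T : Finset (ℤ × ℤ)) : Prop :=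
  ∀ t, t ∉ T → ∃ s, (∀ a ∈ T, a.1 < s.1) ∧ Relation.ReflTransGen (fun a b => a ∉ T ∧ b ∉ T ∧ Nb a b) s t

lemma src_all {T : Finset (ℤ × ℤ)} (hT : Out T) {t : ℤ × ℤ} (ht : t ∉ T) : Src T t := by
  obtain ⟨s, h1, h2⟩ := hT t ht
  induction h2 with
  | refl => exact src_far h1
  | tail _ h3 ih => exact Src.step (ih h3.1) h3.1 h3.2.1 h3.2.2

/-- **closed mod 2 cochains on `T` are exact** -/
theorem exact_cells {T : Finset (ℤ × ℤ)} (hT : Out T) {h v : ℤ × ℤ → ZMod 2}
    (hc : ∀ t ∈ T, curl h v t = 0) :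
    ∃ c : ℤ × ℤ → ZMod 2, (∀ t, ¬ OffH T t → c (t.1 + 1, t.2) = c t + h t) ∧
      (∀ t, ¬ OffV T t → c (t.1, t.2 + 1) = c t + v t) := by
  classical
  -- extension by zero
  set h' : ℤ × ℤ → ZMod 2 := fun p => if OffH T p then 0 else h p with hh'
  set v' : ℤ × ℤ → ZMod 2 := fun p => if OffV T p then 0 else v p with hv'
  have hc' : ∀ t ∈ T, curl h' v' t = 0 := by
    intro t ht
    rw [← hc t ht]
    have a1 : ¬ OffH T t := fun h => h.1 ht
    have a2 : ¬ OffV T (t.1 + 1, t.2) := fun h => h.2 (by simpa using ht)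
    have a3 : ¬ OffH T (t.1, t.2 + 1) := fun h => h.2 (by simpa using ht)
    have a4 : ¬ OffV T t := fun h => h.1 ht
    simp only [curl, hh', hv', if_neg a1, if_neg a2, if_neg a3, if_neg a4]
  -- the bad cells are finitely many
  set N : Finset (ℤ × ℤ) := T.biUnion (fun t => (Icc (t.1 - 2) (t.1 + 2)) ×ˢ (Icc (t.2 - 2) (t.2 + 2))) with hN
  have hNz : ∀ t, t ∉ N → curl h' v' t = 0 := by
    intro t ht
    have key : ∀ s : ℤ × ℤ, t.1 - 1 ≤ s.1 → s.1 ≤ t.1 + 1 → t.2 - 1 ≤ s.2 → s.2 ≤ t.2 + 1 → s ∉ T := by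
      intro s h1 h2 h3 h4 hs
      apply ht
      rw [hN, mem_biUnion]
      refine ⟨s, hs, ?_⟩
      rw [mem_product, mem_Icc, mem_Icc]
      omega
    have a1 : OffH T t := ⟨key _ (by omega) (by omega) (by omega) (by omega),
      key _ (by simp) (by simp) (by simp) (by simp; omega)⟩
    have a2 : OffV T (t.1 + 1, t.2) := ⟨key _ (by simp; omega) (by simp) (by simp) (by simp),
      key _ (by simp) (by simp) (by simp) (by simp)⟩
    have a3 : OffH T (t.1, t.2 + 1) := ⟨key _ (by simp) (by simp) (by simp; omega) (by simp),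
      key _ (by simp) (by simp) (by simp) (by simp)⟩
    have a4 : OffV T t := ⟨key _ (by omega) (by omega) (by omega) (by omega),
      key _ (by simp) (by simp; omega) (by simp) (by simp)⟩
    simp only [curl, hh', hv', if_pos a1, if_pos a2, if_pos a3, if_pos a4, add_zero]
  choose H V hH hV hcurl using fun t : {t // t ∉ T} => src_all hT t.2
  set B : Finset {t // t ∉ T} := (N.subtype (fun t => t ∉ T)).filter (fun t => curl h' v' t ≠ 0) with hB
  set h2 : ℤ × ℤ → ZMod 2 := fun p => h' p + ∑ t ∈ B, H t p with hh2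
  set v2 : ℤ × ℤ → ZMod 2 := fun p => v' p + ∑ t ∈ B, V t p with hv2
  have hc2 : ∀ s, curl h2 v2 s = 0 := by
    intro s
    have h5 : curl h2 v2 s = curl h' v' s + ∑ t ∈ B, curl (H t) (V t) s := by
      simp only [curl, hh2, hv2, sum_add_distrib]
      ring
    rw [h5]
    simp only [hcurl]
    by_cases hs : s ∈ T
    · rw [hc' s hs, zero_add]
      refine sum_eq_zero fun t _ => ?_
      rw [if_neg]
      intro h; exact t.2 (h ▸ hs)
    · by_cases hz : curl h' v' s = 0
      · rw [hz, zero_add]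
        refine sum_eq_zero fun t ht => ?_
        rw [if_neg]
        intro h
        rw [hB, mem_filter] at ht
        exact ht.2 (h ▸ hz)
      · have hsN : s ∈ N := by
          by_contra h; exact hz (hNz s h)
        have hsB : (⟨s, hs⟩ : {t // t ∉ T}) ∈ B := by
          rw [hB, mem_filter, mem_subtype]
          exact ⟨hsN, hz⟩
        rw [sum_eq_single_of_mem ⟨s, hs⟩ hsB]
        · rw [if_pos rfl]
          have : ∀ a : ZMod 2, a ≠ 0 → a + 1 = 0 := by decide
          exact this _ hz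
        · intro t _ ht
          rw [if_neg]
          intro h
          exact ht (Subtype.ext h.symm)
  obtain ⟨c, hc3, hc4⟩ := exact_plane hc2
  refine ⟨c, ?_, ?_⟩
  · intro t ht
    rw [hc3 t]
    have h6 : ∑ s ∈ B, H s t = 0 := sum_eq_zero fun s _ => hH s t ht
    simp only [hh2, h6, add_zero, hh', if_neg ht]
  · intro t ht
    rw [hc4 t]
    have h6 : ∑ s ∈ B, V s t = 0 := sum_eq_zero fun s _ => hV s t ht
    simp only [hv2, h6, add_zero, hv', if_neg ht]

end Full.Jor
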