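import Pool.Agent.Full.Jordan.Log
import Pool.Agent.Full.Jordan.Coch

/-!
# Square roots of nonvanishing functions on a bounded domain with connected complement
-/

set_option autoImplicit false

open Set Filter Topology Complex

namespace Full.Jor

/-- the closed unit square with lower left corner `t` -/
def Sq (t : ℤ × ℤ) : Set ℂ := {z | (t.1 : ℝ) ≤ z.re ∧ z.re ≤ t.1 + 1 ∧ (t.2 : ℝ) ≤ z.im ∧ z.im ≤ t.2 + 1}

lemma isClosed_Sq (t : ℤ × ℤ) : IsClosed (Sq t) := by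
  have h : Sq t = {z : ℂ | (t.1 : ℝ) ≤ z.re} ∩ ({z : ℂ | z.re ≤ (t.1 : ℝ) + 1} ∩
      ({z : ℂ | (t.2 : ℝ) ≤ z.im} ∩ {z : ℂ | z.im ≤ (t.2 : ℝ) + 1})) := rfl
  rw [h]
  exact (isClosed_le continuous_const continuous_re).inter
    ((isClosed_le continuous_re continuous_const).inter
      ((isClosed_le continuous_const continuous_im).inter (isClosed_le continuous_im continuous_const)))

lemma convex_Sq (t : ℤ × ℤ) : Convex ℝ (Sq t) := by
  intro x hx y hy a b ha hb hab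
  obtain ⟨h1, h2, h3, h4⟩ := hx
  obtain ⟨g1, g2, g3, g4⟩ := hy
  have e1 : (a • x + b • y).re = a * x.re + b * y.re := by simp
  have e2 : (a • x + b • y).im = a * x.im + b * y.im := by simp
  have hb' : b = 1 - a := by linarith
  subst hb'
  refine ⟨?_, ?_, ?_, ?_⟩ <;> simp only [e1, e2] <;> nlinarith

lemma exists_Sq (z : ℂ) : ∃ t, z ∈ Sq t :=
  ⟨(⌊z.re⌋, ⌊z.im⌋), Int.floor_le _, (Int.lt_floor_add_one _).le, Int.floor_le _,
    (Int.lt_floor_add_one _).le⟩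

lemma Sq_near {t : ℤ × ℤ} {z w : ℂ} (h : z ∈ Sq t) (hzw : ‖z - w‖ < 1) :
    t ∈ (Icc (⌊w.re⌋ - 2) (⌊w.re⌋ + 2) ×ˢ Icc (⌊w.im⌋ - 2) (⌊w.im⌋ + 2) : Set (ℤ × ℤ)) := by
  obtain ⟨h1, h2, h3, h4⟩ := h
  have a1 := abs_lt.1 (lt_of_le_of_lt (abs_re_le_norm (z - w)) hzw)
  have a2 := abs_lt.1 (lt_of_le_of_lt (abs_im_le_norm (z - w)) hzw)
  rw [sub_re] at a1
  rw [sub_im] at a2
  have b1 := Int.floor_le w.re
  have b2 := Int.lt_floor_add_one w.re
  have b3 := Int.floor_le w.im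
  have b4 := Int.lt_floor_add_one w.im
  refine ⟨⟨?_, ?_⟩, ⟨?_, ?_⟩⟩
  · have : ((⌊w.re⌋ : ℤ) : ℝ) - 2 ≤ t.1 := by linarith
    exact_mod_cast this
  · have : (t.1 : ℝ) ≤ ((⌊w.re⌋ : ℤ) : ℝ) + 2 := by linarith
    exact_mod_cast this
  · have : ((⌊w.im⌋ : ℤ) : ℝ) - 2 ≤ t.2 := by linarith
    exact_mod_cast this
  · have : (t.2 : ℝ) ≤ ((⌊w.im⌋ : ℤ) : ℝ) + 2 := by linarith
    exact_mod_cast this

lemma locallyFinite_Sq : LocallyFinite Sq := by
  intro w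
  refine ⟨Metric.ball w 1, Metric.ball_mem_nhds w one_pos, ?_⟩
  refine Set.Finite.subset ((finite_Icc (⌊w.re⌋ - 2) (⌊w.re⌋ + 2)).prod
    (finite_Icc (⌊w.im⌋ - 2) (⌊w.im⌋ + 2))) ?_
  rintro t ⟨z, hz1, hz2⟩
  rw [Metric.mem_ball, dist_eq_norm] at hz2
  exact Sq_near hz1 hz2

/-- the reachability relation outside `T` -/
def Reach (T : Finset (ℤ × ℤ)) : ℤ × ℤ → ℤ × ℤ → Prop :=
  Relation.ReflTransGen (fun a b => a ∉ T ∧ b ∉ T ∧ Nb a b)

lemma Nb.symm {a b : ℤ × ℤ} (h : Nb a b) : Nb b a := by unfold Nb at *; omega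

lemma Reach.symm {T : Finset (ℤ × ℤ)} {a b : ℤ × ℤ} (h : Reach T a b) : Reach T b a := by
  induction h with
  | refl => exact Relation.ReflTransGen.refl
  | tail _ h2 ih => exact Relation.ReflTransGen.head ⟨h2.2.1, h2.1, h2.2.2.symm⟩ ih

/-- two cells with a common point outside `D` are connected outside `T` -/
lemma reach_of_common {T : Finset (ℤ × ℤ)} {x : ℂ} (hT : ∀ t, x ∈ Sq t → t ∉ T) {t t' : ℤ × ℤ}
    (ht : x ∈ Sq t) (ht' : x ∈ Sq t') : Reach T t t' := by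
  have h0 : x ∈ Sq (t'.1, t.2) := ⟨ht'.1, ht'.2.1, ht.2.2.1, ht.2.2.2⟩
  have step1 : Reach T t (t'.1, t.2) := by
    by_cases h : t.1 = t'.1
    · have : (t'.1, t.2) = t := Prod.ext h.symm rfl
      rw [this]; exact Relation.ReflTransGen.refl
    · refine Relation.ReflTransGen.single ⟨hT t ht, hT _ h0, ?_⟩
      have a1 : (t.1 : ℝ) ≤ t'.1 + 1 := ht.1.trans ht'.2.1
      have a2 : (t'.1 : ℝ) ≤ t.1 + 1 := ht'.1.trans ht.2.1
      have a3 : t.1 ≤ t'.1 + 1 := by exact_mod_cast a1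
      have a4 : t'.1 ≤ t.1 + 1 := by exact_mod_cast a2
      unfold Nb
      rcases lt_or_gt_of_ne h with h5 | h5
      · exact Or.inl ⟨by simp only; omega, rfl⟩
      · exact Or.inr (Or.inl ⟨by simp only; omega, rfl⟩)
  have step2 : Reach T (t'.1, t.2) t' := by
    by_cases h : t.2 = t'.2
    · have : (t'.1, t.2) = t' := Prod.ext rfl h
      rw [this]; exact Relation.ReflTransGen.refl
    · refine Relation.ReflTransGen.single ⟨hT _ h0, hT t' ht', ?_⟩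
      have a1 : (t.2 : ℝ) ≤ t'.2 + 1 := ht.2.2.1.trans ht'.2.2.2
      have a2 : (t'.2 : ℝ) ≤ t.2 + 1 := ht'.2.2.1.trans ht.2.2.2
      have a3 : t.2 ≤ t'.2 + 1 := by exact_mod_cast a1
      have a4 : t'.2 ≤ t.2 + 1 := by exact_mod_cast a2
      unfold Nb
      rcases lt_or_gt_of_ne h with h5 | h5
      · exact Or.inr (Or.inr (Or.inl ⟨rfl, by simp only; omega⟩))
      · exact Or.inr (Or.inr (Or.inr ⟨rfl, by simp only; omega⟩))
  exact Relation.ReflTransGen.trans step1 step2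

lemma finite_cells {D : Set ℂ} (hb : Bornology.IsBounded D) : {t : ℤ × ℤ | Sq t ⊆ D}.Finite := by
  obtain ⟨R, hR⟩ := hb.subset_closedBall (0 : ℂ)
  refine Set.Finite.subset ((finite_Icc (⌊-R⌋ - 1) (⌈R⌉ + 1)).prod
    (finite_Icc (⌊-R⌋ - 1) (⌈R⌉ + 1))) ?_
  intro t ht
  have h1 : (⟨t.1, t.2⟩ : ℂ) ∈ Sq t := ⟨le_rfl, by simp, le_rfl, by simp⟩
  have h2 := hR (ht h1)
  rw [mem_closedBall_zero_iff] at h2
  have a1 := abs_le.1 ((abs_re_le_norm (⟨t.1, t.2⟩ : ℂ)).trans h2)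
  have a2 := abs_le.1 ((abs_im_le_norm (⟨t.1, t.2⟩ : ℂ)).trans h2)
  simp only at a1 a2
  have b1 := Int.floor_le (-R)
  have b2 := Int.le_ceil R
  refine ⟨⟨?_, ?_⟩, ⟨?_, ?_⟩⟩
  · have : ((⌊-R⌋ : ℤ) : ℝ) - 1 ≤ t.1 := by linarith
    exact_mod_cast this
  · have : (t.1 : ℝ) ≤ ((⌈R⌉ : ℤ) : ℝ) + 1 := by linarith
    exact_mod_cast this
  · have : ((⌊-R⌋ : ℤ) : ℝ) - 1 ≤ t.2 := by linarith
    exact_mod_cast this
  · have : (t.2 : ℝ) ≤ ((⌈R⌉ : ℤ) : ℝ) + 1 := by linarith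
    exact_mod_cast this

/-- the cells inside a bounded set -/
noncomputable def cells {D : Set ℂ} (hb : Bornology.IsBounded D) : Finset (ℤ × ℤ) :=
  (finite_cells hb).toFinset

lemma mem_cells {D : Set ℂ} (hb : Bornology.IsBounded D) {t : ℤ × ℤ} : t ∈ cells hb ↔ Sq t ⊆ D := by
  unfold cells
  rw [Set.Finite.mem_toFinset]
  rfl

/-- the cells inside a bounded set with connected complement have connected complement -/
theorem out_cells {D : Set ℂ} (hb : Bornology.IsBounded D) (hc : IsPreconnected Dᶜ) : Out (cells hb) := by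
  intro t ht
  rw [mem_cells, not_subset] at ht
  obtain ⟨x, hx1, hx2⟩ := ht
  obtain ⟨R, hR⟩ := hb.subset_closedBall (0 : ℂ)
  -- a far point
  obtain ⟨M, hM⟩ : ∃ M : ℤ, ∀ a ∈ cells hb, a.1 ≤ M := by
    obtain ⟨M, hM⟩ := ((cells hb).image Prod.fst).bddAbove
    exact ⟨M, fun a ha => hM (by
      rw [Finset.mem_coe, Finset.mem_image]; exact ⟨a, ha, rfl⟩)⟩
  set y : ℂ := ((max (R + 1) (M + 2) : ℝ) : ℂ) with hy
  have hyD : y ∈ Dᶜ := by
    intro h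
    have h1 := hR h
    rw [mem_closedBall_zero_iff, hy, norm_real, Real.norm_eq_abs] at h1
    have h2 := le_max_left (R + 1) ((M : ℝ) + 2)
    have h3 := le_abs_self (max (R + 1) ((M : ℝ) + 2))
    linarith
  obtain ⟨s, hs⟩ := exists_Sq y
  have hout : ∀ x ∈ Dᶜ, ∀ t, x ∈ Sq t → t ∉ cells hb := by
    intro x hx t ht h
    rw [mem_cells] at h
    exact hx (h ht)
  refine ⟨s, ?_, ?_⟩
  · intro a ha
    have h1 := hs.2.1
    rw [hy, ofReal_re] at h1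
    have h2 := le_max_right (R + 1) ((M : ℝ) + 2)
    have h3 : (M : ℝ) + 1 ≤ s.1 := by linarith
    have h4 : M + 1 ≤ s.1 := by exact_mod_cast h3
    have := hM a ha
    omega
  · have key : ∀ t t', y ∈ Sq t → x ∈ Sq t' → Reach (cells hb) t t' := by
      refine hc.induction₂ (fun a b => ∀ t t', a ∈ Sq t → b ∈ Sq t' → Reach (cells hb) t t')
        ?_ ?_ ?_ hyD hx2
      · intro a ha
        have h1 := locallyFinite_Sq.eventually_subset isClosed_Sq a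
        filter_upwards [mem_nhdsWithin_of_mem_nhds h1] with b hb1 t t' ht ht'
        exact reach_of_common (hout a ha) ht (hb1 ht')
      · intro a b c _ _ _ h1 h2 t t' ht ht'
        obtain ⟨t'', ht''⟩ := exists_Sq b
        exact Relation.ReflTransGen.trans (h1 t t'' ht ht'') (h2 t'' t' ht'' ht')
      · intro a b _ _ h t t' ht ht'
        exact (h t' t ht' ht).symm
    exact key s t hs hx1

/-- the function has a continuous square root on `K` -/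
def HasRoot (K : Set ℂ) (f : ℂ → ℂ) : Prop :=
  ∃ s : ℂ → ℂ, ContinuousOn s K ∧ ∀ z ∈ K, s z ^ 2 = f z

lemma HasRoot.mono {K K' : Set ℂ} {f : ℂ → ℂ} (h : HasRoot K f) (hK : K' ⊆ K) : HasRoot K' f := by
  obtain ⟨g, h1, h2⟩ := h
  exact ⟨g, h1.mono hK, fun z hz => h2 z (hK hz)⟩

lemma HasLog.hasRoot {K : Set ℂ} {f : ℂ → ℂ} (h : HasLog K f) : HasRoot K f := by
  obtain ⟨g, h1, h2⟩ := h
  refine ⟨fun z => exp (g z / 2), ?_, ?_⟩
  · exact continuous_exp.comp_continuousOn (h1.div_const 2)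
  · intro z hz
    rw [← exp_nat_mul, ← h2 z hz]
    congr 1
    push_cast
    ring

/-- uniqueness of square roots on connected sets -/
lemma root_unique {K : Set ℂ} (hK : IsPreconnected K) {f g : ℂ → ℂ} (hf : ContinuousOn f K)
    (hg : ContinuousOn g K) (hsq : ∀ z ∈ K, f z ^ 2 = g z ^ 2) (h0 : ∀ z ∈ K, g z ≠ 0) {a : ℂ}
    (ha : a ∈ K) (hfg : f a = g a) : ∀ z ∈ K, f z = g z := by
  have h := hK.eq_of_sq_eq hf hg (fun z hz => hsq z hz) (fun {z} hz => h0 z hz) ha hfg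
  exact fun z hz => h hz

/-- the position of a vertex -/
def pt (p : ℤ × ℤ) : ℂ := ⟨p.1, p.2⟩

/-- corners of a cell -/
def Cor (t p : ℤ × ℤ) : Prop := (p.1 = t.1 ∨ p.1 = t.1 + 1) ∧ (p.2 = t.2 ∨ p.2 = t.2 + 1)

lemma pt_mem {t p : ℤ × ℤ} (h : Cor t p) : pt p ∈ Sq t := by
  obtain ⟨h1, h2⟩ := h
  unfold Sq pt
  rcases h1 with h1 | h1 <;> rcases h2 with h2 | h2 <;>
    simp [h1, h2]

/-- signs -/
def sg (a : ZMod 2) : ℂ := if a = 0 then 1 else -1

lemma sg_add (a b : ZMod 2) : sg (a + b) = sg a * sg b := by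
  have h1 : ∀ a : ZMod 2, a = 0 ∨ a = 1 := by decide
  have e : (1 : ZMod 2) + 1 = 0 := by decide
  rcases h1 a with rfl | rfl <;> rcases h1 b with rfl | rfl <;> simp [sg, e]

lemma sg_sq (a : ZMod 2) : sg a ^ 2 = 1 := by
  unfold sg
  split_ifs <;> simp

lemma sg_ne (a : ZMod 2) : sg a ≠ 0 := by
  unfold sg
  split_ifs <;> simp

lemma sg_inj {a b : ZMod 2} (h : sg a = sg b) : a = b := by
  have h1 : ∀ a : ZMod 2, a = 0 ∨ a = 1 := by decide
  have h2 : (1 : ℂ) ≠ -1 := by norm_num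
  rcases h1 a with rfl | rfl <;> rcases h1 b with rfl | rfl <;> simp [sg] at h ⊢
  · exact h2 h
  · exact h2 h.symm

/-- two intersecting cells have a common corner in the intersection -/
lemma common_corner {t t' : ℤ × ℤ} {z : ℂ} (h : z ∈ Sq t) (h' : z ∈ Sq t') :
    ∃ p, Cor t p ∧ Cor t' p := by
  have a1 : (t.1 : ℝ) ≤ t'.1 + 1 := h.1.trans h'.2.1
  have a2 : (t'.1 : ℝ) ≤ t.1 + 1 := h'.1.trans h.2.1
  have a3 : t.1 ≤ t'.1 + 1 := by exact_mod_cast a1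
  have a4 : t'.1 ≤ t.1 + 1 := by exact_mod_cast a2
  have b1 : (t.2 : ℝ) ≤ t'.2 + 1 := h.2.2.1.trans h'.2.2.2
  have b2 : (t'.2 : ℝ) ≤ t.2 + 1 := h'.2.2.1.trans h.2.2.2
  have b3 : t.2 ≤ t'.2 + 1 := by exact_mod_cast b1
  have b4 : t'.2 ≤ t.2 + 1 := by exact_mod_cast b2
  refine ⟨(max t.1 t'.1, max t.2 t'.2), ?_, ?_⟩
  · constructor <;> simp only <;> omega
  · constructor <;> simp only <;> omega

end Full.Jor
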