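import Mathlib

/-!
# The length-area principle: arbitrarily small circular crosscuts with small images
-/

set_option autoImplicit false

open Set Filter Topology Metric MeasureTheory

namespace Full.Jordan

open scoped ENNReal

/-- the area formula for an injective holomorphic function on the disc -/
lemma area_formula {f : ℂ → ℂ} (hf : DifferentiableOn ℂ f (ball 0 1)) (hi : InjOn f (ball 0 1)) :
    ∫⁻ z in ball (0:ℂ) 1, ENNReal.ofReal (‖deriv f z‖ ^ 2) = volume (f '' ball 0 1) := by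
  rw [← lintegral_abs_det_fderiv_eq_addHaar_image volume measurableSet_ball
    (f' := fun z => (ContinuousLinearMap.toSpanSingleton ℂ (deriv f z)).restrictScalars ℝ)
    (fun z hz => ((hf.differentiableAt (isOpen_ball.mem_nhds
      hz)).hasDerivAt.hasFDerivAt.restrictScalars ℝ).hasFDerivWithinAt) hi]
  refine lintegral_congr fun z => ?_
  congr 1
  have h1 : ((ContinuousLinearMap.toSpanSingleton ℂ (deriv f z)).restrictScalars ℝ).det =
      ‖deriv f z‖ ^ 2 := by
    simp [ContinuousLinearMap.det, LinearMap.det_restrictScalars,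
      Algebra.norm_complex_eq, Complex.normSq_eq_norm_sq]
  rw [h1, abs_of_nonneg (by positivity)]

/-- integration in polar coordinates around the point `1` -/
lemma polar_one (g : ℂ → ℝ≥0∞) (hg : Measurable g) :
    ∫⁻ z, g z = ∫⁻ r in Ioi (0:ℝ), ENNReal.ofReal r *
      ∫⁻ t in Ioo (-Real.pi) Real.pi, g (1 - r * Complex.exp (t * Complex.I)) := by
  have h1 : ∫⁻ z, g z = ∫⁻ z, g (1 - z) := (lintegral_sub_left_eq_self g 1).symm
  rw [h1, ← Complex.lintegral_comp_polarCoord_symm]
  have h2 : polarCoord.target = Ioi (0:ℝ) ×ˢ Ioo (-Real.pi) Real.pi := rfl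
  have hm : Measurable fun p : ℝ × ℝ => ENNReal.ofReal p.1 • g (1 - Complex.polarCoord.symm p) := by
    have hc : Continuous fun p : ℝ × ℝ => (1:ℂ) - Complex.polarCoord.symm p := by
      simp only [Complex.polarCoord_symm_apply]
      fun_prop
    exact (measurable_fst.ennreal_ofReal).mul (hg.comp hc.measurable)
  rw [h2, Measure.volume_eq_prod, setLIntegral_prod _ hm.aemeasurable]
  refine setLIntegral_congr_fun measurableSet_Ioi fun r _ => ?_
  simp only [smul_eq_mul, Complex.polarCoord_symm_apply]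
  rw [lintegral_const_mul']
  · congr 1
    refine lintegral_congr fun t => ?_
    rw [Complex.exp_mul_I, Complex.ofReal_cos, Complex.ofReal_sin]
  · exact ENNReal.ofReal_ne_top

/-- `1/r` is not integrable at `0` -/
lemma lintegral_inv_top {c r₁ : ℝ} (hc : 0 < c) (hr₁ : 0 < r₁) :
    ∫⁻ r in Ioo (0:ℝ) r₁, ENNReal.ofReal (c / r) = ⊤ := by
  by_contra hne
  have h1 : IntegrableOn (fun r : ℝ => c / r) (Ioo 0 r₁) := by
    refine ⟨(measurable_const.div measurable_id).aestronglyMeasurable, ?_⟩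
    rw [hasFiniteIntegral_iff_ofReal]
    · exact lt_top_iff_ne_top.2 hne
    · refine (ae_restrict_iff' measurableSet_Ioo).2 (Eventually.of_forall fun r hr => ?_)
      exact div_nonneg hc.le hr.1.le
  have h2 : IntegrableOn (fun r : ℝ => r ^ (-1:ℝ)) (Ioo 0 r₁) := by
    have h3 : IntegrableOn (fun r : ℝ => c⁻¹ * (c / r)) (Ioo 0 r₁) := h1.const_mul _
    refine h3.congr_fun (fun r hr => ?_) measurableSet_Ioo
    simp only
    rw [Real.rpow_neg_one]
    have := hr.1.ne'
    field_simp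
  rw [intervalIntegral.integrableOn_Ioo_rpow_iff hr₁] at h2
  exact lt_irrefl _ h2

/-- there are arbitrarily small radii with small energy on the circle -/
lemma exists_radius {f : ℂ → ℂ} (hf : DifferentiableOn ℂ f (ball 0 1)) (hi : InjOn f (ball 0 1))
    (hb : Bornology.IsBounded (f '' ball 0 1)) {c r₀ : ℝ} (hc : 0 < c) (hr₀ : 0 < r₀) :
    ∃ r, 0 < r ∧ r < r₀ ∧ ENNReal.ofReal (r ^ 2) * ∫⁻ t in Ioo (-Real.pi) Real.pi,
      (ball (0:ℂ) 1).indicator (fun z => ENNReal.ofReal (‖deriv f z‖ ^ 2))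
        (1 - r * Complex.exp (t * Complex.I)) < ENNReal.ofReal c := by
  by_contra hcon
  push Not at hcon
  set g : ℂ → ℝ≥0∞ := (ball (0:ℂ) 1).indicator (fun z => ENNReal.ofReal (‖deriv f z‖ ^ 2)) with hg
  have hgm : Measurable g :=
    (((measurable_deriv f).norm.pow_const 2).ennreal_ofReal).indicator measurableSet_ball
  have h1 : ∫⁻ z, g z = volume (f '' ball 0 1) := by
    rw [hg, lintegral_indicator measurableSet_ball, area_formula hf hi]
  have h2 : volume (f '' ball 0 1) < ⊤ := hb.measure_lt_top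
  rw [← h1, polar_one g hgm] at h2
  have h3 : ∫⁻ r in Ioo (0:ℝ) r₀, ENNReal.ofReal (c / r) ≤ ∫⁻ r in Ioi (0:ℝ), ENNReal.ofReal r *
      ∫⁻ t in Ioo (-Real.pi) Real.pi, g (1 - r * Complex.exp (t * Complex.I)) := by
    refine le_trans ?_ (lintegral_mono_set (fun r hr => hr.1 : Ioo (0:ℝ) r₀ ⊆ Ioi 0))
    refine setLIntegral_mono' measurableSet_Ioo fun r hr => ?_
    have h4 := hcon r hr.1 hr.2
    have h5 : ENNReal.ofReal (c / r) = ENNReal.ofReal (1 / r) * ENNReal.ofReal c := by
      rw [← ENNReal.ofReal_mul (by have := hr.1; positivity)]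
      congr 1; ring
    have h6 : ENNReal.ofReal r = ENNReal.ofReal (1 / r) * ENNReal.ofReal (r ^ 2) := by
      rw [← ENNReal.ofReal_mul (by have := hr.1; positivity)]
      congr 1
      have := hr.1.ne'
      field_simp
    rw [h5, h6, mul_assoc]
    gcongr
  rw [lintegral_inv_top hc hr₀] at h3
  exact absurd h2 (not_lt.2 h3)

lemma norm_one_sub_lt {r t : ℝ} (hr : 0 < r) :
    ‖1 - r * Complex.exp (t * Complex.I)‖ < 1 ↔ r < 2 * Real.cos t := by
  have h1 : ‖1 - r * Complex.exp (t * Complex.I)‖ ^ 2 = 1 - 2 * r * Real.cos t + r ^ 2 := by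
    rw [← Complex.normSq_eq_norm_sq, Complex.normSq_apply]
    have e1 : (1 - r * Complex.exp (t * Complex.I)).re = 1 - r * Real.cos t := by
      simp [Complex.exp_ofReal_mul_I_re]
    have e2 : (1 - r * Complex.exp (t * Complex.I)).im = - (r * Real.sin t) := by
      simp [Complex.exp_ofReal_mul_I_im]
    rw [e1, e2]
    have := Real.sin_sq_add_cos_sq t
    nlinarith
  constructor
  · intro h
    have h2 : ‖1 - r * Complex.exp (t * Complex.I)‖ ^ 2 < 1 := by
      nlinarith [norm_nonneg (1 - r * Complex.exp (t * Complex.I))]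
    nlinarith
  · intro h
    have h2 : ‖1 - r * Complex.exp (t * Complex.I)‖ ^ 2 < 1 := by nlinarith
    nlinarith [norm_nonneg (1 - r * Complex.exp (t * Complex.I))]

lemma circ_bound {f : ℂ → ℂ} (hf : DifferentiableOn ℂ f (ball 0 1)) {r η a b : ℝ} (hr : 0 < r)
    (hη : 0 < η) (hab : a ≤ b) (ha : -(Real.pi / 2) < a) (hb : b < Real.pi / 2)
    (ha1 : r < 2 * Real.cos a) (hb1 : r < 2 * Real.cos b)
    (hE : ENNReal.ofReal (r ^ 2) * ∫⁻ t in Ioo (-Real.pi) Real.pi,
      (ball (0:ℂ) 1).indicator (fun z => ENNReal.ofReal (‖deriv f z‖ ^ 2))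
        (1 - r * Complex.exp (t * Complex.I)) < ENNReal.ofReal (η ^ 2 / 4)) :
    ‖f (1 - r * Complex.exp (b * Complex.I)) - f (1 - r * Complex.exp (a * Complex.I))‖ ≤ η := by
  set γ : ℝ → ℂ := fun t => 1 - r * Complex.exp (t * Complex.I) with hγ
  have hin : ∀ t ∈ Icc a b, γ t ∈ ball (0:ℂ) 1 := by
    intro t ht
    rw [mem_ball_zero_iff]
    refine (norm_one_sub_lt hr).2 ?_
    have h1 := strictConcaveOn_cos_Icc.concaveOn.min_le_of_mem_Icc (x := a) (y := b) (z := t)
      ⟨ha.le, by linarith⟩ ⟨by linarith, hb.le⟩ ht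
    rcases min_choice (Real.cos a) (Real.cos b) with h2 | h2 <;> rw [h2] at h1 <;> linarith
  set F' : ℝ → ℂ := fun t => deriv f (γ t) * (-(r * (Complex.exp (t * Complex.I) * Complex.I)))
    with hF'
  have hγd : ∀ t : ℝ, HasDerivAt γ (-(r * (Complex.exp (t * Complex.I) * Complex.I))) t := by
    intro t
    have h1 : HasDerivAt (fun t : ℝ => (t:ℂ) * Complex.I) Complex.I t := by
      simpa using (Complex.ofRealCLM.hasDerivAt (x := t)).mul_const Complex.I
    exact ((h1.cexp).const_mul (r:ℂ)).const_sub 1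
  have hFd : ∀ t ∈ Icc a b, HasDerivAt (fun t => f (γ t)) (F' t) t := by
    intro t ht
    exact ((hf.differentiableAt (isOpen_ball.mem_nhds (hin t ht))).hasDerivAt).comp_of_eq t
      (hγd t) rfl |>.congr_deriv rfl
  have hdc : ContinuousOn (deriv f) (ball 0 1) := (hf.deriv isOpen_ball).continuousOn
  have hγc : Continuous γ := by simp only [hγ]; fun_prop
  have hF'c : ContinuousOn F' (Icc a b) := by
    refine (hdc.comp hγc.continuousOn hin).mul ?_
    fun_prop
  have hnorm : ∀ t, ‖F' t‖ = r * ‖deriv f (γ t)‖ := by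
    intro t
    simp only [hF', norm_mul, norm_neg, Complex.norm_I, mul_one, Complex.norm_exp_ofReal_mul_I,
      Complex.norm_real, Real.norm_of_nonneg hr.le]
    ring
  -- the energy
  have hA : ∫ t in a..b, ‖F' t‖ ^ 2 ≤ η ^ 2 / 4 := by
    have hint : IntegrableOn (fun t => ‖F' t‖ ^ 2) (Ioc a b) :=
      ((hF'c.norm.pow 2).integrableOn_Icc).mono_set Ioc_subset_Icc_self
    rw [intervalIntegral.integral_of_le hab]
    have h1 : ENNReal.ofReal (∫ t in Ioc a b, ‖F' t‖ ^ 2) ≤ ENNReal.ofReal (η ^ 2 / 4) := by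
      rw [ofReal_integral_eq_lintegral_ofReal hint (Eventually.of_forall fun t => by positivity)]
      refine le_trans ?_ hE.le
      have h2 : ∫⁻ t in Ioc a b, ENNReal.ofReal (‖F' t‖ ^ 2) = ENNReal.ofReal (r ^ 2) *
          ∫⁻ t in Ioc a b, (ball (0:ℂ) 1).indicator (fun z => ENNReal.ofReal (‖deriv f z‖ ^ 2))
            (γ t) := by
        rw [← lintegral_const_mul' _ _ ENNReal.ofReal_ne_top]
        refine setLIntegral_congr_fun measurableSet_Ioc fun t ht => ?_
        rw [indicator_of_mem (hin t (Ioc_subset_Icc_self ht)), ← ENNReal.ofReal_mul (by positivity),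
          hnorm]
        congr 1; ring
      rw [h2]
      gcongr
      exact fun t ht => ⟨by linarith [ht.1, Real.pi_pos], by linarith [ht.2, Real.pi_pos]⟩
    exact (ENNReal.ofReal_le_ofReal_iff (by positivity)).1 h1
  have hint1 : IntervalIntegrable F' volume a b := by
    refine ContinuousOn.intervalIntegrable ?_
    rwa [uIcc_of_le hab]
  have hint2 : IntervalIntegrable (fun t => ‖F' t‖) volume a b := hint1.norm
  have hint3 : IntervalIntegrable (fun t => ‖F' t‖ ^ 2) volume a b := by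
    refine ContinuousOn.intervalIntegrable ?_
    rw [uIcc_of_le hab]
    exact hF'c.norm.pow 2
  have hsub := intervalIntegral.integral_eq_sub_of_hasDerivAt (f := fun t => f (γ t)) (f' := F')
    (a := a) (b := b) (by rw [uIcc_of_le hab]; exact hFd) hint1
  rw [← hsub]
  refine (intervalIntegral.norm_integral_le_integral_norm hab).trans ?_
  have h4 : ∫ t in a..b, ‖F' t‖ ≤ ∫ t in a..b, (η / 8 + 2 / η * ‖F' t‖ ^ 2) := by
    refine intervalIntegral.integral_mono_on hab hint2
      (intervalIntegrable_const.add (hint3.const_mul _)) fun t _ => ?_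
    have h5 : 0 ≤ (‖F' t‖ - η / 4) ^ 2 := sq_nonneg _
    have h6 : ‖F' t‖ ≤ η / 8 + 2 / η * ‖F' t‖ ^ 2 := by
      have : η / 8 + 2 / η * ‖F' t‖ ^ 2 - ‖F' t‖ = 2 / η * (‖F' t‖ - η / 4) ^ 2 := by
        field_simp
        ring
      have h7 : 0 ≤ 2 / η * (‖F' t‖ - η / 4) ^ 2 := by positivity
      linarith
    exact h6
  refine h4.trans ?_
  rw [intervalIntegral.integral_add intervalIntegrable_const (hint3.const_mul _),
    intervalIntegral.integral_const, intervalIntegral.integral_const_mul, smul_eq_mul]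
  have h8 : (b - a) * (η / 8) ≤ 4 * (η / 8) := by
    gcongr
    linarith [Real.pi_lt_four]
  have h9 : 2 / η * ∫ t in a..b, ‖F' t‖ ^ 2 ≤ 2 / η * (η ^ 2 / 4) := by gcongr
  have h10 : 2 / η * (η ^ 2 / 4) = η / 2 := by field_simp; ring
  linarith

/-- **Small circular crosscuts.** -/
theorem small_circle {f : ℂ → ℂ} (hf : DifferentiableOn ℂ f (ball 0 1))
    (hi : InjOn f (ball 0 1)) (hb : Bornology.IsBounded (f '' ball 0 1)) {η r₀ : ℝ} (hη : 0 < η)
    (hr₀ : 0 < r₀) : ∃ r, 0 < r ∧ r < r₀ ∧ ∀ z ∈ ball (0:ℂ) 1, ∀ z' ∈ ball (0:ℂ) 1,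
      dist z 1 = r → dist z' 1 = r → dist (f z) (f z') ≤ η := by
  obtain ⟨r, hr, hrr, hE⟩ := exists_radius hf hi hb (c := η ^ 2 / 4) (by positivity) hr₀
  refine ⟨r, hr, hrr, ?_⟩
  have key : ∀ z ∈ ball (0:ℂ) 1, dist z 1 = r → ∃ a : ℝ, -(Real.pi / 2) < a ∧ a < Real.pi / 2 ∧
      r < 2 * Real.cos a ∧ z = 1 - r * Complex.exp (a * Complex.I) := by
    intro z hz hzr
    have h1 : z = 1 - r * Complex.exp (Complex.arg (1 - z) * Complex.I) := by
      have h2 := Complex.norm_mul_exp_arg_mul_I (1 - z)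
      have h3 : ‖1 - z‖ = r := by rw [← dist_eq_norm, dist_comm, hzr]
      rw [h3] at h2
      rw [h2]; ring
    have h4 : 0 < (1 - z).re := by
      rw [mem_ball_zero_iff] at hz
      have := Complex.re_le_norm z
      simp only [Complex.sub_re, Complex.one_re]
      linarith
    have h5 := Complex.abs_arg_lt_pi_div_two_iff.2 (Or.inl h4)
    rw [abs_lt] at h5
    refine ⟨_, h5.1, h5.2, ?_, h1⟩
    refine (norm_one_sub_lt hr).1 ?_
    rw [← h1]
    rwa [mem_ball_zero_iff] at hz
  intro z hz z' hz' hzr hzr'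
  obtain ⟨a, a1, a2, a3, rfl⟩ := key z hz hzr
  obtain ⟨b, b1, b2, b3, rfl⟩ := key z' hz' hzr'
  rcases le_total a b with hab | hab
  · rw [dist_comm, dist_eq_norm]
    exact circ_bound hf hr hη hab a1 b2 a3 b3 hE
  · rw [dist_eq_norm]
    exact circ_bound hf hr hη hab b1 a2 b3 a3 hE

end Full.Jordan
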