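import Mathlib

/-!
# Separation in the plane by logarithms (Eilenberg, Janiszewski)
-/

set_option autoImplicit false

open Set Filter Topology Metric

namespace Full.Jordan

lemma eq_of_exp_one {a b : ℂ} (ha : Complex.exp a = 1) (hb : Complex.exp b = 1)
    (h : ‖a - b‖ < 1) : a = b := by
  obtain ⟨n, hn⟩ := Complex.exp_eq_one_iff.1 ha
  obtain ⟨m, hm⟩ := Complex.exp_eq_one_iff.1 hb
  have h1 : a - b = ((n - m : ℤ) : ℂ) * (2 * Real.pi * Complex.I) := by
    rw [hn, hm]; push_cast; ring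
  rcases eq_or_ne n m with h2 | h2
  · rw [hn, hm, h2]
  · exfalso
    rw [h1, norm_mul, norm_mul, norm_mul, Complex.norm_I, Complex.norm_intCast, mul_one] at h
    have h3 : (1:ℝ) ≤ |((n - m : ℤ) : ℝ)| := by
      have : (1:ℤ) ≤ |n - m| := Int.one_le_abs (sub_ne_zero.2 h2)
      exact_mod_cast this
    have h4 : ‖(Real.pi : ℂ)‖ = Real.pi := by
      rw [Complex.norm_real, Real.norm_of_nonneg Real.pi_pos.le]
    rw [h4, Complex.norm_ofNat] at h
    nlinarith [Real.pi_gt_three]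

/-- a continuous function on a preconnected set with `exp = 1` is constant -/
lemma const_of_exp_one {X : Type*} [TopologicalSpace X] {S : Set X} (hS : IsPreconnected S)
    {u : X → ℂ} (hu : ContinuousOn u S) (h : ∀ x ∈ S, Complex.exp (u x) = 1) {x y : X}
    (hx : x ∈ S) (hy : y ∈ S) : u x = u y := by
  refine hS.induction₂ (fun x y => u x = u y) ?_ (fun x y z _ _ _ h1 h2 => h1.trans h2)
    (fun x y _ _ h => h.symm) hx hy
  intro x hx
  have h1 := (hu x hx)
  have h2 : ∀ᶠ y in 𝓝[S] x, dist (u y) (u x) < 1 := h1 (ball_mem_nhds _ one_pos)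
  filter_upwards [h2, self_mem_nhdsWithin] with y hy hyS
  rw [dist_comm, dist_eq_norm] at hy
  exact eq_of_exp_one (h x hx) (h y hyS) hy

/-- `(z - p) / (z - q)` has a continuous logarithm on `K` -/
def HasLog (K : Set ℂ) (p q : ℂ) : Prop :=
  ∃ φ : ℂ → ℂ, ContinuousOn φ K ∧ ∀ z ∈ K, z ≠ q ∧ z - p = (z - q) * Complex.exp (φ z)

lemma HasLog.mono {K K' : Set ℂ} {p q : ℂ} (h : HasLog K p q) (hK : K' ⊆ K) : HasLog K' p q := by
  obtain ⟨φ, h1, h2⟩ := h
  exact ⟨φ, h1.mono hK, fun z hz => h2 z (hK hz)⟩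

lemma HasLog.symm {K : Set ℂ} {p q : ℂ} (h : HasLog K p q) : HasLog K q p := by
  obtain ⟨φ, h1, h2⟩ := h
  refine ⟨fun z => -φ z, h1.neg, fun z hz => ?_⟩
  obtain ⟨h3, h4⟩ := h2 z hz
  constructor
  · intro h5
    rw [h5, sub_self] at h4
    exact (mul_ne_zero (sub_ne_zero.2 (h5 ▸ h3)) (Complex.exp_ne_zero _)) h4.symm
  · rw [h4, mul_assoc, ← Complex.exp_add, add_neg_cancel, Complex.exp_zero, mul_one]

lemma HasLog.trans {K : Set ℂ} {p q r : ℂ} (h : HasLog K p q) (h' : HasLog K q r) :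
    HasLog K p r := by
  obtain ⟨φ, h1, h2⟩ := h
  obtain ⟨φ', h1', h2'⟩ := h'
  refine ⟨fun z => φ' z + φ z, h1'.add h1, fun z hz => ⟨(h2' z hz).1, ?_⟩⟩
  rw [(h2 z hz).2, (h2' z hz).2, mul_assoc, ← Complex.exp_add]

lemma HasLog.near {K : Set ℂ} (hK : IsClosed K) {p : ℂ} (hp : p ∉ K) :
    ∀ᶠ q in 𝓝 p, HasLog K p q := by
  obtain ⟨r, hr, hrK⟩ := Metric.isOpen_iff.1 hK.isOpen_compl p hp
  filter_upwards [ball_mem_nhds p (half_pos hr)] with q hq
  have hzp : ∀ z ∈ K, r ≤ dist z p := by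
    intro z hz
    by_contra h
    push Not at h
    exact hrK h hz
  have hzq : ∀ z ∈ K, dist q p < dist z q := by
    intro z hz
    have h1 := hzp z hz
    have h2 := dist_triangle z q p
    rw [mem_ball] at hq
    linarith
  have hne : ∀ z ∈ K, z ≠ q := by
    intro z hz h
    have := hzq z hz
    rw [h, dist_self] at this
    exact absurd this (not_lt.2 dist_nonneg)
  have hsl : ∀ z ∈ K, (z - p) / (z - q) ∈ Complex.slitPlane := by
    intro z hz
    have h1 : (z - p) / (z - q) = 1 + (q - p) / (z - q) := by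
      have := sub_ne_zero.2 (hne z hz)
      field_simp
      ring
    rw [h1]
    apply Complex.mem_slitPlane_of_norm_lt_one
    rw [norm_div, div_lt_one (norm_pos_iff.2 (sub_ne_zero.2 (hne z hz)))]
    have := hzq z hz
    rwa [dist_eq_norm, dist_eq_norm] at this
  refine ⟨fun z => Complex.log ((z - p) / (z - q)), ?_, fun z hz => ⟨hne z hz, ?_⟩⟩
  · refine ContinuousOn.clog ?_ hsl
    exact (by fun_prop : ContinuousOn (fun z : ℂ => z - p) K).div (by fun_prop)
      fun z hz => sub_ne_zero.2 (hne z hz)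
  · rw [Complex.exp_log (Complex.slitPlane_ne_zero (hsl z hz)),
      mul_div_cancel₀ _ (sub_ne_zero.2 (hne z hz))]

/-- **Eilenberg, easy direction**: points in a preconnected set off `K` -/
theorem HasLog.of_preconnected {K C : Set ℂ} (hK : IsClosed K) (hC : IsPreconnected C)
    (hd : ∀ z ∈ C, z ∉ K) {p q : ℂ} (hp : p ∈ C) (hq : q ∈ C) : HasLog K p q := by
  refine hC.induction₂ (fun p q => HasLog K p q) ?_ (fun x y z _ _ _ h1 h2 => h1.trans h2)
    (fun x y _ _ h => h.symm) hp hq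
  intro x hx
  exact (HasLog.near hK (hd x hx)).filter_mono nhdsWithin_le_nhds

/-- small sets -/
lemma HasLog.of_small {K : Set ℂ} {x p q : ℂ} (hp : ∀ z ∈ K, ‖z - x‖ < ‖x - p‖)
    (hq : ∀ z ∈ K, ‖z - x‖ < ‖x - q‖) : HasLog K p q := by
  rcases K.eq_empty_or_nonempty with h | ⟨z₀, hz₀⟩
  · subst h
    exact ⟨fun _ => 0, continuousOn_const, fun z hz => absurd hz (notMem_empty z)⟩
  have key : ∀ p : ℂ, (∀ z ∈ K, ‖z - x‖ < ‖x - p‖) → x - p ≠ 0 ∧
      ∀ z ∈ K, (z - p) / (x - p) ∈ Complex.slitPlane := by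
    intro p hp
    have h1 : 0 < ‖x - p‖ := lt_of_le_of_lt (norm_nonneg _) (hp z₀ hz₀)
    have h2 : x - p ≠ 0 := norm_pos_iff.1 h1
    refine ⟨h2, fun z hz => ?_⟩
    have h3 : (z - p) / (x - p) = 1 + (z - x) / (x - p) := by field_simp; ring
    rw [h3]
    apply Complex.mem_slitPlane_of_norm_lt_one
    rw [norm_div, div_lt_one h1]
    exact hp z hz
  obtain ⟨hp0, hps⟩ := key p hp
  obtain ⟨hq0, hqs⟩ := key q hq
  have hzq : ∀ z ∈ K, z - q ≠ 0 := by
    intro z hz h
    have := Complex.slitPlane_ne_zero (hqs z hz)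
    rw [h, zero_div] at this
    exact this rfl
  refine ⟨fun z => Complex.log ((z - p) / (x - p)) - Complex.log ((z - q) / (x - q)) +
    Complex.log ((x - p) / (x - q)), ?_, fun z hz => ⟨sub_ne_zero.1 (hzq z hz), ?_⟩⟩
  · refine ((ContinuousOn.clog (by fun_prop) hps).sub (ContinuousOn.clog (by fun_prop) hqs)).add
      continuousOn_const
  · rw [Complex.exp_add, Complex.exp_sub, Complex.exp_log (Complex.slitPlane_ne_zero (hps z hz)),
      Complex.exp_log (Complex.slitPlane_ne_zero (hqs z hz)),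
      Complex.exp_log (div_ne_zero hp0 hq0)]
    have := hzq z hz
    field_simp

/-- `z - p` has no continuous logarithm on a circle around `p` -/
lemma no_log_circle {p : ℂ} {R : ℝ} (hR : 0 < R) {ψ : ℂ → ℂ} (hψ : Continuous ψ)
    (h : ∀ z ∈ sphere p R, z - p = Complex.exp (ψ z)) : False := by
  set c : ℝ → ℂ := fun t => p + R * Complex.exp (t * Complex.I) with hc
  have hcs : ∀ t, c t ∈ sphere p R := by
    intro t
    rw [mem_sphere, dist_eq_norm, hc]
    simp [Complex.norm_exp_ofReal_mul_I, abs_of_pos hR]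
  set u : ℝ → ℂ := fun t => ψ (c t) - t * Complex.I - Real.log R with hu
  have huc : Continuous u := by simp only [hu, hc]; fun_prop
  have hu1 : ∀ t, Complex.exp (u t) = 1 := by
    intro t
    simp only [hu]
    rw [Complex.exp_sub, Complex.exp_sub, ← h _ (hcs t), ← Complex.ofReal_exp, Real.exp_log hR]
    simp only [hc, add_sub_cancel_left]
    have h1 := Complex.exp_ne_zero (t * Complex.I)
    have h2 : (R : ℂ) ≠ 0 := by exact_mod_cast hR.ne'
    field_simp
  have h1 := const_of_exp_one isPreconnected_univ huc.continuousOn (fun t _ => hu1 t)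
    (mem_univ 0) (mem_univ (2 * Real.pi))
  have h2 : c 0 = c (2 * Real.pi) := by
    simp only [hc]
    push_cast
    rw [Complex.exp_two_pi_mul_I]
    simp
  simp only [hu, ← h2] at h1
  have h3 : ((2 * Real.pi : ℝ) : ℂ) * Complex.I = 0 := by
    have : ((0:ℝ) : ℂ) * Complex.I = ((2 * Real.pi : ℝ) : ℂ) * Complex.I := by
      linear_combination -h1
    rw [← this]; simp
  rcases mul_eq_zero.1 h3 with h4 | h4
  · have := Complex.ofReal_eq_zero.1 h4
    linarith [Real.pi_pos]
  · exact Complex.I_ne_zero h4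

/-- **Separation lemma** (Eilenberg and Janiszewski): if the boundary of the bounded open set `U` lies
in the union of two compact sets with connected intersection, then one of the two separates each point
of `U` from each point outside the closure of `U` (in the sense of logarithms). -/
theorem sep {U K₁ K₂ : Set ℂ} (hUb : Bornology.IsBounded U) {p q : ℂ} (hp : p ∈ U)
    (hq : q ∉ closure U) (hK₁ : IsClosed K₁) (hK₂ : IsClosed K₂) (hfr : frontier U ⊆ K₁ ∪ K₂)
    (hc : IsPreconnected (K₁ ∩ K₂)) (h₁ : HasLog K₁ p q) (h₂ : HasLog K₂ p q) : False := by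
  classical
  -- glue the logarithms
  obtain ⟨φ, hφc, hφ⟩ : HasLog (K₁ ∪ K₂) p q := by
    obtain ⟨φ₁, c₁, e₁⟩ := h₁
    obtain ⟨φ₂, c₂, e₂⟩ := h₂
    obtain ⟨c, hc1, hc2⟩ : ∃ c : ℂ, Complex.exp c = 1 ∧ ∀ z ∈ K₁ ∩ K₂, φ₁ z = φ₂ z + c := by
      rcases (K₁ ∩ K₂).eq_empty_or_nonempty with he | ⟨w, hw⟩
      · exact ⟨0, Complex.exp_zero, fun z hz => by rw [he] at hz; exact absurd hz (notMem_empty z)⟩
      · have hexp : ∀ z ∈ K₁ ∩ K₂, Complex.exp (φ₁ z - φ₂ z) = 1 := by
          intro z hz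
          have a1 := (e₁ z hz.1).2
          have a2 := (e₂ z hz.2).2
          have a3 := sub_ne_zero.2 (e₁ z hz.1).1
          have a4 : Complex.exp (φ₁ z) = Complex.exp (φ₂ z) :=
            mul_left_cancel₀ a3 (a1.symm.trans a2)
          rw [Complex.exp_sub, a4, div_self (Complex.exp_ne_zero _)]
        refine ⟨φ₁ w - φ₂ w, hexp w hw, fun z hz => ?_⟩
        have := const_of_exp_one (u := fun z => φ₁ z - φ₂ z) hc
          ((c₁.mono inter_subset_left).sub (c₂.mono inter_subset_right)) hexp hz hw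
        linear_combination this
    refine ⟨K₁.piecewise φ₁ (fun z => φ₂ z + c), ?_, ?_⟩
    · have d1 : ContinuousOn (K₁.piecewise φ₁ (fun z => φ₂ z + c)) K₁ :=
        c₁.congr fun z hz => piecewise_eq_of_mem _ _ _ hz
      have d2 : ContinuousOn (K₁.piecewise φ₁ (fun z => φ₂ z + c)) K₂ := by
        have c₃ : ContinuousOn (fun z => φ₂ z + c) K₂ := c₂.add continuousOn_const
        refine c₃.congr fun z hz => ?_
        by_cases hz1 : z ∈ K₁
        · rw [piecewise_eq_of_mem _ _ _ hz1]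
          exact hc2 z ⟨hz1, hz⟩
        · rw [piecewise_eq_of_notMem _ _ _ hz1]
      exact d1.union_of_isClosed d2 hK₁ hK₂
    · intro z hz
      by_cases hz1 : z ∈ K₁
      · rw [piecewise_eq_of_mem _ _ _ hz1]
        exact e₁ z hz1
      · rw [piecewise_eq_of_notMem _ _ _ hz1]
        have hz2 : z ∈ K₂ := hz.resolve_left hz1
        rw [Complex.exp_add, hc1, mul_one]
        exact e₂ z hz2
  -- extend the logarithm
  obtain ⟨Φ, hΦ⟩ : ∃ Φ : C(ℂ, ℂ), ∀ z ∈ K₁ ∪ K₂, Φ z = φ z := by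
    obtain ⟨Φ, hΦ⟩ := ContinuousMap.exists_restrict_eq (hK₁.union hK₂)
      (⟨(K₁ ∪ K₂).domRestrict φ, hφc.domRestrict⟩ : C((K₁ ∪ K₂ : Set ℂ), ℂ))
    refine ⟨Φ, fun z hz => ?_⟩
    exact congrArg (fun f : C((K₁ ∪ K₂ : Set ℂ), ℂ) => f ⟨z, hz⟩) hΦ
  set h : ℂ → ℂ := U.piecewise (fun z => (z - q) * Complex.exp (Φ z)) (fun z => z - p) with hh
  have hcont : Continuous h := by
    refine Continuous.piecewise ?_ (by fun_prop) (by fun_prop)
    intro z hz
    have hz' := hfr hz
    rw [hΦ z hz', ← (hφ z hz').2]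
  have hne : ∀ z, h z ≠ 0 := by
    intro z
    by_cases hz : z ∈ U
    · rw [hh, piecewise_eq_of_mem _ _ _ hz]
      refine mul_ne_zero (sub_ne_zero.2 ?_) (Complex.exp_ne_zero _)
      rintro rfl
      exact hq (subset_closure hz)
    · rw [hh, piecewise_eq_of_notMem _ _ _ hz]
      refine sub_ne_zero.2 ?_
      rintro rfl
      exact hz hp
  have hsc : IsSimplyConnected (univ : Set ℂ) :=
    (Homeomorph.Set.univ ℂ).toHomotopyEquiv.simplyConnectedSpace
  obtain ⟨ψ, hψ, hψe⟩ := Complex.exists_continuousOn_eqOn_exp_comp hsc isOpen_univ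
    hcont.continuousOn (by rintro ⟨z, -, hz⟩; exact hne z hz)
  obtain ⟨R, hR, hUR⟩ := hUb.subset_ball_lt 0 p
  refine no_log_circle (p := p) hR (continuousOn_univ.1 hψ) fun z hz => ?_
  have hzU : z ∉ U := by
    intro hzU
    have := hUR hzU
    rw [mem_ball, mem_sphere.1 hz] at this
    exact lt_irrefl _ this
  have := hψe (mem_univ z)
  simp only [Function.comp_apply] at this
  rw [this, hh, piecewise_eq_of_notMem _ _ _ hzU]

end Full.Jordan
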