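import Pool.Agent.Full.Jordan.Riemann
import Pool.Agent.Full.Jordan.Sep
import Pool.Agent.Full.Jordan.Length

/-!
# Caratheodory's theorem: the Riemann map of a Jordan domain extends to a homeomorphism
-/

set_option autoImplicit false

open Set Filter Topology Metric

namespace Full.Jordan

/-- mutually inverse holomorphic bijections between the unit disc and `D` -/
structure RMap (D : Set ℂ) (φ ψ : ℂ → ℂ) : Prop where
  dφ : DifferentiableOn ℂ φ (ball 0 1)
  dψ : DifferentiableOn ℂ ψ D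
  mφ : MapsTo φ (ball 0 1) D
  mψ : MapsTo ψ D (ball 0 1)
  left : ∀ z ∈ ball (0:ℂ) 1, ψ (φ z) = z
  right : ∀ w ∈ D, φ (ψ w) = w

/-- small pieces of `J` lie in small connected pieces of `J` -/
def LC (J : Set ℂ) : Prop :=
  ∀ ε > 0, ∃ δ > 0, ∀ x ∈ J, ∃ B : Set ℂ, IsClosed B ∧ IsPreconnected B ∧
    J ∩ closedBall x δ ⊆ B ∧ B ⊆ J ∩ closedBall x ε

variable {D : Set ℂ} {φ ψ : ℂ → ℂ}

lemma RMap.image (h : RMap D φ ψ) : φ '' ball 0 1 = D := by
  ext w
  constructor
  · rintro ⟨z, hz, rfl⟩; exact h.mφ hz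
  · intro hw; exact ⟨ψ w, h.mψ hw, h.right w hw⟩

lemma RMap.inj (h : RMap D φ ψ) : InjOn φ (ball 0 1) := fun z hz z' hz' e => by
  rw [← h.left z hz, ← h.left z' hz', e]

lemma RMap.preconnected (h : RMap D φ ψ) : IsPreconnected D := by
  rw [← h.image]
  exact (convex_ball (0:ℂ) 1).isPreconnected.image _ h.dφ.continuousOn

/-- images of open subsets of the disc -/
lemma RMap.image_eq (h : RMap D φ ψ) {V : Set ℂ} (hV : V ⊆ ball 0 1) : φ '' V = D ∩ ψ ⁻¹' V := by
  ext w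
  constructor
  · rintro ⟨z, hz, rfl⟩
    refine ⟨h.mφ (hV hz), ?_⟩
    rw [mem_preimage, h.left z (hV hz)]
    exact hz
  · rintro ⟨hw, hw'⟩
    exact ⟨ψ w, hw', h.right w hw⟩

lemma RMap.isOpen_image (h : RMap D φ ψ) (hD : IsOpen D) {V : Set ℂ} (hVo : IsOpen V)
    (hV : V ⊆ ball 0 1) : IsOpen (φ '' V) := by
  rw [h.image_eq hV]
  exact h.dψ.continuousOn.isOpen_inter_preimage hD hVo

/-- rotations of the disc -/
lemma RMap.rot (h : RMap D φ ψ) {ζ : ℂ} (hζ : ‖ζ‖ = 1) :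
    RMap D (fun z => φ (ζ * z)) (fun w => ζ⁻¹ * ψ w) := by
  have h0 : ζ ≠ 0 := by
    intro h0; rw [h0, norm_zero] at hζ; exact zero_ne_one hζ
  have hm : MapsTo (fun z => ζ * z) (ball (0:ℂ) 1) (ball 0 1) := by
    intro z hz
    rw [mem_ball_zero_iff] at hz ⊢
    rwa [norm_mul, hζ, one_mul]
  refine ⟨h.dφ.comp (by fun_prop) hm, h.dψ.const_mul _, fun z hz => h.mφ (hm hz), ?_, ?_, ?_⟩
  · intro w hw
    have := h.mψ hw
    rw [mem_ball_zero_iff] at this ⊢
    rwa [norm_mul, norm_inv, hζ, inv_one, one_mul]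
  · intro z hz
    rw [h.left _ (hm hz), ← mul_assoc, inv_mul_cancel₀ h0, one_mul]
  · intro w hw
    rw [← mul_assoc, mul_inv_cancel₀ h0, one_mul, h.right w hw]

/-- **Small crosscuts cut off small pieces.** -/
theorem RMap.small_at_one (h : RMap D φ ψ) (hD : IsOpen D) (hb : Bornology.IsBounded D)
    (hJ : LC (frontier D)) {ε : ℝ} (hε : 0 < ε) :
    ∃ r > 0, ∃ x, ∀ z ∈ ball (0:ℂ) 1, dist z 1 < r → dist (φ z) x ≤ ε := by
  have h0 : (0:ℂ) ∈ ball (0:ℂ) 1 := mem_ball_self one_pos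
  obtain ⟨d, hd, hdD⟩ := Metric.isOpen_iff.1 hD (φ 0) (h.mφ h0)
  have hfar : ∀ x ∈ frontier D, d ≤ dist x (φ 0) := by
    intro x hx
    by_contra hlt
    push Not at hlt
    exact (disjoint_frontier_iff_isOpen.2 hD).le_bot ⟨hx, hdD hlt⟩
  set ε' := min ε (d / 2) with hε'
  have hε'0 : 0 < ε' := by positivity
  obtain ⟨δ, hδ, hJδ⟩ := hJ ε' hε'0
  set η := min δ ε' with hη
  have hη0 : 0 < η := by positivity
  obtain ⟨r, hr, hr1, hsmall⟩ := small_circle h.dφ h.inj (by rw [h.image]; exact hb) hη0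
    (r₀ := 1) one_pos
  set C : Set ℂ := ball 0 1 ∩ sphere 1 r with hC
  set T : Set ℂ := closure (φ '' C) with hT
  have hdiam1 : ∀ a ∈ φ '' C, T ⊆ closedBall a η := by
    rintro _ ⟨z, hz, rfl⟩
    refine closure_minimal ?_ isClosed_closedBall
    rintro _ ⟨z', hz', rfl⟩
    exact hsmall z' hz'.1 z hz.1 hz'.2 hz.2
  have hdiam : ∀ a ∈ T, T ⊆ closedBall a η := by
    intro a ha
    refine closure_minimal ?_ isClosed_closedBall
    intro b hb
    have := hdiam1 b hb ha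
    rw [mem_closedBall, dist_comm] at this ⊢
    rwa [dist_comm]
  have hTD : T ⊆ closure D := closure_mono (by
    rintro _ ⟨z, hz, rfl⟩; exact h.mφ hz.1)
  have hTb : IsCompact T := by
    refine (hb.subset ?_).isCompact_closure
    rintro _ ⟨z, hz, rfl⟩; exact h.mφ hz.1
  -- the crosscut reaches the boundary
  obtain ⟨x, hxT, hxJ⟩ : ∃ x, x ∈ T ∧ x ∈ frontier D := by
    by_contra hcon
    push Not at hcon
    have hTD' : T ⊆ D := by
      intro w hw
      by_contra hwD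
      exact hcon w hw ⟨hTD hw, fun hint => hwD (interior_subset hint)⟩
    have hK : IsCompact (ψ '' T) := hTb.image_of_continuousOn (h.dψ.continuousOn.mono hTD')
    have hs : IsPreconnected (sphere (1:ℂ) r) :=
      (isConnected_sphere (by rw [Complex.rank_real_complex]; norm_num) 1 hr.le).isPreconnected
    have hsub : sphere (1:ℂ) r ⊆ ball 0 1 ∪ (ψ '' T)ᶜ := by
      intro z _
      by_cases hz : z ∈ ball (0:ℂ) 1
      · exact Or.inl hz
      · refine Or.inr ?_
        rintro ⟨w, hw, rfl⟩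
        exact hz (h.mψ (hTD' hw))
    obtain ⟨z, hz1, hz2, hz3⟩ := hs _ _ isOpen_ball hK.isClosed.isOpen_compl hsub
      ⟨1 - r, by
        rw [mem_sphere, dist_eq_norm]
        simp [abs_of_pos hr], by
        rw [mem_ball_zero_iff]
        have : (1 - (r:ℂ)) = ((1 - r : ℝ) : ℂ) := by push_cast; ring
        rw [this, Complex.norm_real, Real.norm_eq_abs, abs_lt]
        constructor <;> linarith⟩
      ⟨1 + r, by
        rw [mem_sphere, dist_eq_norm]
        simp [abs_of_pos hr], by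
        rintro ⟨w, hw, he⟩
        have := h.mψ (hTD' hw)
        rw [he, mem_ball_zero_iff] at this
        have h2 : (1 + (r:ℂ)) = ((1 + r : ℝ) : ℂ) := by push_cast; ring
        rw [h2, Complex.norm_real, Real.norm_eq_abs, abs_lt] at this
        linarith [this.2]⟩
    exact hz3 ⟨φ z, subset_closure ⟨z, ⟨hz2, hz1⟩, rfl⟩, h.left z hz2⟩
  obtain ⟨B, hBc, hBp, hB1, hB2⟩ := hJδ x hxJ
  refine ⟨r, hr, x, ?_⟩
  intro z hz hzr
  refine le_trans ?_ (min_le_left ε (d / 2))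
  rw [← hε']
  by_contra hlt
  push Not at hlt
  set V : Set ℂ := ball 0 1 ∩ ball 1 r with hV
  have hVo : IsOpen V := isOpen_ball.inter isOpen_ball
  have hUo : IsOpen (φ '' V) := h.isOpen_image hD hVo inter_subset_left
  have hψcl : ∀ w ∈ D, w ∈ closure (φ '' V) → ψ w ∈ closedBall (1:ℂ) r := by
    intro w hw hwc
    have h1 := mem_closure_image (h.dψ.continuousOn.continuousAt (hD.mem_nhds hw)) hwc
    refine (closure_minimal ?_ isClosed_closedBall) h1
    rintro _ ⟨_, ⟨y, hy, rfl⟩, rfl⟩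
    rw [h.left y hy.1]
    exact ball_subset_closedBall hy.2
  have hxφ0 := hfar x hxJ
  refine sep (U := φ '' V) (K₁ := frontier D) (K₂ := B ∪ T) (p := φ z) (q := φ 0) ?_ ?_ ?_
    isClosed_frontier (hBc.union isClosed_closure) ?_ ?_ ?_ ?_
  · refine hb.subset ?_
    rintro _ ⟨y, hy, rfl⟩
    exact h.mφ hy.1
  · exact ⟨z, ⟨hz, hzr⟩, rfl⟩
  · intro hcl
    have h1 := hψcl _ (h.mφ h0) hcl
    rw [h.left 0 h0, mem_closedBall, dist_zero_left, norm_one] at h1
    linarith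
  · intro w hw
    have hwD : w ∈ closure D := closure_mono (by
      rintro _ ⟨y, hy, rfl⟩
      exact h.mφ hy.1) hw.1
    by_cases hwD' : w ∈ D
    · right; right
      have h1 := hψcl w hwD' hw.1
      have h2 : ψ w ∈ ball (0:ℂ) 1 := h.mψ hwD'
      have h3 : ¬ dist (ψ w) 1 < r := by
        intro h3
        apply (disjoint_frontier_iff_isOpen.2 hUo).le_bot ⟨hw, ?_⟩
        exact ⟨ψ w, ⟨h2, h3⟩, h.right w hwD'⟩
      refine subset_closure ⟨ψ w, ⟨h2, ?_⟩, h.right w hwD'⟩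
      rw [mem_sphere]
      exact le_antisymm h1 (not_lt.1 h3)
    · left
      exact ⟨hwD, fun hint => hwD' (interior_subset hint)⟩
  · have : frontier D ∩ (B ∪ T) = B := by
      ext w
      constructor
      · rintro ⟨h1, h2 | h2⟩
        · exact h2
        · refine hB1 ⟨h1, ?_⟩
          exact closedBall_subset_closedBall (min_le_left _ _) (hdiam x hxT h2)
      · intro h1
        exact ⟨(hB2 h1).1, Or.inl h1⟩
    rw [this]
    exact hBp
  · exact HasLog.of_preconnected isClosed_frontier h.preconnected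
      (fun w hw hwf => (disjoint_frontier_iff_isOpen.2 hD).le_bot ⟨hwf, hw⟩) (h.mφ hz) (h.mφ h0)
  · have hK2 : ∀ w ∈ B ∪ T, ‖w - x‖ ≤ ε' := by
      rintro w (hw | hw)
      · have := (hB2 hw).2
        rwa [mem_closedBall, dist_eq_norm] at this
      · have := hdiam x hxT hw
        rw [mem_closedBall, dist_eq_norm] at this
        exact this.trans (min_le_right _ _)
    refine HasLog.of_small (x := x) (fun w hw => ?_) (fun w hw => ?_)
    · refine (hK2 w hw).trans_lt ?_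
      rw [dist_comm, dist_eq_norm] at hlt
      exact hlt
    · refine (hK2 w hw).trans_lt ?_
      rw [← dist_eq_norm]
      have : ε' ≤ d / 2 := min_le_right _ _
      linarith

theorem RMap.exists_limit (h : RMap D φ ψ) (hD : IsOpen D) (hb : Bornology.IsBounded D)
    (hJ : LC (frontier D)) {ζ : ℂ} (hζ : ζ ∈ closedBall (0:ℂ) 1) :
    ∃ y, Tendsto φ (𝓝[ball 0 1] ζ) (𝓝 y) := by
  by_cases hζb : ζ ∈ ball (0:ℂ) 1
  · exact ⟨φ ζ, h.dφ.continuousOn ζ hζb⟩
  have hζ1 : ‖ζ‖ = 1 := by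
    rw [mem_closedBall_zero_iff] at hζ
    rw [mem_ball_zero_iff] at hζb
    exact le_antisymm hζ (not_lt.1 hζb)
  have h0 : ζ ≠ 0 := by
    intro h0; rw [h0, norm_zero] at hζ1; exact zero_ne_one hζ1
  have hne : (𝓝[ball (0:ℂ) 1] ζ).NeBot := by
    rw [← mem_closure_iff_nhdsWithin_neBot, closure_ball (0:ℂ) one_ne_zero]
    exact hζ
  apply cauchy_map_iff_exists_tendsto.1
  rw [Metric.cauchy_iff]
  refine ⟨hne.map φ, fun ε hε => ?_⟩
  obtain ⟨r, hr, x, hx⟩ := (h.rot hζ1).small_at_one hD hb hJ (ε := ε / 3) (by positivity)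
  refine ⟨φ '' (ball 0 1 ∩ ball ζ r), ?_, ?_⟩
  · exact image_mem_map (inter_mem self_mem_nhdsWithin (mem_nhdsWithin_of_mem_nhds
      (ball_mem_nhds ζ hr)))
  · have key : ∀ z ∈ ball (0:ℂ) 1 ∩ ball ζ r, dist (φ z) x ≤ ε / 3 := by
      rintro z ⟨hz1, hz2⟩
      have h1 : ζ * (ζ⁻¹ * z) = z := by rw [← mul_assoc, mul_inv_cancel₀ h0, one_mul]
      have h2 := hx (ζ⁻¹ * z) (by
        rw [mem_ball_zero_iff] at hz1 ⊢
        rwa [norm_mul, norm_inv, hζ1, inv_one, one_mul]) (by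
        have : ζ⁻¹ * z - 1 = ζ⁻¹ * (z - ζ) := by field_simp
        rw [dist_eq_norm, this, norm_mul, norm_inv, hζ1, inv_one, one_mul, ← dist_eq_norm]
        exact hz2)
      rwa [h1] at h2
    rintro _ ⟨z, hz, rfl⟩ _ ⟨z', hz', rfl⟩
    have h1 := key z hz
    have h2 := key z' hz'
    have h3 := dist_triangle_right (φ z) (φ z') x
    linarith

/-- a holomorphic function, continuous up to the boundary, which omits the value `w` in the disc,
takes another value on every open piece of the circle -/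
lemma not_const_arc {F : ℂ → ℂ} (hF : ContinuousOn F (closedBall 0 1))
    (hFd : DifferentiableOn ℂ F (ball 0 1)) {w : ℂ} (hw : ∀ z ∈ ball (0:ℂ) 1, F z ≠ w)
    {V : Set ℂ} (hV : IsOpen V) {ξ₀ : ℂ} (hξ₀ : ‖ξ₀‖ = 1) (hξ₀V : ξ₀ ∈ V) :
    ∃ ξ ∈ V, ‖ξ‖ = 1 ∧ F ξ ≠ w := by
  by_contra hcon
  push Not at hcon
  have hcov : sphere (0:ℂ) 1 ⊆ ⋃ u : sphere (0:ℂ) 1, (fun ζ => (u : ℂ) * ζ) ⁻¹' V := by
    intro ζ hζ
    rw [mem_sphere_zero_iff_norm] at hζ
    have hζ0 : ζ ≠ 0 := by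
      intro h0; rw [h0, norm_zero] at hζ; exact zero_ne_one hζ
    refine mem_iUnion.2 ⟨⟨ξ₀ / ζ, ?_⟩, ?_⟩
    · rw [mem_sphere_zero_iff_norm, norm_div, hξ₀, hζ, div_one]
    · rw [mem_preimage]
      simp only
      rw [div_mul_cancel₀ _ hζ0]
      exact hξ₀V
  obtain ⟨t, ht⟩ := (isCompact_sphere (0:ℂ) 1).elim_finite_subcover _
    (fun u => hV.preimage (continuous_const.mul continuous_id)) hcov
  have hmb : ∀ u : sphere (0:ℂ) 1, MapsTo (fun z => (u : ℂ) * z) (ball (0:ℂ) 1) (ball 0 1) := by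
    intro u z hz
    have hu := mem_sphere_zero_iff_norm.1 u.2
    rw [mem_ball_zero_iff] at hz ⊢
    rwa [norm_mul, hu, one_mul]
  have hmc : ∀ u : sphere (0:ℂ) 1, MapsTo (fun z => (u : ℂ) * z) (closedBall (0:ℂ) 1)
      (closedBall 0 1) := by
    intro u z hz
    have hu := mem_sphere_zero_iff_norm.1 u.2
    rw [mem_closedBall_zero_iff] at hz ⊢
    rwa [norm_mul, hu, one_mul]
  set G : ℂ → ℂ := fun z => ∏ u ∈ t, (F ((u : ℂ) * z) - w) with hG
  have hGc : ContinuousOn G (closedBall 0 1) := by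
    refine continuousOn_finsetProd _ fun u _ => ?_
    exact (hF.comp (by fun_prop) (hmc u)).sub continuousOn_const
  have hGd : DifferentiableOn ℂ G (ball 0 1) := by
    refine DifferentiableOn.fun_finsetProd fun u _ => ?_
    exact (hFd.comp (by fun_prop) (hmb u)).sub_const _
  have hcl : DiffContOnCl ℂ G (ball 0 1) :=
    ⟨hGd, by rw [closure_ball (0:ℂ) one_ne_zero]; exact hGc⟩
  have h0 := Complex.norm_le_of_forall_mem_frontier_norm_le isBounded_ball hcl (C := 0) (z := 0)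
    (by
      intro z hz
      rw [frontier_ball (0:ℂ) one_ne_zero] at hz
      obtain ⟨u, hu, huz⟩ := mem_iUnion₂.1 (ht hz)
      have h1 : F ((u : ℂ) * z) = w := by
        refine hcon _ huz ?_
        rw [norm_mul, mem_sphere_zero_iff_norm.1 u.2, mem_sphere_zero_iff_norm.1 hz, one_mul]
      rw [hG]
      simp only
      rw [Finset.prod_eq_zero hu (by rw [h1, sub_self]), norm_zero])
    (subset_closure (mem_ball_self one_pos))
  have h1 : G 0 ≠ 0 := by
    rw [hG]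
    simp only
    refine Finset.prod_ne_zero_iff.2 fun u _ => sub_ne_zero.2 ?_
    rw [mul_zero]
    exact hw 0 (mem_ball_self one_pos)
  exact h1 (norm_le_zero_iff.1 h0)

/-- a real linear functional -/
noncomputable def lin (ν z : ℂ) : ℝ := ((starRingEnd ℂ) ν * z).re

lemma lin_add (ν z w : ℂ) : lin ν (z + w) = lin ν z + lin ν w := by simp [lin, mul_add]

lemma lin_smul (ν : ℂ) (t : ℝ) (z : ℂ) : lin ν (t • z) = t * lin ν z := by
  simp only [lin, Complex.real_smul]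
  rw [show (starRingEnd ℂ) ν * ((t:ℂ) * z) = (t:ℂ) * ((starRingEnd ℂ) ν * z) by ring,
    Complex.re_ofReal_mul]

lemma lin_neg (ν z : ℂ) : lin (-ν) z = -lin ν z := by simp [lin]

lemma continuous_lin (ν : ℂ) : Continuous (lin ν) := by unfold lin; fun_prop

lemma lin_self (ν : ℂ) : lin ν ν = ‖ν‖ ^ 2 := by
  simp only [lin]
  rw [mul_comm, Complex.mul_conj, Complex.normSq_eq_norm_sq, Complex.ofReal_re]

/-- the open half disc -/
def half (ν : ℂ) (c : ℝ) : Set ℂ := ball 0 1 ∩ {z | c < lin ν z}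

lemma isOpen_half (ν : ℂ) (c : ℝ) : IsOpen (half ν c) :=
  isOpen_ball.inter (isOpen_lt continuous_const (continuous_lin ν))

lemma convex_half (ν : ℂ) (c : ℝ) : Convex ℝ (half ν c) := by
  refine (convex_ball (0:ℂ) 1).inter (convex_halfSpace_gt (𝕜 := ℝ) (f := lin ν) ⟨lin_add ν, ?_⟩ c)
  intro t z
  rw [lin_smul, smul_eq_mul]

lemma half_circle {ν : ℂ} {c : ℝ} {z₀ : ℂ} (hz₀ : z₀ ∈ half ν c) : ∃ ξ : ℂ, ‖ξ‖ = 1 ∧ c < lin ν ξ := by
  obtain ⟨h1, h2⟩ := hz₀
  rw [mem_ball_zero_iff] at h1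
  rw [mem_ofPred_eq] at h2
  rcases eq_or_ne ν 0 with rfl | hν
  · refine ⟨1, norm_one, ?_⟩
    simpa [lin] using h2
  · have hν' : 0 < ‖ν‖ := norm_pos_iff.2 hν
    refine ⟨(‖ν‖⁻¹ : ℝ) • ν, ?_, ?_⟩
    · rw [norm_smul, Real.norm_of_nonneg (by positivity), inv_mul_cancel₀ hν'.ne']
    · rw [lin_smul, lin_self]
      have h3 : lin ν z₀ ≤ ‖ν‖ * ‖z₀‖ := by
        calc lin ν z₀ ≤ ‖(starRingEnd ℂ) ν * z₀‖ := Complex.re_le_norm _
          _ = ‖ν‖ * ‖z₀‖ := by rw [norm_mul, Complex.norm_conj]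
      have h4 : ‖ν‖⁻¹ * ‖ν‖ ^ 2 = ‖ν‖ := by field_simp
      rw [h4]
      nlinarith

lemma half_insert {ν : ℂ} {c : ℝ} {z₀ ξ : ℂ} (hz₀ : z₀ ∈ half ν c) (hξ : ‖ξ‖ = 1)
    (hξc : c < lin ν ξ) : IsPreconnected (insert ξ (half ν c)) := by
  refine (convex_half ν c).isPreconnected.subset_closure (subset_insert _ _)
    (insert_subset ?_ subset_closure)
  have h1 : openSegment ℝ z₀ ξ ⊆ half ν c := by
    rintro _ ⟨a, b, ha, hb, hab, rfl⟩
    have h2 := hz₀.1
    have h3 := hz₀.2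
    rw [mem_ball_zero_iff] at h2
    rw [mem_ofPred_eq] at h3
    refine ⟨?_, ?_⟩
    · rw [mem_ball_zero_iff]
      calc ‖a • z₀ + b • ξ‖ ≤ ‖a • z₀‖ + ‖b • ξ‖ := norm_add_le _ _
        _ = a * ‖z₀‖ + b := by
          rw [norm_smul, norm_smul, Real.norm_of_nonneg ha.le, Real.norm_of_nonneg hb.le, hξ,
            mul_one]
        _ < 1 := by nlinarith
    · rw [mem_ofPred_eq, lin_add, lin_smul, lin_smul]
      have hb' : b = 1 - a := by linarith
      subst hb'
      nlinarith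
  have h2 : ξ ∈ closure (openSegment ℝ z₀ ξ) := by
    rw [closure_openSegment]
    exact right_mem_segment _ _ _
  exact closure_mono h1 h2

/-- points of the circle on a chord -/
lemma chord_end {ζ₁ ζ₂ z : ℂ} (hne : ζ₁ ≠ ζ₂) (h1 : ‖ζ₁‖ = 1) (h2 : ‖ζ₂‖ = 1) (hz : ‖z‖ = 1)
    (hL : lin (Complex.I * (ζ₁ - ζ₂)) z = lin (Complex.I * (ζ₁ - ζ₂)) ζ₁) : z = ζ₁ ∨ z = ζ₂ := by
  have sq1 : ∀ u : ℂ, ‖u‖ = 1 → u.re ^ 2 + u.im ^ 2 = 1 := by
    intro u hu
    have := Complex.normSq_eq_norm_sq u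
    rw [hu, Complex.normSq_apply] at this
    nlinarith
  have e1 := sq1 _ h1
  have e2 := sq1 _ h2
  have e3 := sq1 _ hz
  simp only [lin, map_mul, Complex.conj_I, map_sub, Complex.mul_re, Complex.mul_im, Complex.sub_re,
    Complex.sub_im, Complex.neg_re, Complex.neg_im, Complex.I_re, Complex.I_im, Complex.conj_re,
    Complex.conj_im] at hL
  set a := ζ₁.re
  set b := ζ₁.im
  set c := ζ₂.re
  set d := ζ₂.im
  set x := z.re
  set y := z.im
  -- collinear
  have hcol : (x - a) * (d - b) = (y - b) * (c - a) := by nlinarith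
  set p := (x - a) * (c - a) + (y - b) * (d - b) with hp
  set q := (c - a) ^ 2 + (d - b) ^ 2 with hq
  have hq0 : 0 < q := by
    have : ¬ (c = a ∧ d = b) := fun h => hne (Complex.ext h.1.symm h.2.symm)
    rcases not_and_or.1 this with h | h
    · have := sq_pos_of_ne_zero (sub_ne_zero.2 h)
      nlinarith [sq_nonneg (d - b)]
    · have := sq_pos_of_ne_zero (sub_ne_zero.2 h)
      nlinarith [sq_nonneg (c - a)]
  have u1 : (x - a) * q = p * (c - a) := by
    rw [hp, hq]; linear_combination (d - b) * hcol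
  have u2 : (y - b) * q = p * (d - b) := by
    rw [hp, hq]; linear_combination (-(c - a)) * hcol
  have f1 : 2 * (a * (x - a) + b * (y - b)) + ((x - a) ^ 2 + (y - b) ^ 2) = 0 := by
    linear_combination e3 - e1
  have f2 : 2 * (a * (c - a) + b * (d - b)) + q = 0 := by
    rw [hq]; linear_combination e2 - e1
  have f3 : p * (p - q) * q = 0 := by
    have g1 : 2 * (a * ((x - a) * q) + b * ((y - b) * q)) * q + (((x - a) * q) ^ 2 + ((y - b) * q) ^ 2)
        = 0 := by linear_combination q ^ 2 * f1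
    rw [u1, u2] at g1
    have g2 : (c - a) ^ 2 + (d - b) ^ 2 = q := hq.symm
    linear_combination g1 - p * q * f2 - p ^ 2 * g2
  rcases mul_eq_zero.1 ((mul_eq_zero.1 f3).resolve_right hq0.ne') with h | h
  · left
    rw [h, zero_mul] at u1 u2
    have v1 := (mul_eq_zero.1 u1).resolve_right hq0.ne'
    have v2 := (mul_eq_zero.1 u2).resolve_right hq0.ne'
    exact Complex.ext (by change x = a; linarith) (by change y = b; linarith)
  · right
    have h' : p = q := by linarith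
    rw [h'] at u1 u2
    have v1 := mul_right_cancel₀ hq0.ne' (u1.trans (mul_comm _ _))
    have v2 := mul_right_cancel₀ hq0.ne' (u2.trans (mul_comm _ _))
    exact Complex.ext (by change x = c; linarith) (by change y = d; linarith)

end Full.Jordan
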