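import Mathlib

/-!
# Continuous logarithms on subsets of the plane, and Janiszewski's theorem
-/

set_option autoImplicit false

open Set Filter Topology Complex

namespace Full.Jor

/-- the function `f` has a continuous logarithm on `K` -/
def HasLog (K : Set ℂ) (f : ℂ → ℂ) : Prop :=
  ∃ g : ℂ → ℂ, ContinuousOn g K ∧ ∀ z ∈ K, exp (g z) = f z

lemma HasLog.mono {K K' : Set ℂ} {f : ℂ → ℂ} (h : HasLog K f) (hK : K' ⊆ K) : HasLog K' f := by
  obtain ⟨g, h1, h2⟩ := h
  exact ⟨g, h1.mono hK, fun z hz => h2 z (hK hz)⟩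

lemma isSimplyConnected_of_convex {U : Set ℂ} (hU : Convex ℝ U) (hne : U.Nonempty) :
    IsSimplyConnected U := by
  have h1 : ContractibleSpace U := hU.contractibleSpace hne
  exact SimplyConnectedSpace.ofContractible U

/-- a nonvanishing continuous function on an open convex set has a logarithm -/
lemma hasLog_convex {U : Set ℂ} (hU : Convex ℝ U) (hUo : IsOpen U) {f : ℂ → ℂ}
    (hf : ContinuousOn f U) (h0 : ∀ z ∈ U, f z ≠ 0) : HasLog U f := by
  rcases U.eq_empty_or_nonempty with rfl | hne
  · exact ⟨0, continuousOn_empty _, fun z hz => absurd hz (notMem_empty z)⟩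
  · obtain ⟨g, h1, h2⟩ := exists_continuousOn_eqOn_exp_comp (isSimplyConnected_of_convex hU hne) hUo hf
      (by rintro ⟨z, hz, h⟩; exact h0 z hz h)
    exact ⟨g, h1, fun z hz => h2 hz⟩

/-- two numbers with the same exponential at distance less than `2 π` are equal -/
lemma eq_of_exp_eq {a b : ℂ} (h : exp a = exp b) (h1 : ‖a - b‖ < 2 * Real.pi) : a = b := by
  obtain ⟨n, hn⟩ := exp_eq_exp_iff_exists_int.1 h
  have h2 : a - b = n * (2 * Real.pi * I) := by rw [hn]; ring
  rw [h2] at h1
  have h3 : ‖(n : ℂ) * (2 * Real.pi * I)‖ = |(n : ℝ)| * (2 * Real.pi) := by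
    rw [norm_mul, norm_mul, norm_mul, norm_I, norm_intCast]
    simp [abs_of_pos Real.pi_pos]
  rw [h3] at h1
  have h4 : |(n : ℝ)| < 1 := by
    have := Real.pi_pos
    by_contra h5
    rw [not_lt] at h5
    nlinarith
  have h5 : n = 0 := by
    have : |n| < 1 := by exact_mod_cast h4
    exact Int.abs_lt_one_iff.1 this
  rw [hn, h5]
  simp

/-- the difference of two logarithms of the same function is constant on connected sets -/
lemma log_unique {X : Type*} [TopologicalSpace X] {K : Set X} (hK : IsPreconnected K) {g1 g2 : X → ℂ}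
    (h1 : ContinuousOn g1 K) (h2 : ContinuousOn g2 K) (h : ∀ z ∈ K, exp (g1 z) = exp (g2 z))
    {a b : X} (ha : a ∈ K) (hb : b ∈ K) : g1 a - g2 a = g1 b - g2 b := by
  refine hK.induction₂ (fun a b => g1 a - g2 a = g1 b - g2 b) ?_ (fun x y z _ _ _ h h' => h.trans h')
    (fun x y _ _ h => h.symm) ha hb
  intro x hx
  have h3 : ContinuousWithinAt (fun y => (g1 x - g2 x) - (g1 y - g2 y)) K x :=
    continuousWithinAt_const.sub ((h1 x hx).sub (h2 x hx))
  have h4 : ∀ᶠ y in 𝓝[K] x, ‖(g1 x - g2 x) - (g1 y - g2 y)‖ < 2 * Real.pi := by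
    have h5 : Tendsto (fun y => ‖(g1 x - g2 x) - (g1 y - g2 y)‖) (𝓝[K] x)
        (𝓝 ‖(g1 x - g2 x) - (g1 x - g2 x)‖) := h3.norm
    rw [sub_self, norm_zero] at h5
    exact h5.eventually_lt_const (by positivity)
  filter_upwards [h4, self_mem_nhdsWithin] with y hy hyK
  refine eq_of_exp_eq ?_ hy
  rw [exp_sub, exp_sub, h x hx, h y hyK, div_self (exp_ne_zero _), div_self (exp_ne_zero _)]

/-- if `u` and `v` are close the function `(z - u) / (z - v)` has a logarithm -/
lemma hasLog_near {K : Set ℂ} {u v : ℂ} {r : ℝ} (hr : 0 < r) (hu : ∀ z ∈ K, r ≤ ‖z - u‖)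
    (huv : ‖v - u‖ < r) : HasLog K (fun z => (z - u) / (z - v)) := by
  have key : ∀ z ∈ K, (z - v) / (z - u) ∈ slitPlane := by
    intro z hz
    have h1 : z - u ≠ 0 := by
      intro h
      have := hu z hz
      rw [h, norm_zero] at this
      linarith
    have h2 : (z - v) / (z - u) = 1 - (v - u) / (z - u) := by field_simp; ring
    have h3 : ‖(v - u) / (z - u)‖ < 1 := by
      rw [norm_div, div_lt_one (norm_pos_iff.2 h1)]
      exact lt_of_lt_of_le huv (hu z hz)
    rw [h2]
    left
    have h4 := abs_le.1 (abs_re_le_norm ((v - u) / (z - u)))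
    simp only [sub_re, one_re]
    linarith [h4.2]
  have hne : ∀ z ∈ K, z - u ≠ 0 := fun z hz h => by
    have := slitPlane_ne_zero (key z hz)
    rw [h, div_zero] at this
    exact this rfl
  refine ⟨fun z => - log ((z - v) / (z - u)), ?_, ?_⟩
  · refine ContinuousOn.neg (ContinuousOn.clog ?_ key)
    exact (continuousOn_id.sub continuousOn_const).div (continuousOn_id.sub continuousOn_const) hne
  · intro z hz
    rw [exp_neg, exp_log (slitPlane_ne_zero (key z hz)), inv_div]

lemma HasLog.mul {K : Set ℂ} {f g : ℂ → ℂ} (hf : HasLog K f) (hg : HasLog K g) :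
    HasLog K (fun z => f z * g z) := by
  obtain ⟨a, h1, h2⟩ := hf
  obtain ⟨b, h3, h4⟩ := hg
  exact ⟨fun z => a z + b z, h1.add h3, fun z hz => by rw [exp_add, h2 z hz, h4 z hz]⟩

lemma HasLog.inv {K : Set ℂ} {f : ℂ → ℂ} (hf : HasLog K f) : HasLog K (fun z => (f z)⁻¹) := by
  obtain ⟨a, h1, h2⟩ := hf
  exact ⟨fun z => - a z, h1.neg, fun z hz => by rw [exp_neg, h2 z hz]⟩

lemma HasLog.congr {K : Set ℂ} {f g : ℂ → ℂ} (hf : HasLog K f) (h : ∀ z ∈ K, f z = g z) :
    HasLog K g := by
  obtain ⟨a, h1, h2⟩ := hf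
  exact ⟨a, h1, fun z hz => (h2 z hz).trans (h z hz)⟩

/-- **easy half of Borsuk's criterion** -/
theorem hasLog_of_joined {K C : Set ℂ} (hK : IsClosed K) (hC : IsPreconnected C) (hCK : C ⊆ Kᶜ)
    {u v : ℂ} (hu : u ∈ C) (hv : v ∈ C) : HasLog K (fun z => (z - u) / (z - v)) := by
  refine hC.induction₂ (fun u v => HasLog K (fun z => (z - u) / (z - v))) ?_ ?_ ?_ hu hv
  · intro x hx
    have h1 : x ∈ Kᶜ := hCK hx
    obtain ⟨r, hr, hr2⟩ := Metric.isOpen_iff.1 hK.isOpen_compl x h1
    have h2 : ∀ z ∈ K, r ≤ ‖z - x‖ := by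
      intro z hz
      by_contra h
      rw [not_le] at h
      exact hr2 (by rw [Metric.mem_ball, dist_eq_norm]; exact h) hz
    have h3 : ∀ᶠ y in 𝓝[C] x, y ∈ Metric.ball x r := mem_nhdsWithin_of_mem_nhds (Metric.ball_mem_nhds x hr)
    filter_upwards [h3] with y hy
    rw [Metric.mem_ball, dist_eq_norm] at hy
    exact hasLog_near hr h2 hy
  · intro x y z hx hy hz h1 h2
    refine (h1.mul h2).congr ?_
    intro w hw
    have h3 : w - y ≠ 0 := by
      intro h
      rw [sub_eq_zero] at h
      exact hCK hy (h ▸ hw)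
    have h4 : w - z ≠ 0 := by
      intro h
      rw [sub_eq_zero] at h
      exact hCK hz (h ▸ hw)
    field_simp
  · intro x y _ _ h
    refine h.inv.congr ?_
    intro w _
    rw [inv_div]

/-- there is no nonvanishing continuous function of the plane which equals `z - u` near infinity -/
lemma no_extension {H : ℂ → ℂ} (hH : Continuous H) (h0 : ∀ z, H z ≠ 0) {u : ℂ} {R : ℝ}
    (hR : ∀ z, R ≤ ‖z - u‖ → H z = z - u) : False := by
  obtain ⟨g, h1, h2⟩ := hasLog_convex convex_univ isOpen_univ hH.continuousOn (fun z _ => h0 z)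
  have hg : Continuous g := continuousOn_univ.1 h1
  set ρ : ℝ := max R 1 with hρ
  have hρ0 : 0 < ρ := lt_of_lt_of_le one_pos (le_max_right _ _)
  have h3 : ∀ t : ℝ, exp (g (u + ρ * exp (t * I)) - Real.log ρ) = exp (t * I) := by
    intro t
    have h4 : ‖(u + ρ * exp (t * I)) - u‖ = ρ := by
      rw [add_sub_cancel_left, norm_mul, norm_exp_ofReal_mul_I, mul_one, norm_real, Real.norm_eq_abs,
        abs_of_pos hρ0]
    have h5 : (ρ : ℂ) ≠ 0 := ofReal_ne_zero.2 hρ0.ne'
    rw [exp_sub, h2 _ (mem_univ _), hR _ (by rw [h4]; exact le_max_left _ _), add_sub_cancel_left,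
      ← ofReal_exp, Real.exp_log hρ0, mul_div_cancel_left₀ _ h5]
  have h4 : Continuous (fun t : ℝ => g (u + ρ * exp (t * I)) - Real.log ρ) := by fun_prop
  have h5 : Continuous (fun t : ℝ => (t : ℂ) * I) := by fun_prop
  have h6 := log_unique (K := (univ : Set ℝ)) isPreconnected_univ h4.continuousOn h5.continuousOn
    (fun t _ => h3 t) (mem_univ 0) (mem_univ (2 * Real.pi))
  simp only [ofReal_zero, zero_mul, exp_zero, ofReal_mul, ofReal_ofNat, exp_two_pi_mul_I] at h6
  have h7 : (2 : ℂ) * Real.pi * I = 0 := by linear_combination h6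
  simp [Real.pi_ne_zero] at h7

/-- the frontier of a component of an open set lies in the complement -/
lemma frontier_component {K : Set ℂ} (hK : IsClosed K) (u : ℂ) :
    frontier (connectedComponentIn Kᶜ u) ⊆ K := by
  intro z hz
  by_contra hzK
  have ho : IsOpen (connectedComponentIn Kᶜ u) := hK.isOpen_compl.connectedComponentIn
  rw [frontier, ho.interior_eq] at hz
  obtain ⟨hz1, hz2⟩ := hz
  apply hz2
  have hV : IsOpen (connectedComponentIn Kᶜ z) := hK.isOpen_compl.connectedComponentIn
  have hzV : z ∈ connectedComponentIn Kᶜ z := mem_connectedComponentIn hzK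
  obtain ⟨w, hw1, hw2⟩ := mem_closure_iff.1 hz1 _ hV hzV
  have h1 : connectedComponentIn Kᶜ z = connectedComponentIn Kᶜ w := connectedComponentIn_eq hw1
  have h2 : connectedComponentIn Kᶜ u = connectedComponentIn Kᶜ w := connectedComponentIn_eq hw2
  rw [h2, ← h1]
  exact hzV

/-- the complement of a large ball is connected -/
lemma isPreconnected_far (R : ℝ) : IsPreconnected {z : ℂ | R < ‖z‖} := by
  rcases lt_or_ge R 0 with hR | hR
  · have h1 : {z : ℂ | R < ‖z‖} = univ := by
      ext z; simp only [mem_ofPred_eq, mem_univ, iff_true]; exact lt_of_lt_of_le hR (norm_nonneg z)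
    rw [h1]; exact isPreconnected_univ
  · have h1 : {z : ℂ | R < ‖z‖} = (fun p : ℝ × ℝ => (p.1 : ℂ) * exp (p.2 * I)) '' (Ioi R ×ˢ univ) := by
      ext z
      constructor
      · intro hz
        exact ⟨(‖z‖, arg z), ⟨hz, mem_univ _⟩, norm_mul_exp_arg_mul_I z⟩
      · rintro ⟨⟨r, t⟩, ⟨hr, -⟩, rfl⟩
        simp only [mem_Ioi] at hr
        simp only [mem_ofPred_eq, norm_mul, norm_real, norm_exp_ofReal_mul_I, mul_one, Real.norm_eq_abs]
        exact lt_of_lt_of_le hr (le_abs_self r)
    rw [h1]
    refine (isPreconnected_Ioi.prod isPreconnected_univ).image _ ?_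
    fun_prop

/-- if `u` and `v` are not separated by a compact set -/
def Joins (K : Set ℂ) (u v : ℂ) : Prop := v ∈ connectedComponentIn Kᶜ u

lemma Joins.symm {K : Set ℂ} {u v : ℂ} (h : Joins K u v) : Joins K v u := by
  have h1 : connectedComponentIn Kᶜ u = connectedComponentIn Kᶜ v := connectedComponentIn_eq h
  have h2 : u ∈ Kᶜ := connectedComponentIn_nonempty_iff.1 ⟨v, h⟩
  unfold Joins
  rw [← h1]
  exact mem_connectedComponentIn h2

lemma joins_of_isPreconnected {K C : Set ℂ} (hC : IsPreconnected C) (hCK : C ⊆ Kᶜ) {u v : ℂ}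
    (hu : u ∈ C) (hv : v ∈ C) : Joins K u v :=
  hC.subset_connectedComponentIn hu hCK hv

/-- **Borsuk's criterion** (hard half) -/
theorem joins_of_hasLog {K : Set ℂ} (hK : IsCompact K) {u v : ℂ} (hu : u ∉ K) (hv : v ∉ K)
    (h : HasLog K (fun z => (z - u) / (z - v))) : Joins K u v := by
  have main : ∀ u v : ℂ, u ∉ K → v ∉ K → HasLog K (fun z => (z - u) / (z - v)) →
      v ∉ connectedComponentIn Kᶜ u → Bornology.IsBounded (connectedComponentIn Kᶜ u) → False := by
    intro u v hu hv h hvU hb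
    obtain ⟨g, hg1, hg2⟩ := h
    have hKc := hK.isClosed
    obtain ⟨G, hG⟩ := ContinuousMap.exists_restrict_eq hKc (⟨K.domRestrict g, hg1.domRestrict⟩ : C(K, ℂ))
    have hG1 : ∀ z ∈ K, G z = g z := by
      intro z hz
      exact congrArg (fun f : C(K, ℂ) => f ⟨z, hz⟩) hG
    set U := connectedComponentIn Kᶜ u with hU
    have hUo : IsOpen U := hKc.isOpen_compl.connectedComponentIn
    have huU : u ∈ U := mem_connectedComponentIn hu
    classical
    have hcont : Continuous (U.piecewise (fun z => (z - v) * exp (G z)) (fun z => z - u)) := by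
      refine Continuous.piecewise ?_ (by fun_prop) (by fun_prop)
      intro a ha
      have haK : a ∈ K := frontier_component hKc u ha
      have h1 : a - v ≠ 0 := by
        intro h; rw [sub_eq_zero] at h; exact hv (h ▸ haK)
      rw [hG1 a haK, hg2 a haK, mul_div_cancel₀ _ h1]
    obtain ⟨R, hR⟩ := hb.subset_ball u
    refine no_extension hcont ?_ (u := u) (R := R) ?_
    · intro z
      by_cases hz : z ∈ U
      · rw [piecewise_eq_of_mem _ _ _ hz]
        refine mul_ne_zero ?_ (exp_ne_zero _)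
        intro h; rw [sub_eq_zero] at h; exact hvU (h ▸ hz)
      · rw [piecewise_eq_of_notMem _ _ _ hz]
        intro h; rw [sub_eq_zero] at h; exact hz (h ▸ huU)
    · intro z hz
      have hzU : z ∉ U := by
        intro h
        have := hR h
        rw [Metric.mem_ball, dist_eq_norm] at this
        linarith
      rw [piecewise_eq_of_notMem _ _ _ hzU]
  by_contra hn
  by_cases hb : Bornology.IsBounded (connectedComponentIn Kᶜ u)
  · exact main u v hu hv h hn hb
  · by_cases hb' : Bornology.IsBounded (connectedComponentIn Kᶜ v)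
    · refine main v u hv hu (h.inv.congr fun z _ => by rw [inv_div]) ?_ hb'
      intro h1
      exact hn (Joins.symm (K := K) (u := v) (v := u) h1)
    · obtain ⟨R, hR⟩ := hK.isBounded.subset_closedBall (0 : ℂ)
      have far : ∀ w : ℂ, ¬ Bornology.IsBounded (connectedComponentIn Kᶜ w) →
          ∃ z ∈ connectedComponentIn Kᶜ w, R < ‖z‖ := by
        intro w hw
        by_contra h1
        push Not at h1
        refine hw ((Metric.isBounded_closedBall (x := (0 : ℂ)) (r := R)).subset ?_)
        intro z hz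
        rw [mem_closedBall_zero_iff]
        exact h1 z hz
      obtain ⟨a, ha, ha2⟩ := far u hb
      obtain ⟨b, hb1, hb2⟩ := far v hb'
      have hsub : {z : ℂ | R < ‖z‖} ⊆ Kᶜ := by
        intro z hz hzK
        have := hR hzK
        rw [mem_closedBall_zero_iff] at this
        exact absurd this (not_le.2 hz)
      have h1 : Joins K a b := joins_of_isPreconnected (isPreconnected_far R) hsub ha2 hb2
      have h2 : connectedComponentIn Kᶜ u = connectedComponentIn Kᶜ a := connectedComponentIn_eq ha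
      have h3 : connectedComponentIn Kᶜ a = connectedComponentIn Kᶜ b := connectedComponentIn_eq h1
      have h4 : connectedComponentIn Kᶜ v = connectedComponentIn Kᶜ b := connectedComponentIn_eq hb1
      apply hn
      unfold Joins
      rw [h2, h3, ← h4]
      exact mem_connectedComponentIn hv

lemma Joins.hasLog {K : Set ℂ} (hK : IsClosed K) {u v : ℂ} (h : Joins K u v) :
    HasLog K (fun z => (z - u) / (z - v)) := by
  have h2 : u ∈ Kᶜ := connectedComponentIn_nonempty_iff.1 ⟨v, h⟩
  exact hasLog_of_joined hK isPreconnected_connectedComponentIn (connectedComponentIn_subset _ _)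
    (mem_connectedComponentIn h2) h

lemma Joins.notMem_left {K : Set ℂ} {u v : ℂ} (h : Joins K u v) : u ∉ K :=
  connectedComponentIn_nonempty_iff.1 ⟨v, h⟩

lemma Joins.notMem_right {K : Set ℂ} {u v : ℂ} (h : Joins K u v) : v ∉ K :=
  connectedComponentIn_subset _ _ h

/-- logarithms on two closed sets with connected intersection can be glued -/
theorem HasLog.union {A B : Set ℂ} (hA : IsClosed A) (hB : IsClosed B)
    (hAB : IsPreconnected (A ∩ B)) {f : ℂ → ℂ} (h1 : HasLog A f) (h2 : HasLog B f) :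
    HasLog (A ∪ B) f := by
  obtain ⟨g1, hg1, hg1'⟩ := h1
  obtain ⟨g2, hg2, hg2'⟩ := h2
  obtain ⟨c, hc1, hc2⟩ : ∃ c : ℂ, exp c = 1 ∧ ∀ z ∈ A ∩ B, g1 z = g2 z + c := by
    rcases (A ∩ B).eq_empty_or_nonempty with he | ⟨a, ha⟩
    · exact ⟨0, exp_zero, fun z hz => by rw [he] at hz; exact absurd hz (notMem_empty z)⟩
    · refine ⟨g1 a - g2 a, ?_, ?_⟩
      · rw [exp_sub, hg1' a ha.1, hg2' a ha.2, div_self]
        rw [← hg1' a ha.1]; exact exp_ne_zero _
      · intro z hz
        have := log_unique hAB (hg1.mono inter_subset_left) (hg2.mono inter_subset_right)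
          (fun w hw => (hg1' w hw.1).trans (hg2' w hw.2).symm) hz ha
        rw [← this]; ring
  classical
  refine ⟨A.piecewise g1 (fun z => g2 z + c), ?_, ?_⟩
  · have hA' : ContinuousOn (A.piecewise g1 (fun z => g2 z + c)) A :=
      hg1.congr fun z hz => piecewise_eq_of_mem _ _ _ hz
    have hB' : ContinuousOn (A.piecewise g1 (fun z => g2 z + c)) B := by
      refine (hg2.add continuousOn_const).congr (f := fun z => g2 z + c) fun z hz => ?_
      by_cases hzA : z ∈ A
      · rw [piecewise_eq_of_mem _ _ _ hzA, hc2 z ⟨hzA, hz⟩]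
      · rw [piecewise_eq_of_notMem _ _ _ hzA]
    exact hA'.union_of_isClosed hB' hA hB
  · intro z hz
    by_cases hzA : z ∈ A
    · rw [piecewise_eq_of_mem _ _ _ hzA, hg1' z hzA]
    · rw [piecewise_eq_of_notMem _ _ _ hzA, exp_add, hc1, mul_one, hg2' z (hz.resolve_left hzA)]

/-- **Janiszewski's theorem** -/
theorem janiszewski {A B : Set ℂ} (hA : IsCompact A) (hB : IsCompact B)
    (hAB : IsPreconnected (A ∩ B)) {u v : ℂ} (h1 : Joins A u v) (h2 : Joins B u v) :
    Joins (A ∪ B) u v := by
  refine joins_of_hasLog (hA.union hB) ?_ ?_ ?_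
  · rintro (h | h)
    · exact h1.notMem_left h
    · exact h2.notMem_left h
  · rintro (h | h)
    · exact h1.notMem_right h
    · exact h2.notMem_right h
  · exact (h1.hasLog hA.isClosed).union hA.isClosed hB.isClosed hAB (h2.hasLog hB.isClosed)

end Full.Jor
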