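import Pool.Agent.Full.Jordan.Cells

/-!
# Square roots on a bounded domain with connected complement
-/

set_option autoImplicit false

open Set Filter Topology Complex

namespace Full.Jor

/-- square roots on the union of the cells -/
theorem root_cells {D : Set ℂ} (hD : IsOpen D) (hb : Bornology.IsBounded D) (hc : IsPreconnected Dᶜ)
    {f : ℂ → ℂ} (hf : ContinuousOn f D) (h0 : ∀ z ∈ D, f z ≠ 0) :
    HasRoot (⋃ t : {t // t ∈ cells hb}, Sq t) f := by
  classical
  set T := cells hb with hT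
  have hTD : ∀ t ∈ T, Sq t ⊆ D := fun t ht => (mem_cells hb).1 ht
  -- local roots
  have hloc : ∀ t ∈ T, HasRoot (Sq t) f := by
    intro t ht
    have hcomp : IsCompact (Sq t) := by
      refine Metric.isCompact_of_isClosed_isBounded (isClosed_Sq t) ?_
      exact hb.subset (hTD t ht)
    obtain ⟨δ, hδ, h1⟩ := hcomp.exists_thickening_subset_open hD (hTD t ht)
    refine (hasLog_convex ((convex_Sq t).thickening δ) Metric.isOpen_thickening (hf.mono h1)
      (fun z hz => h0 z (h1 hz))).hasRoot.mono (Metric.self_subset_thickening hδ _)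
  have hloc' : ∀ t : ℤ × ℤ, ∃ s : ℂ → ℂ, t ∈ T → ContinuousOn s (Sq t) ∧ ∀ z ∈ Sq t, s z ^ 2 = f z := by
    intro t
    by_cases ht : t ∈ T
    · obtain ⟨s, h1, h2⟩ := hloc t ht
      exact ⟨s, fun _ => ⟨h1, h2⟩⟩
    · exact ⟨0, fun h => absurd h ht⟩
  choose S hS using hloc'
  -- reference roots at the vertices
  have hρ' : ∀ p : ℤ × ℤ, ∃ w : ℂ, w ^ 2 = f (pt p) := fun p => by
    obtain ⟨w, hw⟩ := IsAlgClosed.exists_pow_nat_eq (f (pt p)) (n := 2) (by norm_num)
    exact ⟨w, hw⟩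
  choose ρ hρ using hρ'
  set σ : ℤ × ℤ → ℤ × ℤ → ZMod 2 := fun t p => if S t (pt p) = ρ p then 0 else 1 with hσ
  have hσ1 : ∀ t ∈ T, ∀ p, Cor t p → S t (pt p) = sg (σ t p) * ρ p := by
    intro t ht p hp
    have h1 : S t (pt p) ^ 2 = ρ p ^ 2 := by rw [(hS t ht).2 _ (pt_mem hp), hρ]
    rcases sq_eq_sq_iff_eq_or_eq_neg.1 h1 with h2 | h2
    · simp only [hσ, if_pos h2, sg, if_true, one_mul, h2]
    · by_cases h3 : S t (pt p) = ρ p
      · simp only [hσ, if_pos h3, sg, if_true, one_mul, h3]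
      · have e : (1 : ZMod 2) ≠ 0 := by decide
        simp only [hσ, if_neg h3, sg, if_neg e]
        rw [h2]; ring
  have hρ0 : ∀ t ∈ T, ∀ p, Cor t p → ρ p ≠ 0 := by
    intro t ht p hp h
    have h1 := hρ p
    rw [h] at h1
    exact h0 _ (hTD t ht (pt_mem hp)) (by rw [← h1]; norm_num)
  -- comparison of two cells
  have hcmp : ∀ t ∈ T, ∀ t' ∈ T, ∀ p q, Cor t p → Cor t q → Cor t' p → Cor t' q →
      σ t p + σ t q = σ t' p + σ t' q := by
    intro t ht t' ht' p q h1 h2 h3 h4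
    have hconv : IsPreconnected (Sq t ∩ Sq t') := ((convex_Sq t).inter (convex_Sq t')).isPreconnected
    have hp : pt p ∈ Sq t ∩ Sq t' := ⟨pt_mem h1, pt_mem h3⟩
    have hq : pt q ∈ Sq t ∩ Sq t' := ⟨pt_mem h2, pt_mem h4⟩
    have hEq := hconv.eq_or_eq_neg_of_sq_eq (f := S t) (g := S t') ((hS t ht).1.mono inter_subset_left)
      ((hS t' ht').1.mono inter_subset_right)
      (fun z hz => by
        show S t z ^ 2 = S t' z ^ 2
        rw [(hS t ht).2 z hz.1, (hS t' ht').2 z hz.2])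
      (fun {z} hz h => h0 z (hTD t ht hz.1) (by rw [← (hS t' ht').2 z hz.2, h]; norm_num))
    obtain ⟨ε, hε⟩ : ∃ ε : ZMod 2, ∀ z ∈ Sq t ∩ Sq t', S t z = sg ε * S t' z := by
      rcases hEq with h | h
      · exact ⟨0, fun z hz => by rw [h hz]; simp [sg]⟩
      · exact ⟨1, fun z hz => by rw [h hz]; simp [sg]⟩
    have e1 := hε _ hp
    have e2 := hε _ hq
    rw [hσ1 t ht p h1, hσ1 t' ht' p h3, ← mul_assoc, ← sg_add] at e1
    rw [hσ1 t ht q h2, hσ1 t' ht' q h4, ← mul_assoc, ← sg_add] at e2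
    have g1 := sg_inj (mul_right_cancel₀ (hρ0 t ht p h1) e1)
    have g2 := sg_inj (mul_right_cancel₀ (hρ0 t ht q h2) e2)
    have e3 := two_zmod ε
    rw [g1, g2]
    linear_combination e3
  -- the edge functions
  set h : ℤ × ℤ → ZMod 2 := fun p =>
    if p ∈ T then σ p p + σ p (p.1 + 1, p.2) else σ (p.1, p.2 - 1) p + σ (p.1, p.2 - 1) (p.1 + 1, p.2)
    with hh
  set v : ℤ × ℤ → ZMod 2 := fun p =>
    if p ∈ T then σ p p + σ p (p.1, p.2 + 1) else σ (p.1 - 1, p.2) p + σ (p.1 - 1, p.2) (p.1, p.2 + 1)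
    with hv
  have hh1 : ∀ t ∈ T, ∀ p, Cor t p → Cor t (p.1 + 1, p.2) → h p = σ t p + σ t (p.1 + 1, p.2) := by
    intro t ht p h1 h2
    obtain ⟨t1, t2⟩ := t
    obtain ⟨p1, p2⟩ := p
    unfold Cor at h1 h2
    simp only at h1 h2
    have e1 : p1 = t1 := by omega
    subst e1
    by_cases hp : (p1, p2) ∈ T
    · simp only [hh, if_pos hp]
      exact hcmp _ hp _ ht _ _ ⟨Or.inl rfl, Or.inl rfl⟩ ⟨Or.inr rfl, Or.inl rfl⟩ ⟨Or.inl rfl, h1.2⟩
        ⟨Or.inr rfl, h1.2⟩
    · have e2 : p2 - 1 = t2 := by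
        rcases h1.2 with h5 | h5
        · exact absurd ht (by rw [← h5]; exact hp)
        · omega
      simp only [hh, if_neg hp, e2]
  have hv1 : ∀ t ∈ T, ∀ p, Cor t p → Cor t (p.1, p.2 + 1) → v p = σ t p + σ t (p.1, p.2 + 1) := by
    intro t ht p h1 h2
    obtain ⟨t1, t2⟩ := t
    obtain ⟨p1, p2⟩ := p
    unfold Cor at h1 h2
    simp only at h1 h2
    have e1 : p2 = t2 := by omega
    subst e1
    by_cases hp : (p1, p2) ∈ T
    · simp only [hv, if_pos hp]
      exact hcmp _ hp _ ht _ _ ⟨Or.inl rfl, Or.inl rfl⟩ ⟨Or.inl rfl, Or.inr rfl⟩ ⟨h1.1, Or.inl rfl⟩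
        ⟨h1.1, Or.inr rfl⟩
    · have e2 : p1 - 1 = t1 := by
        rcases h1.1 with h5 | h5
        · exact absurd ht (by rw [← h5]; exact hp)
        · omega
      simp only [hv, if_neg hp, e2]
  have hcurl : ∀ t ∈ T, curl h v t = 0 := by
    intro t ht
    have a1 := hh1 t ht t ⟨Or.inl rfl, Or.inl rfl⟩ ⟨Or.inr rfl, Or.inl rfl⟩
    have a2 := hh1 t ht (t.1, t.2 + 1) ⟨Or.inl rfl, Or.inr rfl⟩ ⟨Or.inr rfl, Or.inr rfl⟩
    have a3 := hv1 t ht t ⟨Or.inl rfl, Or.inl rfl⟩ ⟨Or.inl rfl, Or.inr rfl⟩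
    have a4 := hv1 t ht (t.1 + 1, t.2) ⟨Or.inr rfl, Or.inl rfl⟩ ⟨Or.inr rfl, Or.inr rfl⟩
    simp only at a1 a2 a3 a4
    unfold curl
    rw [a1, a2, a3, a4]
    have b1 := two_zmod (σ t t)
    have b2 := two_zmod (σ t (t.1 + 1, t.2))
    have b3 := two_zmod (σ t (t.1, t.2 + 1))
    have b4 := two_zmod (σ t (t.1 + 1, t.2 + 1))
    linear_combination b1 + b2 + b3 + b4
  obtain ⟨c, hc1, hc2⟩ := exact_cells (out_cells hb hc) hcurl
  -- the sign of a cell
  have hκ : ∀ t ∈ T, ∀ p, Cor t p → c p + σ t p = c t + σ t t := by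
    intro t ht
    have oH : ¬ OffH T t := fun h => h.1 ht
    have oV : ¬ OffV T t := fun h => h.1 ht
    have oV' : ¬ OffV T (t.1 + 1, t.2) := fun h => h.2 (by simpa using ht)
    have e1 : c (t.1 + 1, t.2) + σ t (t.1 + 1, t.2) = c t + σ t t := by
      rw [hc1 t oH, hh1 t ht t ⟨Or.inl rfl, Or.inl rfl⟩ ⟨Or.inr rfl, Or.inl rfl⟩]
      have := two_zmod (σ t (t.1 + 1, t.2))
      linear_combination this
    have e2 : c (t.1, t.2 + 1) + σ t (t.1, t.2 + 1) = c t + σ t t := by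
      rw [hc2 t oV, hv1 t ht t ⟨Or.inl rfl, Or.inl rfl⟩ ⟨Or.inl rfl, Or.inr rfl⟩]
      have := two_zmod (σ t (t.1, t.2 + 1))
      linear_combination this
    have e3 : c (t.1 + 1, t.2 + 1) + σ t (t.1 + 1, t.2 + 1) = c t + σ t t := by
      rw [← e1]
      have := hc2 (t.1 + 1, t.2) oV'
      simp only at this
      rw [this, hv1 t ht (t.1 + 1, t.2) ⟨Or.inr rfl, Or.inl rfl⟩ ⟨Or.inr rfl, Or.inr rfl⟩]
      have := two_zmod (σ t (t.1 + 1, t.2 + 1))
      simp only
      linear_combination this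
    rintro ⟨p1, p2⟩ ⟨h1, h2⟩
    simp only at h1 h2
    rcases h1 with rfl | rfl <;> rcases h2 with rfl | rfl
    · rfl
    · exact e2
    · exact e1
    · exact e3
  -- the global root
  have hglue : ∀ t ∈ T, ∀ t' ∈ T, ∀ z, z ∈ Sq t → z ∈ Sq t' →
      sg (c t + σ t t) * S t z = sg (c t' + σ t' t') * S t' z := by
    intro t ht t' ht' z hz hz'
    obtain ⟨p, hp, hp'⟩ := common_corner hz hz'
    have hconv : IsPreconnected (Sq t ∩ Sq t') := ((convex_Sq t).inter (convex_Sq t')).isPreconnected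
    refine root_unique hconv (f := fun z => sg (c t + σ t t) * S t z)
      (g := fun z => sg (c t' + σ t' t') * S t' z) ?_ ?_ ?_ ?_ (a := pt p) ⟨pt_mem hp, pt_mem hp'⟩ ?_ z
      ⟨hz, hz'⟩
    · exact continuousOn_const.mul ((hS t ht).1.mono inter_subset_left)
    · exact continuousOn_const.mul ((hS t' ht').1.mono inter_subset_right)
    · intro w hw
      rw [mul_pow, mul_pow, sg_sq, sg_sq, (hS t ht).2 w hw.1, (hS t' ht').2 w hw.2]
    · intro w hw
      refine mul_ne_zero (sg_ne _) ?_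
      intro h5
      exact h0 w (hTD t ht hw.1) (by rw [← (hS t' ht').2 w hw.2, h5]; norm_num)
    · rw [hσ1 t ht p hp, hσ1 t' ht' p hp', ← mul_assoc, ← mul_assoc, ← sg_add, ← sg_add,
        ← hκ t ht p hp, ← hκ t' ht' p hp']
      have b1 := two_zmod (σ t p)
      have b2 := two_zmod (σ t' p)
      congr 2
      linear_combination b1 - b2
  refine ⟨fun z => if h : ∃ t, t ∈ T ∧ z ∈ Sq t then
    sg (c h.choose + σ h.choose h.choose) * S h.choose z else 0, ?_, ?_⟩
  · refine LocallyFinite.continuousOn_iUnion (locallyFinite_Sq.comp_injective Subtype.val_injective)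
      (fun t => isClosed_Sq t) ?_
    rintro ⟨t, ht⟩
    refine (continuousOn_const.mul (hS t ht).1 :
      ContinuousOn (fun z => sg (c t + σ t t) * S t z) (Sq t)).congr ?_
    intro z hz
    have h5 : ∃ t, t ∈ T ∧ z ∈ Sq t := ⟨t, ht, hz⟩
    simp only [dif_pos h5]
    exact hglue _ h5.choose_spec.1 _ ht z h5.choose_spec.2 hz
  · intro z hz
    rw [mem_iUnion] at hz
    obtain ⟨⟨t, ht⟩, hz⟩ := hz
    have h5 : ∃ t, t ∈ T ∧ z ∈ Sq t := ⟨t, ht, hz⟩
    simp only [dif_pos h5]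
    rw [mul_pow, sg_sq, one_mul, (hS _ h5.choose_spec.1).2 z h5.choose_spec.2]

lemma Sq_diam {t : ℤ × ℤ} {z w : ℂ} (hz : z ∈ Sq t) (hw : w ∈ Sq t) : ‖z - w‖ ≤ 2 := by
  obtain ⟨h1, h2, h3, h4⟩ := hz
  obtain ⟨g1, g2, g3, g4⟩ := hw
  refine (norm_le_abs_re_add_abs_im _).trans ?_
  have e1 : |(z - w).re| ≤ 1 := by rw [sub_re, abs_le]; constructor <;> linarith
  have e2 : |(z - w).im| ≤ 1 := by rw [sub_im, abs_le]; constructor <;> linarith
  linarith

/-- square roots on compact subsets -/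
theorem root_compact {D K : Set ℂ} (hD : IsOpen D) (hb : Bornology.IsBounded D)
    (hc : IsPreconnected Dᶜ) (hK : IsCompact K) (hKD : K ⊆ D) {f : ℂ → ℂ} (hf : ContinuousOn f D)
    (h0 : ∀ z ∈ D, f z ≠ 0) : HasRoot K f := by
  obtain ⟨δ, hδ, h1⟩ := hK.exists_thickening_subset_open hD hKD
  obtain ⟨n, hn⟩ := exists_nat_gt (2 / δ)
  have hn0 : (0 : ℝ) < n := lt_trans (by positivity) hn
  have hnC : (n : ℂ) ≠ 0 := by
    have : (n : ℝ) ≠ 0 := hn0.ne'
    exact_mod_cast this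
  set D' : Set ℂ := (fun z : ℂ => z / n) ⁻¹' D with hD'
  have hcont : Continuous (fun z : ℂ => z / n) := continuous_id.div_const _
  have hD'o : IsOpen D' := hD.preimage hcont
  have hD'b : Bornology.IsBounded D' := by
    obtain ⟨R, hR⟩ := hb.subset_closedBall (0 : ℂ)
    refine (Metric.isBounded_closedBall (x := (0 : ℂ)) (r := n * R)).subset ?_
    intro z hz
    have h2 := hR hz
    rw [mem_closedBall_zero_iff] at h2 ⊢
    rw [norm_div, Complex.norm_natCast, div_le_iff₀ hn0] at h2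
    linarith
  have hD'c : IsPreconnected D'ᶜ := by
    have h2 : D'ᶜ = (fun z : ℂ => n * z) '' Dᶜ := by
      ext z
      constructor
      · intro hz
        exact ⟨z / n, hz, mul_div_cancel₀ _ hnC⟩
      · rintro ⟨w, hw, rfl⟩ h3
        apply hw
        have : (n : ℂ) * w / n = w := mul_div_cancel_left₀ _ hnC
        rw [hD', mem_preimage, this] at h3
        exact h3
    rw [h2]
    exact hc.image _ (by fun_prop)
  obtain ⟨s, hs1, hs2⟩ := root_cells hD'o hD'b hD'c (f := fun z => f (z / n))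
    (hf.comp hcont.continuousOn (fun z hz => hz)) (fun z hz => h0 _ hz)
  have hmem : ∀ z ∈ K, (n : ℂ) * z ∈ ⋃ t : {t // t ∈ cells hD'b}, Sq t := by
    intro z hz
    obtain ⟨t, ht⟩ := exists_Sq (n * z)
    refine mem_iUnion.2 ⟨⟨t, (mem_cells hD'b).2 ?_⟩, ht⟩
    intro w hw
    apply h1
    rw [Metric.mem_thickening_iff]
    refine ⟨z, hz, ?_⟩
    rw [dist_eq_norm]
    have h3 := Sq_diam hw ht
    have h4 : w / n - z = (w - n * z) / n := by field_simp
    rw [h4, norm_div, Complex.norm_natCast, div_lt_iff₀ hn0]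
    rw [div_lt_iff₀ hδ] at hn
    linarith
  refine ⟨fun z => s (n * z), hs1.comp (by fun_prop) hmem, ?_⟩
  intro z hz
  rw [hs2 _ (hmem z hz)]
  show f (n * z / n) = f z
  rw [mul_div_cancel_left₀ _ hnC]

/-- **square roots**: on a bounded domain with connected complement every nonvanishing continuous
function has a continuous square root -/
theorem root_domain {D : Set ℂ} (hD : IsOpen D) (hDc : IsConnected D) (hb : Bornology.IsBounded D)
    (hc : IsPreconnected Dᶜ) {f : ℂ → ℂ} (hf : ContinuousOn f D) (h0 : ∀ z ∈ D, f z ≠ 0) :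
    HasRoot D f := by
  classical
  obtain ⟨z0, hz0⟩ := hDc.nonempty
  have hpc : IsPathConnected D := (hD.isConnected_iff_isPathConnected).1 hDc
  obtain ⟨a, ha⟩ := IsAlgClosed.exists_pow_nat_eq (f z0) (n := 2) (by norm_num)
  -- admissible triples
  let Q : ℂ → Set ℂ → (ℂ → ℂ) → Prop := fun z K s => IsCompact K ∧ IsPreconnected K ∧ K ⊆ D ∧
    z0 ∈ K ∧ z ∈ K ∧ ContinuousOn s K ∧ (∀ w ∈ K, s w ^ 2 = f w) ∧ s z0 = a
  -- extension
  have hext : ∀ K : Set ℂ, IsCompact K → K ⊆ D → z0 ∈ K → ∃ s : ℂ → ℂ, ContinuousOn s K ∧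
      (∀ w ∈ K, s w ^ 2 = f w) ∧ s z0 = a := by
    intro K hK hKD hzK
    obtain ⟨s, h1, h2⟩ := root_compact hD hb hc hK hKD hf h0
    have h3 : s z0 ^ 2 = a ^ 2 := by rw [h2 z0 hzK, ha]
    rcases sq_eq_sq_iff_eq_or_eq_neg.1 h3 with h4 | h4
    · exact ⟨s, h1, h2, h4⟩
    · exact ⟨fun z => - s z, h1.neg, fun w hw => by rw [neg_sq, h2 w hw], by simp only [h4, neg_neg]⟩
  have hex : ∀ z ∈ D, ∃ K s, Q z K s := by
    intro z hz
    obtain ⟨γ, hγ⟩ := hpc.joinedIn z0 hz0 z hz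
    have hK : IsCompact (range γ) := isCompact_range γ.continuous
    have hKc : IsPreconnected (range γ) := isPreconnected_range γ.continuous
    have hKD : range γ ⊆ D := by rintro _ ⟨t, rfl⟩; exact hγ t
    have h1 : z0 ∈ range γ := ⟨0, γ.source⟩
    have h2 : z ∈ range γ := ⟨1, γ.target⟩
    obtain ⟨s, h3, h4, h5⟩ := hext _ hK hKD h1
    exact ⟨range γ, s, hK, hKc, hKD, h1, h2, h3, h4, h5⟩
  have huniq : ∀ z K s K' s', Q z K s → Q z K' s' → s z = s' z := by
    intro z K s K' s' h h'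
    obtain ⟨h1, h2, h3, h4, h5, h6, h7, h8⟩ := h
    obtain ⟨g1, g2, g3, g4, g5, g6, g7, g8⟩ := h'
    obtain ⟨S, e1, e2, e3⟩ := hext (K ∪ K') (h1.union g1) (union_subset h3 g3) (Or.inl h4)
    have i1 : s z = S z := root_unique h2 h6 (e1.mono subset_union_left)
      (fun w hw => by rw [h7 w hw, e2 w (Or.inl hw)])
      (fun w hw h => h0 w (h3 hw) (by rw [← e2 w (Or.inl hw), h]; norm_num)) h4 (by rw [h8, e3]) z h5
    have i2 : s' z = S z := root_unique g2 g6 (e1.mono subset_union_right)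
      (fun w hw => by rw [g7 w hw, e2 w (Or.inr hw)])
      (fun w hw h => h0 w (g3 hw) (by rw [← e2 w (Or.inr hw), h]; norm_num)) g4 (by rw [g8, e3]) z g5
    rw [i1, i2]
  refine ⟨fun z => if h : ∃ K s, Q z K s then h.choose_spec.choose z else 0, ?_, ?_⟩
  · intro z hz
    obtain ⟨K, s, h1, h2, h3, h4, h5, h6, h7, h8⟩ := hex z hz
    obtain ⟨r, hr, hr2⟩ := Metric.isOpen_iff.1 hD z hz
    have hB : Metric.closedBall z (r / 2) ⊆ D := (Metric.closedBall_subset_ball (by linarith)).trans hr2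
    obtain ⟨S, e1, e2, e3⟩ := hext (K ∪ Metric.closedBall z (r / 2)) (h1.union (isCompact_closedBall _ _))
      (union_subset h3 hB) (Or.inl h4)
    have hQ : ∀ w ∈ Metric.closedBall z (r / 2), Q w (K ∪ Metric.closedBall z (r / 2)) S := by
      intro w hw
      refine ⟨h1.union (isCompact_closedBall _ _), ?_, union_subset h3 hB, Or.inl h4, Or.inr hw, e1, e2, e3⟩
      exact h2.union z h5 (Metric.mem_closedBall_self (by linarith))
        (convex_closedBall z (r / 2)).isPreconnected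
    have hS : ContinuousAt S z := by
      have h9 : ContinuousOn S (Metric.closedBall z (r / 2)) := e1.mono subset_union_right
      exact h9.continuousAt (Metric.closedBall_mem_nhds z (by linarith))
    refine (hS.congr ?_).continuousWithinAt
    filter_upwards [Metric.closedBall_mem_nhds z (show 0 < r / 2 by linarith)] with w hw
    have h10 : ∃ K s, Q w K s := ⟨_, _, hQ w hw⟩
    simp only [dif_pos h10]
    exact huniq w _ _ _ _ (hQ w hw) h10.choose_spec.choose_spec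
  · intro z hz
    have h10 : ∃ K s, Q z K s := hex z hz
    simp only [dif_pos h10]
    have h11 : Q z h10.choose h10.choose_spec.choose := h10.choose_spec.choose_spec
    exact h11.2.2.2.2.2.2.1 z h11.2.2.2.2.1

end Full.Jor
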